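import Pool.Agent.Q209.KS.Ker
import Pool.Agent.Q209.KS.Hu
import Pool.Agent.Q14.KS.Smo

/-!
Huxley's large value theorem at real points (adapted from project KS, helper209 and helper240,
where the points are integers).
-/

set_option autoImplicit false

namespace Pool.Agent.K9h52.DX

open Finset
open Pool.Agent.H376R2.MR
open Pool.Agent.Q240.KS
open Pool.Agent.Q209.KS

/-- `chr τ (log n) = n^{-iτ}` -/
noncomputable def chr (τ : ℝ) (x : ℝ) : ℂ := Complex.exp (-(τ * x : ℝ) * Complex.I)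

/-- the kernel -/
noncomputable def knr (N : ℝ) (τ : ℝ) : ℂ :=
  ∑ n ∈ Icc 1 ⌊Real.exp 3 * N⌋₊, ((Wt (Real.log n - Real.log N) / n : ℝ) : ℂ) * chr τ (Real.log n)

/-- the Dirichlet polynomial -/
noncomputable def DPr (s : Finset ℕ) (a : ℕ → ℂ) (t : ℝ) : ℂ := ∑ n ∈ s, a n * chr t (Real.log n)

theorem norm_chr (k : ℝ) (x : ℝ) : ‖chr k x‖ = 1 := by
  unfold chr
  rw [← Complex.ofReal_neg]
  exact Complex.norm_exp_ofReal_mul_I _

theorem chr_eq_nt (τ : ℝ) {n : ℕ} (hn : 1 ≤ n) :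
    chr τ (Real.log n) = Pool.Agent.Q236.CR.nt τ n := by
  unfold chr Pool.Agent.Q236.CR.nt
  have h0 : (n : ℂ) ≠ 0 := by
    have : n ≠ 0 := by omega
    exact_mod_cast this
  rw [Complex.cpow_def_of_ne_zero h0, ← Complex.natCast_log]
  congr 1
  push_cast
  ring

theorem kerr_zero {N : ℝ} (hN : 1 ≤ N) : ‖knr N 0‖ ≤ Real.exp 6 := by
  have hN0 : 0 < N := by linarith
  unfold knr
  refine (norm_sum_le _ _).trans ?_
  have h1 : ∀ n ∈ Icc 1 ⌊Real.exp 3 * N⌋₊,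
      ‖((Wt (Real.log n - Real.log N) / n : ℝ) : ℂ) * chr 0 (Real.log n)‖ ≤ Real.exp 3 / N := by
    intro n hn
    rw [norm_mul, norm_chr, mul_one, Complex.norm_real, Real.norm_eq_abs, abs_of_nonneg
      (div_nonneg (Wt_nonneg _) (Nat.cast_nonneg _))]
    exact term_bd hN (Finset.mem_Icc.1 hn).1
  refine (Finset.sum_le_sum h1).trans ?_
  rw [Finset.sum_const, Nat.card_Icc, nsmul_eq_mul, Nat.add_sub_cancel]
  have h2 : ((⌊Real.exp 3 * N⌋₊ : ℕ) : ℝ) ≤ Real.exp 3 * N := Nat.floor_le (by positivity)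
  calc ((⌊Real.exp 3 * N⌋₊ : ℕ) : ℝ) * (Real.exp 3 / N) ≤ Real.exp 3 * N * (Real.exp 3 / N) :=
        mul_le_mul_of_nonneg_right h2 (by positivity)
    _ = Real.exp 6 := by
        rw [show (6 : ℝ) = 3 + 3 by norm_num, Real.exp_add]
        field_simp


/-- one of the five tents -/
theorem tentr_bd {CS : ℝ} (hS : ∀ β p q τ s₀ : ℝ, 1 ≤ β → β ≤ 20 → τ ≠ 0 →
    |τ| ≤ Real.exp (s₀ - 1) → ‖∑ n ∈ Icc 1 ⌊Real.exp (s₀ + 1)⌋₊,
    (((p + q * (Real.log n - s₀)) * w (β * (Real.log n - s₀)) / n : ℝ) : ℂ) *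
      er (-τ) (Real.log n)‖ ≤ CS * (|p| + |q|) * (1 / τ ^ 2 + Real.exp (-(2 * s₀))))
    {N : ℝ} (hN : 1 ≤ N) {τ : ℝ} (hτ : 1 ≤ |τ|) (hτN : |τ| ≤ N * Real.exp (-3)) (hCS : 1 ≤ CS)
    {j : ℝ} (hj : -2 ≤ j) (hj' : j ≤ 2) :
    ‖∑ n ∈ Icc 1 ⌊Real.exp 3 * N⌋₊, ((w (Real.log n - Real.log N - j) / n : ℝ) : ℂ) *
      chr τ (Real.log n)‖ ≤ CS * (1 + Real.exp 4) * (1 / τ ^ 2) := by
  have hN0 : 0 < N := by linarith
  have hτ0 : τ ≠ 0 := abs_pos.1 (by linarith)
  have h1 := hS 1 1 0 τ (Real.log N + j) le_rfl (by norm_num) hτ0 (by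
    refine hτN.trans ?_
    have h2 : N * Real.exp (-3) = Real.exp (Real.log N + -3) := by
      rw [Real.exp_add, Real.exp_log hN0]
    rw [h2]
    exact Real.exp_le_exp.2 (by linarith))
  have h3 : ∑ n ∈ Icc 1 ⌊Real.exp 3 * N⌋₊, ((w (Real.log n - Real.log N - j) / n : ℝ) : ℂ) *
      chr τ (Real.log n) = ∑ n ∈ Icc 1 ⌊Real.exp (Real.log N + j + 1)⌋₊,
    (((1 + 0 * (Real.log n - (Real.log N + j))) * w (1 * (Real.log n - (Real.log N + j))) / n : ℝ) :
      ℂ) * er (-τ) (Real.log n) := by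
    have h4 : Icc 1 ⌊Real.exp (Real.log N + j + 1)⌋₊ ⊆ Icc 1 ⌊Real.exp 3 * N⌋₊ := by
      refine Finset.Icc_subset_Icc_right (Nat.floor_le_floor ?_)
      calc Real.exp (Real.log N + j + 1) ≤ Real.exp (3 + Real.log N) :=
            Real.exp_le_exp.2 (by linarith)
        _ = Real.exp 3 * N := by rw [Real.exp_add, Real.exp_log hN0]
    rw [← Finset.sum_subset h4]
    · refine Finset.sum_congr rfl fun n _ => ?_
      congr 2
      · rw [zero_mul, add_zero, one_mul, one_mul, sub_sub]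
      · unfold chr er
        congr 1
        push_cast
        ring
    · intro n hn hn'
      have h5 : ⌊Real.exp (Real.log N + j + 1)⌋₊ < n := by
        by_contra h6
        exact hn' (Finset.mem_Icc.2 ⟨(Finset.mem_Icc.1 hn).1, not_lt.1 h6⟩)
      have h6 : Real.exp (Real.log N + j + 1) < n := (Nat.floor_lt (Real.exp_pos _).le).1 h5
      have h7 : Real.log N + j + 1 < Real.log n := by
        rw [Real.lt_log_iff_exp_lt (lt_trans (Real.exp_pos _) h6)]
        exact h6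
      rw [w_zero (by rw [le_abs]; left; linarith)]
      simp
  rw [h3]
  refine h1.trans ?_
  rw [abs_one, abs_zero, add_zero, mul_one, mul_assoc]
  refine mul_le_mul_of_nonneg_left ?_ (by linarith)
  rw [add_mul, one_mul]
  refine add_le_add le_rfl ?_
  have h8 : Real.exp (-(2 * (Real.log N + j))) = Real.exp (-(2 * j)) * (1 / N ^ 2) := by
    have h9 : -(2 * (Real.log N + j)) = -(2 * j) + -(Real.log N + Real.log N) := by ring
    rw [h9, Real.exp_add, Real.exp_neg (Real.log N + Real.log N), Real.exp_add,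
      Real.exp_log hN0]
    congr 1
    rw [one_div, sq]
  rw [h8]
  have h10 : |τ| ≤ N := by
    refine hτN.trans ?_
    have : Real.exp (-3) ≤ 1 := Real.exp_le_one_iff.2 (by norm_num)
    nlinarith
  have h11 : 1 / N ^ 2 ≤ 1 / τ ^ 2 := by
    have h12 : τ ^ 2 ≤ N ^ 2 := by
      rw [← sq_abs]
      exact pow_le_pow_left₀ (abs_nonneg _) h10 2
    exact one_div_le_one_div_of_le (by positivity) h12
  exact mul_le_mul (Real.exp_le_exp.2 (by linarith)) h11 (by positivity) (Real.exp_pos _).le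

theorem kerr_small {CS : ℝ} (hS : ∀ β p q τ s₀ : ℝ, 1 ≤ β → β ≤ 20 → τ ≠ 0 →
    |τ| ≤ Real.exp (s₀ - 1) → ‖∑ n ∈ Icc 1 ⌊Real.exp (s₀ + 1)⌋₊,
    (((p + q * (Real.log n - s₀)) * w (β * (Real.log n - s₀)) / n : ℝ) : ℂ) *
      er (-τ) (Real.log n)‖ ≤ CS * (|p| + |q|) * (1 / τ ^ 2 + Real.exp (-(2 * s₀))))
    {N : ℝ} (hN : 1 ≤ N) {τ : ℝ} (hτ : 1 ≤ |τ|) (hτN : |τ| ≤ N * Real.exp (-3))
    (hCS : 1 ≤ CS) : ‖knr N τ‖ ≤ 5 * (CS * (1 + Real.exp 4)) * (1 / τ ^ 2) := by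
  have h : ∀ j : ℝ, -2 ≤ j → j ≤ 2 → _ := fun j h1 h2 => tentr_bd hS hN hτ hτN hCS h1 h2
  have h1 : knr N τ =
      ∑ n ∈ Icc 1 ⌊Real.exp 3 * N⌋₊, ((w (Real.log n - Real.log N - 2) / n : ℝ) : ℂ) *
        chr τ (Real.log n) +
      ∑ n ∈ Icc 1 ⌊Real.exp 3 * N⌋₊, ((w (Real.log n - Real.log N - 1) / n : ℝ) : ℂ) *
        chr τ (Real.log n) +
      ∑ n ∈ Icc 1 ⌊Real.exp 3 * N⌋₊, ((w (Real.log n - Real.log N - 0) / n : ℝ) : ℂ) *
        chr τ (Real.log n) +
      ∑ n ∈ Icc 1 ⌊Real.exp 3 * N⌋₊, ((w (Real.log n - Real.log N - (-1)) / n : ℝ) : ℂ) *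
        chr τ (Real.log n) +
      ∑ n ∈ Icc 1 ⌊Real.exp 3 * N⌋₊, ((w (Real.log n - Real.log N - (-2)) / n : ℝ) : ℂ) *
        chr τ (Real.log n) := by
    unfold knr
    rw [← Finset.sum_add_distrib, ← Finset.sum_add_distrib, ← Finset.sum_add_distrib,
      ← Finset.sum_add_distrib]
    refine Finset.sum_congr rfl fun n _ => ?_
    rw [Wt_eq, sub_zero, sub_neg_eq_add, sub_neg_eq_add]
    push_cast
    ring
  rw [h1]
  have e1 := h 2 (by norm_num) (by norm_num)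
  have e2 := h 1 (by norm_num) (by norm_num)
  have e3 := h 0 (by norm_num) (by norm_num)
  have e4 := h (-1) (by norm_num) (by norm_num)
  have e5 := h (-2) (by norm_num) (by norm_num)
  refine (norm_add_le _ _).trans ?_
  refine (add_le_add_left (norm_add_le _ _) _).trans ?_
  refine (add_le_add_left (add_le_add_left (norm_add_le _ _) _) _).trans ?_
  refine (add_le_add_left (add_le_add_left (add_le_add_left (norm_add_le _ _) _) _) _).trans ?_
  linarith


theorem kerr_large {CD : ℝ} (hCD : 1 ≤ CD)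
    (hD : ∀ (N N' : ℕ) (t β : ℝ), 1 ≤ N → N ≤ N' → N' ≤ 2 * N → 1 ≤ |t| →
      ‖∑ n ∈ Finset.Ioc N N', Pool.Agent.H469R2.NK.e (β * n) * Pool.Agent.Q236.CR.nt t n‖ ≤
        CD * (√|t| + N / √|t|) * (1 + Real.log N))
    {N : ℝ} (hN : 1 ≤ N) {τ : ℝ} (hτ : 1 ≤ |τ|) (hτN : N * Real.exp (-3) < |τ|) :
    ‖knr N τ‖ ≤ (Real.exp 3 + 200 * CD * (1 + Real.exp 6) * Real.exp 3) *
      (√|τ| * (1 + Real.log N) / N) := by
  have hN0 : 0 < N := by linarith
  have hlogN : 0 ≤ Real.log N := Real.log_nonneg hN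
  have hτ1 : 1 ≤ |τ| := hτ
  have hsq : 1 ≤ √|τ| := Real.one_le_sqrt.2 hτ1
  have hsq0 : 0 < √|τ| := by linarith
  have hE3 : 0 < Real.exp 3 := Real.exp_pos _
  have hE : Real.exp 3 * Real.exp (-3) = 1 := by
    rw [← Real.exp_add]
    norm_num
  obtain ⟨a, ha⟩ : ∃ a : ℕ, a = max 1 ⌊N * Real.exp (-3)⌋₊ := ⟨_, rfl⟩
  obtain ⟨b, hb⟩ : ∃ b : ℕ, b = ⌊Real.exp 3 * N⌋₊ := ⟨_, rfl⟩
  have ha1 : 1 ≤ a := by rw [ha]; exact le_max_left _ _
  have hexp3 : (1 : ℝ) ≤ Real.exp 3 := Real.one_le_exp (by norm_num)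
  have hexpm3 : Real.exp (-3) ≤ 1 := Real.exp_le_one_iff.2 (by norm_num)
  have hab : a ≤ b := by
    rw [ha, hb]
    refine max_le (Nat.le_floor ?_) (Nat.floor_le_floor ?_)
    · push_cast
      nlinarith
    · nlinarith [Real.exp_pos (-3)]
  have ha2 : N * Real.exp (-3) ≤ 2 * a := by
    have h1 := Nat.lt_floor_add_one (N * Real.exp (-3))
    have h2 : ((⌊N * Real.exp (-3)⌋₊ : ℕ) : ℝ) ≤ a := by
      rw [ha]
      exact_mod_cast le_max_right _ _
    have h3 : (1 : ℝ) ≤ a := by exact_mod_cast ha1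
    linarith
  have hbN : (b : ℝ) ≤ Real.exp 3 * N := by
    rw [hb]
    exact Nat.floor_le (by positivity)
  have hb1 : 1 ≤ b := ha1.trans hab
  have hkn : knr N τ = ∑ n ∈ Ioc 0 a, ((Wt (Real.log n - Real.log N) / n : ℝ) : ℂ) *
        chr τ (Real.log n) + ∑ n ∈ Ioc a b, ((Wt (Real.log n - Real.log N) / n : ℝ) : ℂ) *
        chr τ (Real.log n) := by
    rw [Finset.sum_Ioc_consecutive _ (Nat.zero_le _) hab, hb]
    rfl
  rw [hkn]
  refine (norm_add_le _ _).trans ?_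
  rw [add_mul]
  refine add_le_add ?_ ?_
  · -- the short initial piece
    have h1 : ‖∑ n ∈ Ioc 0 a, ((Wt (Real.log n - Real.log N) / n : ℝ) : ℂ) *
        chr τ (Real.log n)‖ ≤ Real.exp 3 / N := by
      by_cases h : 1 ≤ ⌊N * Real.exp (-3)⌋₊
      · have h2 : ∀ n ∈ Ioc 0 a, ((Wt (Real.log n - Real.log N) / n : ℝ) : ℂ) *
            chr τ (Real.log n) = 0 := by
          intro n hn
          rw [Finset.mem_Ioc] at hn
          have h3 : (n : ℝ) ≤ N * Real.exp (-3) := by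
            have h4 : n ≤ ⌊N * Real.exp (-3)⌋₊ := by
              rw [ha, max_eq_right h] at hn
              exact hn.2
            exact (Nat.le_floor_iff (by positivity)).1 h4
          have hn0 : (0 : ℝ) < n := by exact_mod_cast hn.1
          have h5 : Real.log n ≤ Real.log N + -3 := by
            have h6 := Real.log_le_log hn0 h3
            rwa [Real.log_mul hN0.ne' (Real.exp_pos _).ne', Real.log_exp] at h6
          rw [Wt_zero (by rw [le_abs]; right; linarith)]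
          simp
        rw [Finset.sum_eq_zero h2, norm_zero]
        positivity
      · have h2 : a = 1 := by rw [ha, max_eq_left (by omega)]
        rw [h2]
        have h3 : Ioc 0 1 = {1} := by decide
        rw [h3, Finset.sum_singleton, norm_mul, norm_chr, mul_one, Complex.norm_real,
          Real.norm_eq_abs, abs_of_nonneg (div_nonneg (Wt_nonneg _) (Nat.cast_nonneg _))]
        exact term_bd hN le_rfl
    refine h1.trans ?_
    rw [mul_div_assoc', div_le_div_iff_of_pos_right hN0]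
    have h4 : 1 ≤ √|τ| * (1 + Real.log N) := by nlinarith
    nlinarith
  · have hblock : ∀ M M' : ℕ, a ≤ M → M ≤ M' → M' ≤ 2 * M → M' ≤ b →
        ‖∑ n ∈ Ioc M M', chr τ (Real.log n)‖ ≤
          4 * CD * (1 + Real.exp 6) * (√|τ| * (1 + Real.log N)) := by
      intro M M' h1 h2 h3 h4
      have hM1 : 1 ≤ M := ha1.trans h1
      have h5 := hD M M' τ 0 hM1 h2 h3 hτ1
      have h6 : ∑ n ∈ Ioc M M', chr τ (Real.log n) = ∑ n ∈ Finset.Ioc M M',
          Pool.Agent.H469R2.NK.e (0 * n) * Pool.Agent.Q236.CR.nt τ n := by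
        refine Finset.sum_congr rfl fun n hn => ?_
        rw [chr_eq_nt τ (hM1.trans (Finset.mem_Ioc.1 hn).1.le)]
        unfold Pool.Agent.H469R2.NK.e
        simp
      rw [h6]
      refine h5.trans ?_
      have hMb : (M : ℝ) ≤ Real.exp 3 * N := le_trans (by exact_mod_cast h2.trans h4) hbN
      have h7 : (M : ℝ) ≤ Real.exp 6 * |τ| := by
        have h8 : Real.exp 6 = Real.exp 3 * Real.exp 3 := by
          rw [← Real.exp_add]
          norm_num
        have h9 : N ≤ Real.exp 3 * |τ| := by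
          have h10 := mul_le_mul_of_nonneg_left hτN.le hE3.le
          calc N = Real.exp 3 * (N * Real.exp (-3)) := by
                rw [mul_left_comm, hE, mul_one]
            _ ≤ _ := h10
        rw [h8, mul_assoc]
        exact hMb.trans (mul_le_mul_of_nonneg_left h9 hE3.le)
      have h11 : (M : ℝ) / √|τ| ≤ Real.exp 6 * √|τ| := by
        rw [div_le_iff₀ hsq0, mul_assoc, Real.mul_self_sqrt (abs_nonneg _)]
        exact h7
      have hM0 : (0 : ℝ) < M := by exact_mod_cast hM1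
      have h12 : 1 + Real.log M ≤ 4 * (1 + Real.log N) := by
        have h13 := Real.log_le_log hM0 hMb
        rw [Real.log_mul hE3.ne' hN0.ne', Real.log_exp] at h13
        linarith
      have h14 : √|τ| + M / √|τ| ≤ (1 + Real.exp 6) * √|τ| := by linarith
      have h15 : 0 ≤ 1 + Real.log (M : ℝ) := by
        have := Real.log_nonneg (show (1 : ℝ) ≤ M by exact_mod_cast hM1)
        linarith
      calc CD * (√|τ| + M / √|τ|) * (1 + Real.log M) ≤
          CD * ((1 + Real.exp 6) * √|τ|) * (4 * (1 + Real.log N)) := by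
            refine mul_le_mul (mul_le_mul_of_nonneg_left h14 (by linarith)) h12 h15 ?_
            positivity
        _ = 4 * CD * (1 + Real.exp 6) * (√|τ| * (1 + Real.log N)) := by ring
    have hB0 : 0 ≤ 4 * CD * (1 + Real.exp 6) * (√|τ| * (1 + Real.log N)) := by positivity
    have hba : b ≤ 2 ^ 10 * a := by
      have h1 : (b : ℝ) ≤ ((2 ^ 10 * a : ℕ) : ℝ) := by
        push_cast
        have h8 : Real.exp 6 = Real.exp 3 * Real.exp 3 := by
          rw [← Real.exp_add]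
          norm_num
        have h9 : Real.exp 3 * N = Real.exp 6 * (N * Real.exp (-3)) := by
          rw [h8]
          calc Real.exp 3 * N = Real.exp 3 * N * (Real.exp 3 * Real.exp (-3)) := by rw [hE, mul_one]
            _ = _ := by ring
        have h10 : 0 ≤ N * Real.exp (-3) := by positivity
        calc (b : ℝ) ≤ Real.exp 3 * N := hbN
          _ = Real.exp 6 * (N * Real.exp (-3)) := h9
          _ ≤ 512 * (N * Real.exp (-3)) := mul_le_mul_of_nonneg_right exp_six h10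
          _ ≤ 1024 * a := by linarith
      exact_mod_cast h1
    have hpart : ∀ m, a ≤ m → m ≤ b → ‖∑ n ∈ Ioc a m, chr τ (Real.log n)‖ ≤
        10 * (4 * CD * (1 + Real.exp 6) * (√|τ| * (1 + Real.log N))) := by
      intro m h1 h2
      have h3 := dyadic (fun n : ℕ => chr τ (Real.log n)) ha1 hB0 10 m h1 (h2.trans hba)
        fun M M' e1 e2 e3 e4 => hblock M M' e1 e2 e3 (e4.trans h2)
      exact_mod_cast h3
    have h1 := abel_bd (fun n : ℕ => Wt (Real.log n - Real.log N) / n)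
      (fun n : ℕ => chr τ (Real.log n)) hab hpart
    refine h1.trans ?_
    have h2 := var_bd (Real.log N) ha1 hab
    have h3 : 2 / (a : ℝ) ≤ 4 * (Real.exp 3 / N) := by
      have ha0 : (0 : ℝ) < a := by exact_mod_cast ha1
      rw [mul_div_assoc', div_le_div_iff₀ ha0 hN0]
      have h4 : N = Real.exp 3 * (N * Real.exp (-3)) := by
        rw [mul_left_comm, hE, mul_one]
      have h5 := mul_le_mul_of_nonneg_left ha2 hE3.le
      rw [← h4] at h5
      linarith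
    have h4 : |Wt (Real.log (b : ℝ) - Real.log N) / (b : ℝ)| ≤ Real.exp 3 / N := by
      rw [abs_of_nonneg (div_nonneg (Wt_nonneg _) (Nat.cast_nonneg _))]
      exact term_bd hN hb1
    have h5 : |Wt (Real.log (b : ℝ) - Real.log N) / (b : ℝ)| +
        ∑ n ∈ Ico a b, |Wt (Real.log ((n + 1 : ℕ) : ℝ) - Real.log N) / ((n + 1 : ℕ) : ℝ) -
          Wt (Real.log n - Real.log N) / n| ≤ 5 * (Real.exp 3 / N) := by linarith
    refine (mul_le_mul_of_nonneg_left h5 (by positivity)).trans (le_of_eq ?_)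
    field_simp
    ring

theorem kerr : ∃ C : ℝ, 1 ≤ C ∧ ∀ N : ℝ, 1 ≤ N → ‖knr N 0‖ ≤ C ∧ ∀ τ : ℝ, 1 ≤ |τ| →
    ‖knr N τ‖ ≤ C * (1 / τ ^ 2 + |τ| ^ (1 / 2 : ℝ) * (1 + Real.log N) / N) := by
  have hS := Pool.Agent.Q14.KS.smo
  obtain ⟨CS, hCS, hS⟩ := hS
  obtain ⟨CD, hCD, hD⟩ := Pool.Agent.Q53.CR.sdb
  refine ⟨Real.exp 6 + (5 * (CS * (1 + Real.exp 4))) +
    (Real.exp 3 + 200 * CD * (1 + Real.exp 6) * Real.exp 3), ?_, ?_⟩
  · have h1 : (1 : ℝ) ≤ Real.exp 6 := Real.one_le_exp (by norm_num)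
    have h2 : 0 ≤ 5 * (CS * (1 + Real.exp 4)) := by positivity
    have h3 : 0 ≤ Real.exp 3 + 200 * CD * (1 + Real.exp 6) * Real.exp 3 := by positivity
    linarith
  intro N hN
  have hN0 : 0 < N := by linarith
  have hlogN : 0 ≤ Real.log N := Real.log_nonneg hN
  have h1 : 0 ≤ Real.exp 6 := (Real.exp_pos _).le
  have h2 : 0 ≤ 5 * (CS * (1 + Real.exp 4)) := by positivity
  have h3 : 0 ≤ Real.exp 3 + 200 * CD * (1 + Real.exp 6) * Real.exp 3 := by positivity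
  refine ⟨(kerr_zero hN).trans (by linarith), fun τ hτ => ?_⟩
  have hτ0 : τ ≠ 0 := abs_pos.1 (by linarith)
  have h4 : 0 ≤ 1 / τ ^ 2 := by positivity
  have h5 : 0 ≤ |τ| ^ (1 / 2 : ℝ) * (1 + Real.log N) / N := by positivity
  by_cases h : |τ| ≤ N * Real.exp (-3)
  · refine (kerr_small hS hN hτ h hCS).trans ?_
    refine mul_le_mul (by linarith) (by linarith) h4 (by linarith)
  · push Not at h
    refine (kerr_large hCD hD hN hτ h).trans ?_
    rw [Real.sqrt_eq_rpow]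
    refine mul_le_mul (by linarith) (by linarith) h5 (by linarith)


theorem chr_mul_conj (k l : ℝ) (x : ℝ) : chr k x * (starRingEnd ℂ) (chr l x) = chr (k - l) x := by
  unfold chr
  rw [← Complex.exp_conj, ← Complex.exp_add]
  congr 1
  have e : ∀ y : ℝ, (starRingEnd ℂ) (-(y : ℂ) * Complex.I) = (y : ℂ) * Complex.I := by
    intro y
    rw [map_mul, map_neg, Complex.conj_ofReal, Complex.conj_I]
    ring
  rw [e]
  push_cast
  ring

theorem chr_conj (k : ℝ) (x : ℝ) : (starRingEnd ℂ) (chr k x) = chr (-k) x := by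
  unfold chr
  rw [← Complex.exp_conj]
  congr 1
  have e : ∀ y : ℝ, (starRingEnd ℂ) (-(y : ℂ) * Complex.I) = (y : ℂ) * Complex.I := by
    intro y
    rw [map_mul, map_neg, Complex.conj_ofReal, Complex.conj_I]
    ring
  rw [e]
  push_cast
  ring

theorem knr_neg (N : ℝ) (τ : ℝ) : ‖knr N (-τ)‖ = ‖knr N τ‖ := by
  have h : knr N (-τ) = (starRingEnd ℂ) (knr N τ) := by
    unfold knr
    rw [map_sum]
    refine Finset.sum_congr rfl fun n _ => ?_
    rw [map_mul, Complex.conj_ofReal, chr_conj]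
  rw [h, RCLike.norm_conj]

theorem hmgr (s : Finset ℕ) (a : ℕ → ℂ) (N B : ℝ) (L : Finset ℝ) (hN : 1 ≤ N) (hB : 0 ≤ B)
    (hs : ∀ n ∈ s, 1 ≤ n ∧ |Real.log n - Real.log N| ≤ 2)
    (hL : ∀ k ∈ L, ∑ l ∈ L, ‖knr N (k - l)‖ ≤ B) :
    ∑ k ∈ L, ‖DPr s a k‖ ^ 2 ≤ B * ∑ n ∈ s, (n : ℝ) * ‖a n‖ ^ 2 := by
  obtain ⟨M, hM⟩ : ∃ M : Finset ℕ, M = Icc 1 ⌊Real.exp 3 * N⌋₊ := ⟨_, rfl⟩
  obtain ⟨P, hP⟩ : ∃ P : ℝ → ℂ, P = fun k => DPr s a k := ⟨_, rfl⟩
  obtain ⟨T, hT⟩ : ∃ T : ℝ, T = ∑ k ∈ L, ‖P k‖ ^ 2 := ⟨_, rfl⟩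
  obtain ⟨Bn, hBn⟩ : ∃ Bn : ℕ → ℂ, Bn = fun n : ℕ => ∑ k ∈ L, (starRingEnd ℂ) (P k) *
      chr k (Real.log (n : ℝ)) := ⟨_, rfl⟩
  have hT0 : 0 ≤ T := by rw [hT]; positivity
  have hG0 : 0 ≤ ∑ n ∈ s, (n : ℝ) * ‖a n‖ ^ 2 := by positivity
  change ∑ k ∈ L, ‖DPr s a k‖ ^ 2 ≤ _
  have hTe : ∑ k ∈ L, ‖DPr s a k‖ ^ 2 = T := by rw [hT, hP]
  rw [hTe]
  -- first step
  have h1 : (T : ℂ) = ∑ n ∈ s, a n * Bn n := by
    have e1 : (T : ℂ) = ∑ k ∈ L, (starRingEnd ℂ) (P k) * P k := by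
      rw [hT]
      push_cast
      refine Finset.sum_congr rfl fun k _ => ?_
      rw [mul_comm, Complex.mul_conj, Complex.normSq_eq_norm_sq]
      push_cast
      rfl
    rw [e1, hBn]
    simp only [Finset.mul_sum]
    rw [Finset.sum_comm]
    refine Finset.sum_congr rfl fun k _ => ?_
    rw [hP]
    simp only [DPr, Finset.mul_sum]
    refine Finset.sum_congr rfl fun n _ => ?_
    ring
  have hn0 : ∀ n ∈ s, (0 : ℝ) < n := fun n hn => by exact_mod_cast (hs n hn).1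
  have h2 : T ^ 2 ≤ (∑ n ∈ s, (n : ℝ) * ‖a n‖ ^ 2) * ∑ n ∈ s, ‖Bn n‖ ^ 2 / n := by
    have e1 : T ≤ ∑ n ∈ s, (√n * ‖a n‖) * (‖Bn n‖ / √n) := by
      have e2 : T = ‖(T : ℂ)‖ := by rw [Complex.norm_real, Real.norm_eq_abs, abs_of_nonneg hT0]
      rw [e2, h1]
      refine (norm_sum_le _ _).trans (Finset.sum_le_sum fun n hn => ?_)
      have := Real.sqrt_pos.2 (hn0 n hn)
      rw [norm_mul]
      apply le_of_eq
      field_simp
    have e3 := Finset.sum_mul_sq_le_sq_mul_sq s (fun n => √n * ‖a n‖) (fun n => ‖Bn n‖ / √n)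
    have e4 : T ^ 2 ≤ (∑ n ∈ s, (√n * ‖a n‖) * (‖Bn n‖ / √n)) ^ 2 :=
      pow_le_pow_left₀ hT0 e1 2
    refine e4.trans (e3.trans (le_of_eq ?_))
    congr 1
    · refine Finset.sum_congr rfl fun n _ => ?_
      rw [mul_pow, Real.sq_sqrt (Nat.cast_nonneg _)]
    · refine Finset.sum_congr rfl fun n _ => ?_
      rw [div_pow, Real.sq_sqrt (Nat.cast_nonneg _)]
  have hWt0 : ∀ x, 0 ≤ Wt x := fun x => le_max_left _ _
  have hWt1 : ∀ x, |x| ≤ 2 → Wt x = 1 := by
    intro x hx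
    unfold Wt
    rw [min_eq_left (by linarith), max_eq_right (by norm_num)]
  have hsM : s ⊆ M := by
    intro n hn
    obtain ⟨h3, h4⟩ := hs n hn
    rw [hM, Finset.mem_Icc]
    refine ⟨h3, Nat.le_floor ?_⟩
    have h5 : Real.log n ≤ 3 + Real.log N := by linarith [(abs_le.1 h4).2]
    have h6 : (n : ℝ) = Real.exp (Real.log n) := (Real.exp_log (hn0 n hn)).symm
    rw [h6]
    calc Real.exp (Real.log n) ≤ Real.exp (3 + Real.log N) := Real.exp_le_exp.2 h5
      _ = Real.exp 3 * N := by rw [Real.exp_add, Real.exp_log (by linarith)]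
  have h3 : ∑ n ∈ s, ‖Bn n‖ ^ 2 / n ≤ ∑ n ∈ M, Wt (Real.log n - Real.log N) / n * ‖Bn n‖ ^ 2 := by
    have e1 : ∑ n ∈ s, ‖Bn n‖ ^ 2 / n = ∑ n ∈ s, Wt (Real.log n - Real.log N) / n * ‖Bn n‖ ^ 2 := by
      refine Finset.sum_congr rfl fun n hn => ?_
      rw [hWt1 _ (hs n hn).2]
      ring
    rw [e1]
    refine Finset.sum_le_sum_of_subset_of_nonneg hsM fun n _ _ => ?_
    exact mul_nonneg (div_nonneg (hWt0 _) (Nat.cast_nonneg _)) (by positivity)
  -- the double sum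
  have h4 : ∑ n ∈ M, Wt (Real.log n - Real.log N) / n * ‖Bn n‖ ^ 2 ≤ B * T := by
    have e1 : ((∑ n ∈ M, Wt (Real.log n - Real.log N) / n * ‖Bn n‖ ^ 2 : ℝ) : ℂ) =
        ∑ k ∈ L, ∑ l ∈ L, (starRingEnd ℂ) (P k) * P l * knr N (k - l) := by
      have e2 : ∀ n, ((‖Bn n‖ ^ 2 : ℝ) : ℂ) =
          ∑ k ∈ L, ∑ l ∈ L, (starRingEnd ℂ) (P k) * P l * chr (k - l) (Real.log n) := by
        intro n
        have e3 : ((‖Bn n‖ ^ 2 : ℝ) : ℂ) = Bn n * (starRingEnd ℂ) (Bn n) := by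
          rw [Complex.mul_conj, Complex.normSq_eq_norm_sq]
        rw [e3, hBn]
        simp only [map_sum, Finset.sum_mul, Finset.mul_sum]
        rw [Finset.sum_comm]
        refine Finset.sum_congr rfl fun k _ => Finset.sum_congr rfl fun l _ => ?_
        rw [map_mul, Complex.conj_conj, ← chr_mul_conj]
        ring
      push_cast
      have e4 : ∀ n ∈ M, ((Wt (Real.log n - Real.log N) : ℝ) : ℂ) / n * (‖Bn n‖ : ℂ) ^ 2 =
          ∑ k ∈ L, ∑ l ∈ L, (starRingEnd ℂ) (P k) * P l *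
            (((Wt (Real.log n - Real.log N) / n : ℝ) : ℂ) * chr (k - l) (Real.log n)) := by
        intro n _
        have e5 := e2 n
        push_cast at e5
        rw [e5]
        simp only [Finset.mul_sum]
        refine Finset.sum_congr rfl fun k _ => Finset.sum_congr rfl fun l _ => ?_
        push_cast
        ring
      rw [Finset.sum_congr rfl e4, Finset.sum_comm]
      refine Finset.sum_congr rfl fun k _ => ?_
      rw [Finset.sum_comm]
      refine Finset.sum_congr rfl fun l _ => ?_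
      rw [← Finset.mul_sum]
      unfold knr
      rw [hM]
    have e6 : ∑ n ∈ M, Wt (Real.log n - Real.log N) / n * ‖Bn n‖ ^ 2 ≤
        ∑ k ∈ L, ∑ l ∈ L, (‖P k‖ ^ 2 + ‖P l‖ ^ 2) / 2 * ‖knr N (k - l)‖ := by
      refine (le_abs_self _).trans ?_
      rw [← Real.norm_eq_abs, ← Complex.norm_real, e1]
      refine (norm_sum_le _ _).trans (Finset.sum_le_sum fun k _ => ?_)
      refine (norm_sum_le _ _).trans (Finset.sum_le_sum fun l _ => ?_)
      rw [norm_mul, norm_mul, RCLike.norm_conj]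
      refine mul_le_mul_of_nonneg_right ?_ (norm_nonneg _)
      nlinarith [sq_nonneg (‖P k‖ - ‖P l‖)]
    refine e6.trans ?_
    have e7 : ∑ k ∈ L, ∑ l ∈ L, (‖P k‖ ^ 2 + ‖P l‖ ^ 2) / 2 * ‖knr N (k - l)‖ =
        ∑ k ∈ L, ‖P k‖ ^ 2 * ∑ l ∈ L, ‖knr N (k - l)‖ := by
      have e8 : ∀ k l, (‖P k‖ ^ 2 + ‖P l‖ ^ 2) / 2 * ‖knr N (k - l)‖ =
          ‖P k‖ ^ 2 / 2 * ‖knr N (k - l)‖ + ‖P l‖ ^ 2 / 2 * ‖knr N (l - k)‖ := by
        intro k l
        have : ‖knr N (l - k)‖ = ‖knr N (k - l)‖ := by rw [← knr_neg, neg_sub]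
        rw [this]
        ring
      simp only [e8, Finset.sum_add_distrib]
      rw [Finset.sum_comm (f := fun k l => ‖P l‖ ^ 2 / 2 * ‖knr N (l - k)‖)]
      rw [← Finset.sum_add_distrib]
      refine Finset.sum_congr rfl fun k _ => ?_
      rw [← Finset.mul_sum]
      ring
    rw [e7, hT, Finset.mul_sum]
    refine Finset.sum_le_sum fun k hk => ?_
    rw [mul_comm]
    exact mul_le_mul_of_nonneg_right (hL k hk) (by positivity)
  have h5 : T ^ 2 ≤ (∑ n ∈ s, (n : ℝ) * ‖a n‖ ^ 2) * (B * T) :=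
    h2.trans (mul_le_mul_of_nonneg_left (h3.trans h4) hG0)
  rcases eq_or_lt_of_le hT0 with h6 | h6
  · rw [← h6]
    positivity
  · nlinarith


/-- sums over 1-separated points -/
theorem inv_sq_sep (L : Finset ℝ) (k : ℝ) (hk : ∀ l ∈ L, l ≠ k → 1 ≤ |k - l|)
    (hsep : ∀ l ∈ L, ∀ l' ∈ L, l ≠ l' → 1 ≤ |l - l'|) :
    ∑ l ∈ L.erase k, 1 / (k - l) ^ 2 ≤ 4 := by
  classical
  let f : ℝ → ℤ := fun l => if k < l then ⌊l - k⌋ else -⌊k - l⌋
  have hf : ∀ l ∈ L.erase k, f l ≠ 0 ∧ ((f l : ℝ)) ^ 2 ≤ (k - l) ^ 2 := by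
    intro l hl
    obtain ⟨h1, h2⟩ := Finset.mem_erase.1 hl
    have h3 := hk l h2 h1
    simp only [f]
    split_ifs with h
    · rw [abs_of_neg (by linarith)] at h3
      have h4 : (1 : ℤ) ≤ ⌊l - k⌋ := Int.le_floor.2 (by push_cast; linarith)
      refine ⟨by omega, ?_⟩
      have h5 : (1 : ℝ) ≤ ⌊l - k⌋ := by exact_mod_cast h4
      have h6 := Int.floor_le (l - k)
      nlinarith
    · have h7 : l < k := lt_of_le_of_ne (not_lt.1 h) h1
      rw [abs_of_pos (by linarith)] at h3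
      have h4 : (1 : ℤ) ≤ ⌊k - l⌋ := Int.le_floor.2 (by push_cast; linarith)
      refine ⟨by omega, ?_⟩
      have h5 : (1 : ℝ) ≤ ⌊k - l⌋ := by exact_mod_cast h4
      have h6 := Int.floor_le (k - l)
      push_cast
      nlinarith
  have hinj : Set.InjOn f (L.erase k : Set ℝ) := by
    intro l hl l' hl' hll
    rw [Finset.mem_coe] at hl hl'
    obtain ⟨h1, h2⟩ := Finset.mem_erase.1 hl
    obtain ⟨h1', h2'⟩ := Finset.mem_erase.1 hl'
    have h3 := hk l h2 h1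
    have h3' := hk l' h2' h1'
    by_contra hne
    have h4 := hsep l h2 l' h2' hne
    simp only [f] at hll
    split_ifs at hll with h h' h'
    · have a1 := Int.floor_le (l - k)
      have a2 := Int.lt_floor_add_one (l - k)
      have a3 := Int.floor_le (l' - k)
      have a4 := Int.lt_floor_add_one (l' - k)
      rw [hll] at a1 a2
      have : |l - l'| < 1 := by rw [abs_lt]; constructor <;> linarith
      linarith
    · have h7 : l' < k := lt_of_le_of_ne (not_lt.1 h') h1'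
      rw [abs_of_neg (by linarith)] at h3
      rw [abs_of_pos (by linarith)] at h3'
      have a1 : (1 : ℤ) ≤ ⌊l - k⌋ := Int.le_floor.2 (by push_cast; linarith)
      have a2 : (1 : ℤ) ≤ ⌊k - l'⌋ := Int.le_floor.2 (by push_cast; linarith)
      omega
    · have h7 : l < k := lt_of_le_of_ne (not_lt.1 h) h1
      rw [abs_of_pos (by linarith)] at h3
      rw [abs_of_neg (by linarith)] at h3'
      have a1 : (1 : ℤ) ≤ ⌊k - l⌋ := Int.le_floor.2 (by push_cast; linarith)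
      have a2 : (1 : ℤ) ≤ ⌊l' - k⌋ := Int.le_floor.2 (by push_cast; linarith)
      omega
    · have hll' : ⌊k - l⌋ = ⌊k - l'⌋ := by omega
      have a1 := Int.floor_le (k - l)
      have a2 := Int.lt_floor_add_one (k - l)
      have a3 := Int.floor_le (k - l')
      have a4 := Int.lt_floor_add_one (k - l')
      rw [hll'] at a1 a2
      have : |l - l'| < 1 := by rw [abs_lt]; constructor <;> linarith
      linarith
  have h1 := inv_sq_le ((L.erase k).image f) (by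
    intro τ hτ
    obtain ⟨l, hl, rfl⟩ := Finset.mem_image.1 hτ
    exact (hf l hl).1)
  rw [Finset.sum_image hinj] at h1
  refine le_trans (Finset.sum_le_sum fun l hl => ?_) h1
  obtain ⟨h2, h3⟩ := hf l hl
  have h4 : (0 : ℝ) < ((f l : ℝ)) ^ 2 := by
    have : (f l : ℝ) ≠ 0 := by exact_mod_cast h2
    positivity
  exact one_div_le_one_div_of_le h4 h3

/-- Huxley's large value theorem at 1-separated real points -/
theorem hur : ∃ C : ℝ, 1 ≤ C ∧ ∀ (s : Finset ℕ) (a : ℕ → ℂ) (N x Λ V : ℝ) (L : Finset ℝ), 1 ≤ N →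
    (∀ n ∈ s, 1 ≤ n ∧ |Real.log n - Real.log N| ≤ 2) → 0 ≤ Λ → 0 < V →
    (∀ k ∈ L, x ≤ k ∧ k ≤ x + Λ ∧ V ≤ ‖DPr s a k‖) →
    (∀ k ∈ L, ∀ l ∈ L, k ≠ l → 1 ≤ |k - l|) →
    (L.card : ℝ) ≤ C * (1 + Real.log N) ^ 2 * ((∑ n ∈ s, (n : ℝ) * ‖a n‖ ^ 2) / V ^ 2 +
      Λ * (∑ n ∈ s, (n : ℝ) * ‖a n‖ ^ 2) ^ 3 / (N ^ 2 * V ^ 6)) := by
  classical
  obtain ⟨C₁, hC₁, hker⟩ := kerr
  refine ⟨224 * C₁ ^ 3, by nlinarith [pow_le_pow_left₀ (by norm_num) hC₁ 3], ?_⟩
  intro s a N x Λ V L hN hs hΛ hV hL hsep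
  obtain ⟨G, hG⟩ : ∃ G : ℝ, G = ∑ n ∈ s, (n : ℝ) * ‖a n‖ ^ 2 := ⟨_, rfl⟩
  rw [← hG]
  have hG0 : 0 ≤ G := by rw [hG]; positivity
  obtain ⟨ell, hell⟩ : ∃ ell : ℝ, ell = 1 + Real.log N := ⟨_, rfl⟩
  have hell1 : 1 ≤ ell := by rw [hell]; linarith [Real.log_nonneg hN]
  rw [← hell]
  rcases L.eq_empty_or_nonempty with rfl | ⟨k0, hk0⟩
  · simp only [Finset.card_empty, Nat.cast_zero]
    positivity
  have hGpos : 0 < G := by
    have h1 := hmgr s a N C₁ {k0} hN (by linarith) hs (by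
      intro k hk
      rw [Finset.sum_singleton, Finset.mem_singleton.1 hk, sub_self]
      exact (hker N hN).1)
    rw [Finset.sum_singleton, ← hG] at h1
    have h2 : V ^ 2 ≤ ‖DPr s a k0‖ ^ 2 := pow_le_pow_left₀ hV.le (hL k0 hk0).2.2 2
    by_contra h3
    have h4 : G = 0 := le_antisymm (not_lt.1 h3) hG0
    rw [h4, mul_zero] at h1
    have : 0 < V ^ 2 := by positivity
    linarith
  have hN0 : 0 < N := by linarith
  have hC0 : 0 < C₁ := by linarith
  have hell0 : 0 < ell := by linarith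
  obtain ⟨q, hq⟩ : ∃ q : ℝ, q = V ^ 2 * N / (4 * C₁ * G * ell) := ⟨_, rfl⟩
  have hq0 : 0 < q := by rw [hq]; positivity
  -- a class
  have hclass : ∀ L' : Finset ℝ, L' ⊆ L → (∀ k ∈ L', ∀ l ∈ L', |k - l| ≤ q ^ 2) →
      (L'.card : ℝ) ≤ 7 * C₁ * G / V ^ 2 := by
    intro L' hL' hd
    have h1 := hmgr s a N (5 * C₁ + L'.card * (C₁ * q * ell / N)) L' hN (by positivity) hs (by
      intro k hk
      rw [← Finset.add_sum_erase L' _ hk, sub_self]
      have h2 : ∑ l ∈ L'.erase k, ‖knr N (k - l)‖ ≤ ∑ l ∈ L'.erase k,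
          (C₁ * (1 / (k - l) ^ 2) + C₁ * q * ell / N) := by
        refine Finset.sum_le_sum fun l hl => ?_
        obtain ⟨h3, h4⟩ := Finset.mem_erase.1 hl
        have h5 := (hker N hN).2 (k - l) (hsep k (hL' hk) l (hL' h4) h3.symm)
        refine h5.trans ?_
        rw [mul_add]
        refine add_le_add le_rfl ?_
        have h6 : |k - l| ^ (1 / 2 : ℝ) ≤ q := by
          have h7 : |k - l| ^ (1 / 2 : ℝ) ≤ (q ^ 2) ^ (1 / 2 : ℝ) :=
            Real.rpow_le_rpow (abs_nonneg _) (hd k hk l h4) (by norm_num)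
          rwa [← Real.sqrt_eq_rpow, ← Real.sqrt_eq_rpow, Real.sqrt_sq hq0.le,
            Real.sqrt_eq_rpow] at h7
        rw [← hell]
        have h8 : C₁ * (|k - l| ^ (1 / 2 : ℝ) * ell / N) ≤ C₁ * (q * ell / N) := by
          refine mul_le_mul_of_nonneg_left ?_ hC0.le
          exact div_le_div_of_nonneg_right (mul_le_mul_of_nonneg_right h6 hell0.le) hN0.le
        refine h8.trans (le_of_eq ?_)
        ring
      have h9 : ∑ l ∈ L'.erase k, (1 / (k - l) ^ 2) ≤ 4 :=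
        inv_sq_sep L' k (fun l hl hlk => hsep k (hL' hk) l (hL' hl) hlk.symm)
          (fun l hl l' hl' h => hsep l (hL' hl) l' (hL' hl') h)
      have h11 : ∑ l ∈ L'.erase k, (C₁ * (1 / (k - l) ^ 2) + C₁ * q * ell / N) =
          C₁ * ∑ l ∈ L'.erase k, (1 / (k - l) ^ 2) +
            (L'.erase k).card * (C₁ * q * ell / N) := by
        rw [Finset.sum_add_distrib, ← Finset.mul_sum, Finset.sum_const, nsmul_eq_mul]
      have h12 : ((L'.erase k).card : ℝ) ≤ L'.card := by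
        exact_mod_cast Finset.card_le_card (Finset.erase_subset _ _)
      have h13 : 0 ≤ C₁ * q * ell / N := by positivity
      have h14 := mul_le_mul_of_nonneg_right h12 h13
      have h15 := mul_le_mul_of_nonneg_left h9 hC0.le
      have h16 := (hker N hN).1
      linarith)
    rw [← hG] at h1
    have h2 : (L'.card : ℝ) * V ^ 2 ≤ ∑ k ∈ L', ‖DPr s a k‖ ^ 2 := by
      rw [← nsmul_eq_mul, ← Finset.sum_const]
      exact Finset.sum_le_sum fun k hk => pow_le_pow_left₀ hV.le (hL k (hL' hk)).2.2 2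
    have h3 : C₁ * q * ell / N * G = V ^ 2 / 4 := by
      rw [hq]
      field_simp
    rw [le_div_iff₀ (by positivity)]
    have h4 : (5 * C₁ + L'.card * (C₁ * q * ell / N)) * G =
        5 * C₁ * G + L'.card * (V ^ 2 / 4) := by
      rw [← h3]
      ring
    rw [h4] at h1
    have h5 : 0 ≤ (L'.card : ℝ) * V ^ 2 := by positivity
    have h6 : 0 ≤ C₁ * G := by positivity
    linarith
  -- the classes
  have hq2 : 0 < q ^ 2 := by positivity
  have hmaps : ∀ k ∈ L, ⌊(k - x) / q ^ 2⌋₊ ∈ Finset.range (⌊Λ / q ^ 2⌋₊ + 1) := by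
    intro k hk
    obtain ⟨h1, h2, -⟩ := hL k hk
    rw [Finset.mem_range, Nat.lt_succ_iff]
    apply Nat.floor_le_floor
    exact div_le_div_of_nonneg_right (by linarith) hq2.le
  have hcard := Finset.card_eq_sum_card_fiberwise hmaps
  have h1 : (L.card : ℝ) ≤ ((⌊Λ / q ^ 2⌋₊ + 1 : ℕ) : ℝ) * (7 * C₁ * G / V ^ 2) := by
    rw [hcard]
    push_cast
    refine (Finset.sum_le_sum fun j _ => hclass _ (Finset.filter_subset _ _) ?_).trans ?_
    · intro k hk l hl
      have hk' := Finset.mem_filter.1 hk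
      have hl' := Finset.mem_filter.1 hl
      have e1 := hk'.2
      have e2 := hl'.2
      have f1 : 0 ≤ (k - x) / q ^ 2 := div_nonneg (by linarith [(hL k hk'.1).1]) hq2.le
      have f2 : 0 ≤ (l - x) / q ^ 2 := div_nonneg (by linarith [(hL l hl'.1).1]) hq2.le
      have e3 := Nat.floor_le f1
      have e4 := Nat.lt_floor_add_one ((k - x) / q ^ 2)
      have e5 := Nat.floor_le f2
      have e6 := Nat.lt_floor_add_one ((l - x) / q ^ 2)
      rw [e1] at e3 e4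
      rw [e2] at e5 e6
      rw [le_div_iff₀ hq2] at e3 e5
      rw [div_lt_iff₀ hq2] at e4 e6
      rw [abs_le]
      constructor <;> nlinarith
    · rw [Finset.sum_const, Finset.card_range, nsmul_eq_mul]
      push_cast
      exact le_rfl
  have h2 : ((⌊Λ / q ^ 2⌋₊ + 1 : ℕ) : ℝ) ≤ 2 * Λ / q ^ 2 + 2 := by
    push_cast
    have e4 := Nat.floor_le (show 0 ≤ Λ / q ^ 2 by positivity)
    have e7 : 2 * Λ / q ^ 2 = 2 * (Λ / q ^ 2) := mul_div_assoc _ _ _
    have e8 : 0 ≤ Λ / q ^ 2 := by positivity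
    rw [e7]
    linarith
  have hD : 0 ≤ 7 * C₁ * G / V ^ 2 := by positivity
  refine h1.trans ((mul_le_mul_of_nonneg_right h2 hD).trans ?_)
  have h3 : (2 * Λ / q ^ 2 + 2) * (7 * C₁ * G / V ^ 2) = 14 * C₁ * (G / V ^ 2) +
      224 * C₁ ^ 3 * ell ^ 2 * (Λ * G ^ 3 / (N ^ 2 * V ^ 6)) := by
    rw [hq]
    field_simp
    ring
  rw [h3, mul_add]
  refine add_le_add ?_ le_rfl
  refine mul_le_mul_of_nonneg_right ?_ (by positivity)
  have h4 : 1 ≤ ell ^ 2 := one_le_pow₀ hell1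
  have h5 : C₁ ≤ C₁ ^ 3 := by nlinarith [mul_nonneg hC0.le (by nlinarith : (0 : ℝ) ≤ C₁ ^ 2 - 1)]
  nlinarith [mul_le_mul h5 h4 (by norm_num) (by positivity)]

end Pool.Agent.K9h52.DX
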