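import Pool.Agent.K9h52.DX.LV
import Pool.Agent.K9h52.DX.HuR

/-!
Large values of powers of short Dirichlet polynomials by Huxley's theorem.
-/

open Complex MeasureTheory Set Filter Topology

namespace Pool.Agent.K9h52.DX

open DH31

lemma sum_dyadic_pieces (g : ℕ → ℂ) (Q : ℕ) (k : ℕ) :
    ∑ i ∈ Finset.range k, ∑ n ∈ Finset.Ico (2 ^ i * Q) (2 ^ (i + 1) * Q), g n =
      ∑ n ∈ Finset.Ico Q (2 ^ k * Q), g n := by
  induction k with
  | zero => simp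
  | succ k ih =>
    rw [Finset.sum_range_succ, ih]
    apply Finset.sum_Ico_consecutive
    · have : 1 ≤ 2 ^ k := Nat.one_le_two_pow
      nlinarith
    · rw [pow_succ]
      nlinarith [Nat.zero_le (2 ^ k * Q)]

lemma cpow_eq_chr {n : ℕ} (hn : 1 ≤ n) (t : ℝ) : (n : ℂ) ^ (-(t : ℂ) * I) = chr t (Real.log n) := by
  have h0 : (n : ℂ) ≠ 0 := by
    have : n ≠ 0 := by omega
    exact_mod_cast this
  unfold chr
  rw [Complex.cpow_def_of_ne_zero h0, ← Complex.natCast_log]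
  congr 1
  push_cast
  ring

lemma dp_pieces {f : ℕ → ℂ} {Q m Y : ℕ} (hQ : 1 ≤ Q) (hY : Y = 2 ^ m * Q)
    (hf : ∀ n, f n ≠ 0 → Q ≤ n ∧ n ≤ Y) (t : ℝ) :
    dp f Y t = ∑ i ∈ Finset.range (m + 1),
      DPr (Finset.Ico (2 ^ i * Q) (2 ^ (i + 1) * Q)) f t := by
  unfold DPr
  rw [sum_dyadic_pieces (fun n => f n * chr t (Real.log n))]
  unfold dp
  have h1 : ∀ n ∈ Finset.Icc 1 Y, f n * (n : ℂ) ^ (-(t : ℂ) * I) = f n * chr t (Real.log n) := by
    intro n hn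
    rw [cpow_eq_chr (Finset.mem_Icc.1 hn).1]
  rw [Finset.sum_congr rfl h1]
  have hsub : Finset.Icc Q Y ⊆ Finset.Icc 1 Y := Finset.Icc_subset_Icc hQ le_rfl
  have hsub2 : Finset.Icc Q Y ⊆ Finset.Ico Q (2 ^ (m + 1) * Q) := by
    intro n hn
    rw [Finset.mem_Icc] at hn
    rw [Finset.mem_Ico]
    refine ⟨hn.1, lt_of_le_of_lt hn.2 ?_⟩
    have h2 : 2 ^ (m + 1) * Q = 2 * (2 ^ m * Q) := by rw [pow_succ]; ring
    have : 0 < 2 ^ m * Q := by positivity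
    rw [hY, h2]
    omega
  rw [← Finset.sum_subset hsub, ← Finset.sum_subset hsub2]
  · intro n _ hn
    by_cases h0 : f n = 0
    · rw [h0, zero_mul]
    · exact absurd (Finset.mem_Icc.2 (hf n h0)) hn
  · intro n _ hn
    by_cases h0 : f n = 0
    · rw [h0, zero_mul]
    · exact absurd (Finset.mem_Icc.2 (hf n h0)) hn

lemma sep_par {S : Finset ℕ} {t : ℕ → ℝ} (ht : ∀ n ∈ S, t n ∈ Icc (n : ℝ) (n + 1)) (r : ℕ) :
    ∀ n ∈ S.filter (fun n => n % 2 = r), ∀ n' ∈ S.filter (fun n => n % 2 = r), n ≠ n' →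
      1 ≤ |t n - t n'| := by
  have key : ∀ n ∈ S.filter (fun n => n % 2 = r), ∀ n' ∈ S.filter (fun n => n % 2 = r), n < n' →
      1 ≤ |t n - t n'| := by
    intro n hn n' hn' hlt
    rw [Finset.mem_filter] at hn hn'
    have h2 : n + 2 ≤ n' := by omega
    have h3 : (n : ℝ) + 2 ≤ n' := by exact_mod_cast h2
    have h4 := (ht n hn.1).2
    have h5 := (ht n' hn'.1).1
    rw [abs_sub_comm]
    exact le_trans (by linarith) (le_abs_self _)
  intro n hn n' hn' hne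
  rcases Nat.lt_or_gt_of_ne hne with h | h
  · exact key n hn n' hn' h
  · rw [abs_sub_comm]
    exact key n' hn' n hn h

theorem hur_int : ∃ C : ℝ, 1 ≤ C ∧ ∀ (s : Finset ℕ) (a : ℕ → ℂ) (N V : ℝ) (M0 N0 : ℕ)
    (S : Finset ℕ) (t : ℕ → ℝ), 1 ≤ N →
    (∀ n ∈ s, 1 ≤ n ∧ |Real.log n - Real.log N| ≤ 2) → 0 < V → S ⊆ Finset.Ico M0 (M0 + N0) →
    (∀ n ∈ S, t n ∈ Icc (n : ℝ) (n + 1)) → (∀ n ∈ S, V ≤ ‖DPr s a (t n)‖) →
    (S.card : ℝ) ≤ C * (1 + Real.log N) ^ 2 * ((∑ n ∈ s, (n : ℝ) * ‖a n‖ ^ 2) / V ^ 2 +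
      N0 * (∑ n ∈ s, (n : ℝ) * ‖a n‖ ^ 2) ^ 3 / (N ^ 2 * V ^ 6)) := by
  classical
  obtain ⟨C, hC, h⟩ := hur
  refine ⟨2 * C, by linarith, ?_⟩
  intro s a N V M0 N0 S t hN hs hV hS ht hlarge
  have key : ∀ r : ℕ, ((S.filter (fun n => n % 2 = r)).card : ℝ) ≤
      C * (1 + Real.log N) ^ 2 * ((∑ n ∈ s, (n : ℝ) * ‖a n‖ ^ 2) / V ^ 2 +
      N0 * (∑ n ∈ s, (n : ℝ) * ‖a n‖ ^ 2) ^ 3 / (N ^ 2 * V ^ 6)) := by
    intro r
    have hsep := sep_par ht r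
    have hinj : Set.InjOn t (S.filter (fun n => n % 2 = r) : Finset ℕ) := by
      intro n hn n' hn' heq
      by_contra hne
      have := hsep n hn n' hn' hne
      rw [heq, sub_self, abs_zero] at this
      linarith
    have h1 := h s a N M0 N0 V ((S.filter (fun n => n % 2 = r)).image t) hN hs (by positivity) hV
      (by
        intro k hk
        rw [Finset.mem_image] at hk
        obtain ⟨n, hn, rfl⟩ := hk
        rw [Finset.mem_filter] at hn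
        have h2 := Finset.mem_Ico.1 (hS hn.1)
        have h3 := ht n hn.1
        have h4 : (M0 : ℝ) ≤ n := by exact_mod_cast h2.1
        have h5 : (n : ℝ) + 1 ≤ M0 + N0 := by exact_mod_cast (by omega : n + 1 ≤ M0 + N0)
        exact ⟨h4.trans h3.1, h3.2.trans h5, hlarge n hn.1⟩)
      (by
        intro k hk l hl hkl
        rw [Finset.mem_image] at hk hl
        obtain ⟨n, hn, rfl⟩ := hk
        obtain ⟨n', hn', rfl⟩ := hl
        exact hsep n hn n' hn' (fun heq => hkl (by rw [heq])))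
    rw [Finset.card_image_of_injOn hinj] at h1
    exact h1
  have hunion : S ⊆ (S.filter (fun n => n % 2 = 0)) ∪ (S.filter (fun n => n % 2 = 1)) := by
    intro n hn
    rw [Finset.mem_union, Finset.mem_filter, Finset.mem_filter]
    rcases Nat.mod_two_eq_zero_or_one n with h2 | h2
    · exact Or.inl ⟨hn, h2⟩
    · exact Or.inr ⟨hn, h2⟩
  have hcard : (S.card : ℝ) ≤ ((S.filter (fun n => n % 2 = 0)).card : ℝ) +
      ((S.filter (fun n => n % 2 = 1)).card : ℝ) := by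
    have := (Finset.card_le_card hunion).trans (Finset.card_union_le _ _)
    exact_mod_cast this
  have k0 := key 0
  have k1 := key 1
  calc (S.card : ℝ) ≤ _ := hcard
    _ ≤ _ := add_le_add k0 k1
    _ = _ := by ring

/-- the estimates that are used -/
def Blk (κ η C0 : ℝ) (I : Set ℝ) (e : ℝ → ℝ) : Prop :=
  ∃ m0 : ℕ, ∃ C : ℝ, 0 < C ∧ ∃ T0 : ℝ, 1 ≤ T0 ∧ ∀ T : ℝ, T0 ≤ T → ∀ H : ℝ, 1 ≤ H → H ≤ T →
      ∀ σ ∈ I, ∀ (b : ArithmeticFunction ℂ) (N : ℕ), T ^ η ≤ N → (N : ℝ) ≤ T ^ κ →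
      (∀ n, b n ≠ 0 → N ≤ n ∧ n ≤ 2 * N) →
      (∀ n : ℕ, 1 ≤ n → ‖b n‖ ≤ (n.divisors.card : ℝ) * (n : ℝ) ^ (-σ)) →
      ∀ V : ℝ, 0 < V → V ≤ 1 → 1 ≤ T ^ κ * V ^ (6 * m0) →
      ∀ M0 N0 : ℕ, (N0 : ℝ) ≤ C0 * H → ∀ S : Finset ℕ, S ⊆ Finset.Ico M0 (M0 + N0) → ∀ t : ℕ → ℝ,
      (∀ n ∈ S, t n ∈ Icc (n : ℝ) (n + 1)) →
      (∀ n ∈ S, V ≤ ‖dp (fun n => b n) (2 * N) (t n)‖) →
      (S.card : ℝ) ≤ C * (T ^ (6 * κ) * H ^ (e σ))

theorem blk_mv {κ η C0 : ℝ} (hκ : 0 < κ) (hκ1 : κ ≤ 1) (hη : 0 < η) (hC0 : 0 < C0) :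
    Blk κ η C0 (Icc (1 / 2) 1) (fun σ => 2 * (1 - σ)) := by
  obtain ⟨m0, C, hC, T0, hT0, h⟩ := block_short hκ hκ1 hη hC0
  refine ⟨m0, C, hC, T0, hT0, ?_⟩
  intro T hT H hH1 hHT σ hσ b N hN1 hN2 hbs hbn V hV0 hV1 hV M0 N0 hN0 S hS t ht hl
  refine h T hT H hH1 hHT σ hσ.1 hσ.2 b N hN1 hN2 hbs hbn V hV0 hV1 (hV.trans ?_) M0 N0 hN0 S hS t
    ht hl
  have : V ^ (6 * m0) ≤ V ^ (2 * m0) := pow_le_pow_of_le_one hV0.le hV1 (by omega)
  have hT' : 0 ≤ T := by linarith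
  gcongr


/-- Huxley's theorem for a power of a short Dirichlet polynomial -/
theorem hux_power : ∃ Ch : ℝ, 1 ≤ Ch ∧ ∀ (b : ArithmeticFunction ℂ) (N m : ℕ) (σ B V Lb W : ℝ)
    (M0 N0 : ℕ) (S : Finset ℕ) (t : ℕ → ℝ), 1 ≤ N → 1 / 2 ≤ σ → 0 < B → 0 < V → V ≤ 1 →
    (∀ n, b n ≠ 0 → N ≤ n ∧ n ≤ 2 * N) →
    (∀ n : ℕ, 1 ≤ n → ‖b n‖ ≤ (n.divisors.card : ℝ) * (n : ℝ) ^ (-σ)) →
    (∀ n : ℕ, 1 ≤ n → n ≤ 2 ^ m * N ^ m → (n.divisors.card : ℝ) ^ (4 * m) ≤ B) →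
    (∀ i ≤ m, 1 + Real.log (((2 ^ i * N ^ m : ℕ) : ℝ)) ≤ Lb) →
    1 / (V ^ m / (m + 1)) ^ 6 ≤ W →
    S ⊆ Finset.Ico M0 (M0 + N0) → (∀ n ∈ S, t n ∈ Icc (n : ℝ) (n + 1)) →
    (∀ n ∈ S, V ≤ ‖dp (fun n => b n) (2 * N) (t n)‖) →
    (S.card : ℝ) ≤ (m + 1) * (Ch * (Lb ^ 2 * (W * (2 ^ m * (B * ((N ^ m : ℕ) : ℝ) ^ (2 - 2 * σ)) +
      N0 * ((2 ^ m * (B * ((N ^ m : ℕ) : ℝ) ^ (2 - 2 * σ))) ^ 3 / ((N ^ m : ℕ) : ℝ) ^ 2))))) := by
  classical
  obtain ⟨Ch, hCh, hhur⟩ := hur_int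
  refine ⟨Ch, hCh, ?_⟩
  intro b N m σ B V Lb W M0 N0 S t hN1 hσ hB0 hV0 hV1 hbs hbn hBn hlogi hW hS ht hlarge
  obtain ⟨Q, hQ⟩ : ∃ Q : ℕ, Q = N ^ m := ⟨_, rfl⟩
  rw [← hQ] at hBn ⊢
  simp only [← hQ] at hlogi
  have hQ1 : 1 ≤ Q := by rw [hQ]; exact Nat.one_le_pow _ _ hN1
  obtain ⟨q, hq⟩ : ∃ q : ℝ, q = (Q : ℝ) := ⟨_, rfl⟩
  rw [← hq]
  have hq1 : 1 ≤ q := by rw [hq]; exact_mod_cast hQ1
  have hqpos : 0 < q := by linarith
  have hYQ : (2 * N) ^ m = 2 ^ m * Q := by rw [hQ, mul_pow]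
  obtain ⟨G, hG⟩ : ∃ G : ℝ, G = 2 ^ m * (B * q ^ (2 - 2 * σ)) := ⟨_, rfl⟩
  rw [← hG]
  have hGpos : 0 < G := by rw [hG]; positivity
  have hGi : ∀ i ≤ m, ∑ n ∈ Finset.Ico (2 ^ i * Q) (2 ^ (i + 1) * Q), (n : ℝ) * ‖(b ^ m) n‖ ^ 2 ≤
      G := by
    intro i hi
    have h1 : ∀ n ∈ Finset.Ico (2 ^ i * Q) (2 ^ (i + 1) * Q), (n : ℝ) * ‖(b ^ m) n‖ ^ 2 ≤
        B * q ^ (1 - 2 * σ) := by
      intro n hn
      by_cases h0 : (b ^ m) n = 0
      · rw [h0, norm_zero]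
        simp only [ne_eq, OfNat.ofNat_ne_zero, not_false_eq_true, zero_pow, mul_zero]
        positivity
      · have h2 := pow_support hbs m n h0
        rw [hYQ, ← hQ] at h2
        have hn1 : 1 ≤ n := hQ1.trans h2.1
        have hnr : (0 : ℝ) < n := by exact_mod_cast hn1
        have h4 := pow_bound hbn m n hn1
        have h6 : ‖(b ^ m) n‖ ^ 2 ≤ ((n.divisors.card : ℝ) ^ (2 * m) * (n : ℝ) ^ (-σ)) ^ 2 :=
          pow_le_pow_left₀ (norm_nonneg _) h4 2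
        have h9 : ((n : ℝ) ^ (-σ)) ^ 2 = (n : ℝ) ^ (-(2 * σ)) := by
          rw [← Real.rpow_natCast, ← Real.rpow_mul (by positivity)]
          congr 1
          push_cast; ring
        rw [mul_pow, ← pow_mul, mul_comm (2 * m) 2, ← mul_assoc, show 2 * 2 = 4 by norm_num,
          h9] at h6
        have h10 : (n : ℝ) ^ (1 - 2 * σ) ≤ q ^ (1 - 2 * σ) :=
          Real.rpow_le_rpow_of_nonpos hqpos (by rw [hq]; exact_mod_cast h2.1) (by linarith)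
        have h11 : (n : ℝ) * (n : ℝ) ^ (-(2 * σ)) = (n : ℝ) ^ (1 - 2 * σ) := by
          rw [sub_eq_add_neg, Real.rpow_add hnr, Real.rpow_one]
        calc (n : ℝ) * ‖(b ^ m) n‖ ^ 2 ≤
              (n : ℝ) * ((n.divisors.card : ℝ) ^ (4 * m) * (n : ℝ) ^ (-(2 * σ))) :=
              mul_le_mul_of_nonneg_left h6 hnr.le
          _ = (n.divisors.card : ℝ) ^ (4 * m) * ((n : ℝ) * (n : ℝ) ^ (-(2 * σ))) := by ring
          _ = (n.divisors.card : ℝ) ^ (4 * m) * (n : ℝ) ^ (1 - 2 * σ) := by rw [h11]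
          _ ≤ B * q ^ (1 - 2 * σ) :=
              mul_le_mul (hBn n hn1 h2.2) h10 (by positivity) hB0.le
    refine (Finset.sum_le_sum h1).trans ?_
    rw [Finset.sum_const, Nat.card_Ico, nsmul_eq_mul]
    have h2 : 2 ^ (i + 1) * Q - 2 ^ i * Q = 2 ^ i * Q := by
      have h3 : 2 ^ (i + 1) * Q = 2 * (2 ^ i * Q) := by rw [pow_succ]; ring
      rw [h3]; omega
    rw [h2]
    push_cast
    rw [← hq]
    have h3 : (2 : ℝ) ^ i ≤ 2 ^ m := pow_le_pow_right₀ (by norm_num) hi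
    have h4 : q * q ^ (1 - 2 * σ) = q ^ (2 - 2 * σ) := by
      nth_rewrite 1 [← Real.rpow_one q]
      rw [← Real.rpow_add hqpos]
      congr 1
      ring
    calc (2 : ℝ) ^ i * q * (B * q ^ (1 - 2 * σ)) = 2 ^ i * (B * (q * q ^ (1 - 2 * σ))) := by ring
      _ = 2 ^ i * (B * q ^ (2 - 2 * σ)) := by rw [h4]
      _ ≤ 2 ^ m * (B * q ^ (2 - 2 * σ)) := mul_le_mul_of_nonneg_right h3 (by positivity)
      _ = G := hG.symm
  -- the pieces
  obtain ⟨V', hV'⟩ : ∃ V' : ℝ, V' = V ^ m / (m + 1) := ⟨_, rfl⟩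
  rw [← hV'] at hW
  have hV'pos : 0 < V' := by rw [hV']; positivity
  have hV'le : V' ≤ 1 := by
    rw [hV', div_le_one (by positivity)]
    have : V ^ m ≤ 1 := pow_le_one₀ hV0.le hV1
    have h2 : (0 : ℝ) ≤ m := by positivity
    linarith
  have hW0 : 0 ≤ W := le_trans (by positivity) hW
  let Si : ℕ → Finset ℕ := fun i => S.filter fun n =>
    V' ≤ ‖DPr (Finset.Ico (2 ^ i * Q) (2 ^ (i + 1) * Q)) (fun n => (b ^ m) n) (t n)‖
  have hcover : S ⊆ (Finset.range (m + 1)).biUnion Si := by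
    intro n hn
    have h1 : V ^ m ≤ ‖dp (fun n => (b ^ m) n) ((2 * N) ^ m) (t n)‖ := by
      rw [dp_pow hbs, norm_pow]
      exact pow_le_pow_left₀ hV0.le (hlarge n hn) m
    rw [dp_pieces (f := fun n => (b ^ m) n) (Q := Q) (m := m) hQ1 hYQ
      (fun k hk => by rw [hQ]; exact pow_support hbs m k hk)] at h1
    by_contra hcon
    rw [Finset.mem_biUnion] at hcon
    push Not at hcon
    have h2 : ‖∑ i ∈ Finset.range (m + 1), DPr (Finset.Ico (2 ^ i * Q) (2 ^ (i + 1) * Q))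
        (fun n => (b ^ m) n) (t n)‖ < V ^ m := by
      calc _ ≤ ∑ i ∈ Finset.range (m + 1), ‖DPr (Finset.Ico (2 ^ i * Q) (2 ^ (i + 1) * Q))
            (fun n => (b ^ m) n) (t n)‖ := norm_sum_le _ _
        _ < ∑ i ∈ Finset.range (m + 1), V' := by
            refine Finset.sum_lt_sum_of_nonempty ⟨0, Finset.mem_range.2 (by omega)⟩ fun i hi => ?_
            by_contra hc
            push Not at hc
            exact hcon i hi (Finset.mem_filter.2 ⟨hn, hc⟩)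
        _ = V ^ m := by
            rw [Finset.sum_const, Finset.card_range, nsmul_eq_mul, hV']
            push_cast
            field_simp
    linarith
  have hSi : ∀ i ∈ Finset.range (m + 1), ((Si i).card : ℝ) ≤
      Ch * (Lb ^ 2 * (W * (G + N0 * (G ^ 3 / q ^ 2)))) := by
    intro i hi
    have him : i ≤ m := by rw [Finset.mem_range] at hi; omega
    have h2i : (1 : ℝ) ≤ 2 ^ i := one_le_pow₀ (by norm_num)
    have hqi : q ≤ ((2 ^ i * Q : ℕ) : ℝ) := by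
      push_cast
      rw [← hq]
      nlinarith
    have h1 := hhur (Finset.Ico (2 ^ i * Q) (2 ^ (i + 1) * Q)) (fun n => (b ^ m) n)
      ((2 ^ i * Q : ℕ) : ℝ) V' M0 N0 (Si i) t (hq1.trans hqi)
      (by
        intro n hn
        rw [Finset.mem_Ico] at hn
        have hp : 0 < 2 ^ i * Q := by positivity
        have hn1 : 1 ≤ n := by omega
        refine ⟨hn1, ?_⟩
        have hpr : (0 : ℝ) < ((2 ^ i * Q : ℕ) : ℝ) := by exact_mod_cast hp
        have hnr : (0 : ℝ) < n := by exact_mod_cast hn1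
        rw [← Real.log_div hnr.ne' hpr.ne', abs_of_nonneg]
        · have h2 : (n : ℝ) / ((2 ^ i * Q : ℕ) : ℝ) ≤ 2 := by
            rw [div_le_iff₀ hpr]
            have : n ≤ 2 * (2 ^ i * Q) := by
              have := hn.2
              rw [pow_succ] at this
              nlinarith
            exact_mod_cast this
          have h3 : Real.log ((n : ℝ) / ((2 ^ i * Q : ℕ) : ℝ)) ≤ Real.log 2 :=
            Real.log_le_log (by positivity) h2
          have := Real.log_two_lt_d9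
          linarith
        · apply Real.log_nonneg
          rw [le_div_iff₀ hpr, one_mul]
          exact_mod_cast hn.1)
      hV'pos ((Finset.filter_subset _ _).trans hS)
      (fun n hn => ht n (Finset.mem_filter.1 hn).1)
      (fun n hn => (Finset.mem_filter.1 hn).2)
    refine h1.trans ?_
    have hGi' := hGi i him
    obtain ⟨Gi, hGidef⟩ : ∃ Gi : ℝ, Gi = ∑ n ∈ Finset.Ico (2 ^ i * Q) (2 ^ (i + 1) * Q),
      (n : ℝ) * ‖(b ^ m) n‖ ^ 2 := ⟨_, rfl⟩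
    rw [← hGidef] at hGi' ⊢
    have hGi0 : 0 ≤ Gi := by rw [hGidef]; positivity
    obtain ⟨P, hP⟩ : ∃ P : ℝ, P = ((2 ^ i * Q : ℕ) : ℝ) := ⟨_, rfl⟩
    rw [← hP] at hqi ⊢
    have hlogP := hlogi i him
    rw [← hP] at hlogP
    have hlogP0 : 0 ≤ Real.log P := Real.log_nonneg (hq1.trans hqi)
    have h2 : (1 + Real.log P) ^ 2 ≤ Lb ^ 2 := pow_le_pow_left₀ (by linarith) hlogP 2
    have h3 : Gi / V' ^ 2 ≤ W * G := by
      have h4 : 1 / V' ^ 2 ≤ 1 / V' ^ 6 := by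
        apply one_div_le_one_div_of_le (by positivity)
        exact pow_le_pow_of_le_one hV'pos.le hV'le (by norm_num)
      calc Gi / V' ^ 2 = 1 / V' ^ 2 * Gi := by ring
        _ ≤ W * G := mul_le_mul (h4.trans hW) hGi' hGi0 hW0
    have h5 : N0 * Gi ^ 3 / (P ^ 2 * V' ^ 6) ≤ W * (N0 * (G ^ 3 / q ^ 2)) := by
      have h6 : Gi ^ 3 / P ^ 2 ≤ G ^ 3 / q ^ 2 := by
        apply div_le_div₀ (by positivity) (pow_le_pow_left₀ hGi0 hGi' 3) (by positivity)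
          (pow_le_pow_left₀ hqpos.le hqi 2)
      have hP0 : 0 < P := lt_of_lt_of_le hqpos hqi
      calc N0 * Gi ^ 3 / (P ^ 2 * V' ^ 6) = 1 / V' ^ 6 * (N0 * (Gi ^ 3 / P ^ 2)) := by
              field_simp
        _ ≤ W * (N0 * (G ^ 3 / q ^ 2)) := by
            apply mul_le_mul hW _ (by positivity) hW0
            exact mul_le_mul_of_nonneg_left h6 (by positivity)
    have h7 : 0 ≤ W * G + W * (N0 * (G ^ 3 / q ^ 2)) := by positivity
    calc _ ≤ Ch * (1 + Real.log P) ^ 2 * (W * G + W * (N0 * (G ^ 3 / q ^ 2))) := by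
            apply mul_le_mul_of_nonneg_left (add_le_add h3 h5)
            positivity
      _ ≤ Ch * Lb ^ 2 * (W * G + W * (N0 * (G ^ 3 / q ^ 2))) := by
            apply mul_le_mul_of_nonneg_right _ h7
            exact mul_le_mul_of_nonneg_left h2 (by linarith)
      _ = _ := by ring
  calc (S.card : ℝ) ≤ (((Finset.range (m + 1)).biUnion Si).card : ℝ) := by
        exact_mod_cast Finset.card_le_card hcover
    _ ≤ ∑ i ∈ Finset.range (m + 1), ((Si i).card : ℝ) := by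
        exact_mod_cast Finset.card_biUnion_le
    _ ≤ ∑ i ∈ Finset.range (m + 1), Ch * (Lb ^ 2 * (W * (G + N0 * (G ^ 3 / q ^ 2)))) :=
        Finset.sum_le_sum hSi
    _ = _ := by
        rw [Finset.sum_const, Finset.card_range, nsmul_eq_mul]
        push_cast
        rfl

lemma hux_fin {κ σ T H M q C0 B B1 G E N0 : ℝ} {k : ℕ} (hκ : 0 < κ) (hT : 1 ≤ T) (hσ : 2 / 3 ≤ σ)
    (hσ2 : σ ≤ 1) (hMpos : 0 < M) (hqpos : 0 < q) (hMq : M ≤ q) (hqM : q ≤ M * T ^ κ)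
    (hMH : H = M ^ (4 * σ - 2)) (hEM : M ^ (2 - 2 * σ) = E) (hB0 : 0 ≤ B) (hB1 : 0 < B1)
    (hBB : 2 ^ k * B ≤ B1 * T ^ (κ / 2)) (hG : G = 2 ^ k * (B * q ^ (2 - 2 * σ))) (hC0 : 0 ≤ C0)
    (hN0' : 0 ≤ N0) (hN0 : N0 ≤ C0 * H) :
    G + N0 * (G ^ 3 / q ^ 2) ≤ (B1 + C0 * B1 ^ 3) * (T ^ (2 * κ) * E) := by
  have hTpos : 0 < T := by linarith
  have hE0 : 0 < E := by rw [← hEM]; positivity
  have hH0 : 0 ≤ H := by rw [hMH]; positivity
  have hT1 : ∀ x y : ℝ, x ≤ y → T ^ x ≤ T ^ y := fun x y h =>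
    Real.rpow_le_rpow_of_exponent_le hT h
  have hG1 : G ≤ B1 * (T ^ (2 * κ) * E) := by
    have h1 : q ^ (2 - 2 * σ) ≤ E * T ^ κ := by
      calc q ^ (2 - 2 * σ) ≤ (M * T ^ κ) ^ (2 - 2 * σ) := by
            apply Real.rpow_le_rpow hqpos.le hqM (by linarith)
        _ = M ^ (2 - 2 * σ) * T ^ (κ * (2 - 2 * σ)) := by
            rw [Real.mul_rpow hMpos.le (by positivity), ← Real.rpow_mul hTpos.le]
        _ ≤ E * T ^ κ := by
            rw [hEM]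
            have : T ^ (κ * (2 - 2 * σ)) ≤ T ^ κ := hT1 _ _ (by nlinarith)
            gcongr
    calc G = (2 ^ k * B) * q ^ (2 - 2 * σ) := by rw [hG]; ring
      _ ≤ (B1 * T ^ (κ / 2)) * (E * T ^ κ) :=
          mul_le_mul hBB h1 (by positivity) (by positivity)
      _ = B1 * (T ^ (κ / 2) * T ^ κ * E) := by ring
      _ ≤ B1 * (T ^ (2 * κ) * E) := by
          have : T ^ (κ / 2) * T ^ κ ≤ T ^ (2 * κ) := by
            rw [← Real.rpow_add hTpos]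
            exact hT1 _ _ (by linarith)
          gcongr
  have hG3 : N0 * (G ^ 3 / q ^ 2) ≤ C0 * B1 ^ 3 * (T ^ (2 * κ) * E) := by
    have h1 : G ^ 3 / q ^ 2 = (2 ^ k * B) ^ 3 * q ^ (4 - 6 * σ) := by
      have h2 : (q ^ (2 - 2 * σ)) ^ 3 = q ^ (6 - 6 * σ) := by
        rw [← Real.rpow_natCast, ← Real.rpow_mul hqpos.le]
        congr 1
        push_cast; ring
      have h3 : q ^ (6 - 6 * σ) = q ^ (4 - 6 * σ) * q ^ 2 := by
        rw [← Real.rpow_natCast q 2, ← Real.rpow_add hqpos]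
        congr 1
        push_cast; ring
      rw [hG, ← mul_assoc, mul_pow, h2, h3]
      field_simp
    have h4 : q ^ (4 - 6 * σ) ≤ M ^ (4 - 6 * σ) :=
      Real.rpow_le_rpow_of_nonpos hMpos hMq (by linarith)
    have h5 : H * M ^ (4 - 6 * σ) = E := by
      rw [← hEM, hMH, ← Real.rpow_add hMpos]
      congr 1
      ring
    have h6 : (2 ^ k * B) ^ 3 ≤ B1 ^ 3 * T ^ (2 * κ) := by
      calc (2 ^ k * B) ^ 3 ≤ (B1 * T ^ (κ / 2)) ^ 3 := pow_le_pow_left₀ (by positivity) hBB 3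
        _ = B1 ^ 3 * (T ^ (κ / 2)) ^ 3 := by rw [mul_pow]
        _ ≤ _ := by
          have : (T ^ (κ / 2)) ^ 3 ≤ T ^ (2 * κ) := by
            rw [← Real.rpow_natCast, ← Real.rpow_mul hTpos.le]
            exact hT1 _ _ (by push_cast; linarith)
          gcongr
    rw [h1]
    calc (N0 : ℝ) * ((2 ^ k * B) ^ 3 * q ^ (4 - 6 * σ)) ≤
          (C0 * H) * ((B1 ^ 3 * T ^ (2 * κ)) * M ^ (4 - 6 * σ)) := by
          apply mul_le_mul hN0 (mul_le_mul h6 h4 (by positivity) (by positivity)) (by positivity)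
            (by positivity)
      _ = C0 * B1 ^ 3 * (T ^ (2 * κ) * (H * M ^ (4 - 6 * σ))) := by ring
      _ = _ := by rw [h5]
  linarith

set_option maxHeartbeats 1000000 in
theorem blk_hux {κ η C0 : ℝ} (hκ : 0 < κ) (hκ1 : κ ≤ 1) (hη : 0 < η) (hC0 : 0 < C0) :
    Blk κ η C0 (Icc (2 / 3) 1) (fun σ => (1 - σ) / (2 * σ - 1)) := by
  classical
  obtain ⟨Ch, hCh, hhux⟩ := hux_power
  set m0 : ℕ := ⌈3 / 2 / η⌉₊ + 2 with hm0
  have hm01 : 1 ≤ m0 := by omega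
  obtain ⟨Cd, hCd1, hCd⟩ := div_bound (ε := κ / (24 * m0)) (by positivity)
  have ev2 := ev_log ((m0 + 5 : ℝ) ^ 2) κ 2 hκ
  have ev6 : ∀ᶠ T : ℝ in atTop, 1 ≤ Real.log T := Real.tendsto_log_atTop.eventually_ge_atTop _
  have ev4 : ∀ᶠ T : ℝ in atTop, 2 ≤ T ^ η :=
    (tendsto_rpow_atTop hη).eventually_ge_atTop _
  obtain ⟨T0, hT0⟩ := Filter.eventually_atTop.1 ((ev2.and ev4).and
    (ev6.and (eventually_ge_atTop (1 : ℝ))))
  obtain ⟨B1, hB1⟩ : ∃ B1 : ℝ, B1 = 2 ^ m0 * (Cd ^ (4 * m0) * 2 ^ m0) := ⟨_, rfl⟩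
  have hB1pos : 0 < B1 := by rw [hB1]; positivity
  refine ⟨m0, (m0 + 1) * (Ch * ((m0 + 1) ^ 6 * (B1 + C0 * B1 ^ 3))), by positivity, max T0 1,
    le_max_right _ _, ?_⟩
  intro T hT H hH1 hHT σ hσ b N hNlarge hNZ hbs hbn V hV0 hV1 hVm0 M0 N0 hN0 S hS t ht hlarge
  obtain ⟨hσ1, hσ2⟩ := hσ
  obtain ⟨⟨e2, e4⟩, ⟨e6, e7⟩⟩ := hT0 T ((le_max_left _ _).trans hT)
  clear hT0 ev2 ev6 ev4
  have hTpos : 0 < T := by linarith
  have hHpos : 0 < H := by linarith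
  have hNr2 : (2 : ℝ) ≤ N := e4.trans hNlarge
  have hNr : (1 : ℝ) ≤ N := by linarith
  have hN1 : 1 ≤ N := by exact_mod_cast hNr
  have hlogN : η * Real.log T ≤ Real.log N := by
    rw [← Real.log_rpow hTpos]
    exact Real.log_le_log (by positivity) hNlarge
  have hlogNpos : 0 < Real.log N := lt_of_lt_of_le (by positivity) hlogN
  have hlogH0 : 0 ≤ Real.log H := Real.log_nonneg hH1
  have hlogHT : Real.log H ≤ Real.log T := Real.log_le_log hHpos hHT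
  have hden : 0 < 4 * σ - 2 := by linarith
  obtain ⟨M, hM⟩ : ∃ M : ℝ, M = H ^ (1 / (4 * σ - 2)) := ⟨_, rfl⟩
  have hM1 : 1 ≤ M := by rw [hM]; exact Real.one_le_rpow hH1 (by positivity)
  have hMpos : 0 < M := by linarith
  have hlogM : Real.log M = 1 / (4 * σ - 2) * Real.log H := by rw [hM, Real.log_rpow hHpos]
  have hlogM2 : Real.log M ≤ 3 / 2 * Real.log T := by
    rw [hlogM]
    have : 1 / (4 * σ - 2) ≤ 3 / 2 := by
      rw [div_le_div_iff₀ hden (by norm_num)]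
      linarith
    exact mul_le_mul this hlogHT hlogH0 (by norm_num)
  have hlogM0 : 0 ≤ Real.log M := Real.log_nonneg hM1
  have hMH : H = M ^ (4 * σ - 2) := by
    rw [hM, ← Real.rpow_mul hHpos.le, one_div, inv_mul_cancel₀ hden.ne', Real.rpow_one]
  -- the power
  obtain ⟨m, hm⟩ : ∃ m : ℕ, m = ⌈Real.log M / Real.log N⌉₊ := ⟨_, rfl⟩
  have hm1 : Real.log M / Real.log N ≤ m := by rw [hm]; exact Nat.le_ceil _
  have hm2 : (m : ℝ) ≤ Real.log M / Real.log N + 1 := by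
    rw [hm]; exact (Nat.ceil_lt_add_one (by positivity)).le
  have hmm0 : m ≤ m0 := by
    have h1 : Real.log M / Real.log N ≤ 3 / 2 / η := by
      rw [div_le_div_iff₀ hlogNpos hη]
      nlinarith
    rw [hm, hm0]
    exact (Nat.ceil_le_ceil h1).trans (by omega)
  have hNm1 : M ≤ (N : ℝ) ^ m := by
    rw [div_le_iff₀ hlogNpos] at hm1
    calc M = Real.exp (Real.log M) := (Real.exp_log hMpos).symm
      _ ≤ Real.exp (m * Real.log N) := Real.exp_le_exp.2 hm1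
      _ = (N : ℝ) ^ m := by rw [Real.exp_nat_mul, Real.exp_log (by linarith)]
  have hNm2 : (N : ℝ) ^ m ≤ M * N := by
    calc (N : ℝ) ^ m = Real.exp (m * Real.log N) := by
          rw [Real.exp_nat_mul, Real.exp_log (by linarith)]
      _ ≤ Real.exp ((Real.log M / Real.log N + 1) * Real.log N) := by
          apply Real.exp_le_exp.2
          exact mul_le_mul_of_nonneg_right hm2 hlogNpos.le
      _ = M * N := by
          rw [add_mul, one_mul, div_mul_cancel₀ _ hlogNpos.ne', Real.exp_add, Real.exp_log hMpos,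
            Real.exp_log (by linarith)]
  obtain ⟨q, hq⟩ : ∃ q : ℝ, q = ((N ^ m : ℕ) : ℝ) := ⟨_, rfl⟩
  have hqN : q = (N : ℝ) ^ m := by rw [hq]; push_cast; rfl
  have hq1 : 1 ≤ q := by rw [hqN]; exact one_le_pow₀ hNr
  have hqpos : 0 < q := by linarith
  have hMq : M ≤ q := by rw [hqN]; exact hNm1
  have hqM : q ≤ M * T ^ κ := by
    rw [hqN]
    exact hNm2.trans (mul_le_mul_of_nonneg_left hNZ hMpos.le)
  have hMT : M ≤ T ^ (3 / 2 : ℝ) := by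
    rw [← Real.log_le_log_iff hMpos (by positivity), Real.log_rpow hTpos]
    exact hlogM2
  have hqT : q ≤ T ^ (3 : ℝ) := by
    calc q ≤ M * T ^ κ := hqM
      _ ≤ T ^ (3 / 2 : ℝ) * T ^ (3 / 2 : ℝ) := by
          have : T ^ κ ≤ T ^ (3 / 2 : ℝ) := Real.rpow_le_rpow_of_exponent_le e7 (by linarith)
          exact mul_le_mul hMT this (by positivity) (by positivity)
      _ = T ^ (3 : ℝ) := by rw [← Real.rpow_add hTpos]; norm_num
  have h2m : (2 : ℝ) ^ m ≤ 2 ^ m0 := pow_le_pow_right₀ (by norm_num) hmm0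
  -- logarithms
  have hlogi : ∀ i ≤ m, 1 + Real.log (((2 ^ i * N ^ m : ℕ) : ℝ)) ≤ (m0 + 5) * Real.log T := by
    intro i hi
    rw [Nat.cast_mul, ← hq, Nat.cast_pow, Nat.cast_ofNat,
      Real.log_mul (by positivity) (by positivity), Real.log_pow]
    have h1 : Real.log q ≤ 3 * Real.log T := by
      rw [← Real.log_rpow hTpos]
      exact Real.log_le_log hqpos hqT
    have h2 : Real.log 2 ≤ 1 := by have := Real.log_two_lt_d9; linarith
    have h20 : 0 ≤ Real.log 2 := Real.log_nonneg (by norm_num)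
    have h3 : (i : ℝ) ≤ m0 := by exact_mod_cast hi.trans hmm0
    have h4 : (i : ℝ) * Real.log 2 ≤ m0 * Real.log T := by
      apply mul_le_mul h3 (h2.trans e6) h20 (by positivity)
    linarith
  -- the divisor bound
  obtain ⟨B, hB⟩ : ∃ B : ℝ, B = Cd ^ (4 * m0) * (2 ^ m0 * T ^ (κ / 2)) := ⟨_, rfl⟩
  have hB0 : 0 < B := by rw [hB]; positivity
  have hBn : ∀ n : ℕ, 1 ≤ n → n ≤ 2 ^ m * N ^ m → (n.divisors.card : ℝ) ^ (4 * m) ≤ B := by
    intro n hn1 hn2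
    have hnr : (1 : ℝ) ≤ n := by exact_mod_cast hn1
    have h1 := hCd n hn1
    have hx1 : 1 ≤ Cd * (n : ℝ) ^ (κ / (24 * m0)) := by
      have : 1 ≤ (n : ℝ) ^ (κ / (24 * m0)) := Real.one_le_rpow hnr (by positivity)
      nlinarith
    have hn3 : (n : ℝ) ≤ 2 ^ m0 * T ^ (3 : ℝ) := by
      calc (n : ℝ) ≤ ((2 ^ m * N ^ m : ℕ) : ℝ) := by exact_mod_cast hn2
        _ = 2 ^ m * q := by rw [hqN]; push_cast; rfl
        _ ≤ 2 ^ m0 * T ^ (3 : ℝ) := mul_le_mul h2m hqT hqpos.le (by positivity)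
    have h6 : ((2 : ℝ) ^ m0) ^ (κ / 6) ≤ 2 ^ m0 := by
      have : (1 : ℝ) ≤ 2 ^ m0 := one_le_pow₀ (by norm_num)
      calc ((2 : ℝ) ^ m0) ^ (κ / 6) ≤ ((2 : ℝ) ^ m0) ^ (1 : ℝ) :=
            Real.rpow_le_rpow_of_exponent_le this (by linarith)
        _ = _ := Real.rpow_one _
    calc (n.divisors.card : ℝ) ^ (4 * m) ≤ (Cd * (n : ℝ) ^ (κ / (24 * m0))) ^ (4 * m) :=
          pow_le_pow_left₀ (Nat.cast_nonneg _) h1 _
      _ ≤ (Cd * (n : ℝ) ^ (κ / (24 * m0))) ^ (4 * m0) := pow_le_pow_right₀ hx1 (by omega)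
      _ = Cd ^ (4 * m0) * (n : ℝ) ^ (κ / 6) := by
          rw [mul_pow, ← Real.rpow_natCast ((n : ℝ) ^ (κ / (24 * m0))),
            ← Real.rpow_mul (by positivity)]
          congr 2
          push_cast
          field_simp
          norm_num
      _ ≤ Cd ^ (4 * m0) * (2 ^ m0 * T ^ (3 : ℝ)) ^ (κ / 6) :=
          mul_le_mul_of_nonneg_left (Real.rpow_le_rpow (by positivity) hn3 (by positivity))
            (by positivity)
      _ = Cd ^ (4 * m0) * ((2 ^ m0) ^ (κ / 6) * T ^ (κ / 2)) := by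
          rw [Real.mul_rpow (by positivity) (by positivity), ← Real.rpow_mul hTpos.le]
          congr 3
          ring
      _ ≤ B := by
          rw [hB]
          exact mul_le_mul_of_nonneg_left (mul_le_mul_of_nonneg_right h6 (by positivity))
            (by positivity)
  have hV'6 : 1 / (V ^ m / (m + 1)) ^ 6 ≤ (m0 + 1) ^ 6 * T ^ κ := by
    have h1 : V ^ (6 * m0) ≤ (V ^ m) ^ 6 := by
      rw [← pow_mul]
      exact pow_le_pow_of_le_one hV0.le hV1 (by omega)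
    have h3 : (m : ℝ) + 1 ≤ m0 + 1 := by
      have : (m : ℝ) ≤ m0 := by exact_mod_cast hmm0
      linarith
    rw [div_pow, one_div_div, div_le_iff₀ (by positivity)]
    calc ((m : ℝ) + 1) ^ 6 ≤ (m0 + 1) ^ 6 * 1 := by
          rw [mul_one]; exact pow_le_pow_left₀ (by positivity) h3 6
      _ ≤ (m0 + 1) ^ 6 * (T ^ κ * V ^ (6 * m0)) :=
          mul_le_mul_of_nonneg_left hVm0 (by positivity)
      _ ≤ (m0 + 1) ^ 6 * (T ^ κ * (V ^ m) ^ 6) :=
          mul_le_mul_of_nonneg_left (mul_le_mul_of_nonneg_left h1 (by positivity)) (by positivity)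
      _ = _ := by ring
  have hcard := hhux b N m σ B V ((m0 + 5) * Real.log T) ((m0 + 1) ^ 6 * T ^ κ) M0 N0 S t hN1
    (by linarith) hB0 hV0 hV1 hbs hbn hBn hlogi hV'6 hS ht hlarge
  rw [← hq] at hcard
  obtain ⟨E, hE⟩ : ∃ E : ℝ, E = H ^ ((1 - σ) / (2 * σ - 1)) := ⟨_, rfl⟩
  have hEM : M ^ (2 - 2 * σ) = E := by
    rw [hM, ← Real.rpow_mul hHpos.le, hE]
    congr 1
    have h2 : 2 * σ - 1 ≠ 0 := by
      have : 0 < 2 * σ - 1 := by linarith
      exact this.ne'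
    have h3 : 4 * σ - 2 ≠ 0 := hden.ne'
    rw [div_mul_eq_mul_div, one_mul, div_eq_div_iff h3 h2]
    ring
  have hE0 : 0 < E := by rw [hE]; positivity
  have hBB : 2 ^ m * B ≤ B1 * T ^ (κ / 2) := by
    calc 2 ^ m * B ≤ 2 ^ m0 * B := mul_le_mul_of_nonneg_right h2m hB0.le
      _ = B1 * T ^ (κ / 2) := by rw [hB, hB1]; ring
  have hfin := hux_fin (κ := κ) (σ := σ) (T := T) (H := H) (M := M) (q := q) (C0 := C0) (B := B)
    (B1 := B1) (E := E) (N0 := N0) (k := m) hκ e7 hσ1 hσ2 hMpos hqpos hMq hqM hMH hEM hB0.le hB1pos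
    hBB rfl hC0.le (by positivity) hN0
  have hlogsq : ((m0 + 5) * Real.log T) ^ 2 ≤ T ^ κ := by
    rw [mul_pow]
    exact e2
  have hm3 : (m : ℝ) + 1 ≤ m0 + 1 := by
    have : (m : ℝ) ≤ m0 := by exact_mod_cast hmm0
    linarith
  rw [← hE]
  obtain ⟨G, hG⟩ : ∃ G : ℝ, G = 2 ^ m * (B * q ^ (2 - 2 * σ)) := ⟨_, rfl⟩
  rw [← hG] at hcard hfin
  have hG0 : 0 < G := by rw [hG]; positivity
  calc (S.card : ℝ) ≤ _ := hcard
    _ ≤ (m0 + 1) * (Ch * (T ^ κ * ((m0 + 1) ^ 6 * T ^ κ *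
        ((B1 + C0 * B1 ^ 3) * (T ^ (2 * κ) * E))))) := by gcongr
    _ = (m0 + 1) * (Ch * ((m0 + 1) ^ 6 * (B1 + C0 * B1 ^ 3))) *
        ((T ^ κ * T ^ κ * T ^ (2 * κ)) * E) := by ring
    _ ≤ (m0 + 1) * (Ch * ((m0 + 1) ^ 6 * (B1 + C0 * B1 ^ 3))) * (T ^ (6 * κ) * E) := by
        have : T ^ κ * T ^ κ * T ^ (2 * κ) ≤ T ^ (6 * κ) := by
          rw [← Real.rpow_add hTpos, ← Real.rpow_add hTpos]
          exact Real.rpow_le_rpow_of_exponent_le e7 (by linarith)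
        gcongr

end Pool.Agent.K9h52.DX
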