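import Pool.Agent.K9h52.DX.Det

/-!
The number of unit intervals that contain the height of a good centre.
-/

open Complex Metric MeasureTheory Set Filter Topology

namespace Pool.Agent.K9h52.DX

open DH31

/-- dyadic pieces -/
noncomputable def bg (β : ℕ → ℂ) (X Z j : ℕ) : ArithmeticFunction ℂ :=
  ⟨fun n => if n ∈ Finset.Ioc X Z ∧ Nat.log 2 n = j then β n else 0, by
    simp⟩

lemma bg_apply (β : ℕ → ℂ) (X Z j n : ℕ) :
    bg β X Z j n = if n ∈ Finset.Ioc X Z ∧ Nat.log 2 n = j then β n else 0 := rfl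

lemma bg_support {β : ℕ → ℂ} {X Z j : ℕ} :
    ∀ n, bg β X Z j n ≠ 0 → 2 ^ j ≤ n ∧ n ≤ 2 * 2 ^ j := by
  intro n hn
  rw [bg_apply] at hn
  by_cases h : n ∈ Finset.Ioc X Z ∧ Nat.log 2 n = j
  · rw [Finset.mem_Ioc] at h
    obtain ⟨h1, rfl⟩ := h
    refine ⟨Nat.pow_log_le_self 2 (by omega), ?_⟩
    have := (Nat.lt_pow_succ_log_self (show 1 < 2 by norm_num) n).le
    rw [pow_succ] at this
    omega
  · rw [if_neg h] at hn; exact absurd rfl hn

lemma bg_dyadic {β : ℕ → ℂ} {X Z J : ℕ} (hJ : Z < 2 ^ J) (t : ℝ) :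
    ∑ n ∈ Finset.Ioc X Z, β n * (n : ℂ) ^ (-(t : ℂ) * I) =
      ∑ j ∈ Finset.range J, dp (fun n => bg β X Z j n) (2 * 2 ^ j) t := by
  have hmaps : ∀ n ∈ Finset.Ioc X Z, Nat.log 2 n ∈ Finset.range J := by
    intro n hn
    rw [Finset.mem_Ioc] at hn
    rw [Finset.mem_range]
    exact Nat.log_lt_of_lt_pow (by omega) (by omega)
  rw [← Finset.sum_fiberwise_of_maps_to hmaps]
  refine Finset.sum_congr rfl fun j _ => ?_
  unfold dp
  symm
  rw [Finset.sum_filter]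
  have h1 : ∀ n ∈ Finset.Icc 1 (2 * 2 ^ j), bg β X Z j n * (n : ℂ) ^ (-(t : ℂ) * I) =
      if n ∈ Finset.Ioc X Z ∧ Nat.log 2 n = j then β n * (n : ℂ) ^ (-(t : ℂ) * I) else 0 := by
    intro n _
    rw [bg_apply]
    split_ifs <;> simp
  rw [Finset.sum_congr rfl h1, ← Finset.sum_filter, ← Finset.sum_filter]
  refine Finset.sum_congr ?_ fun _ _ => rfl
  ext n
  simp only [Finset.mem_filter, Finset.mem_Icc, Finset.mem_Ioc]
  constructor
  · rintro ⟨_, h2, h3⟩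
    exact ⟨h2, h3⟩
  · rintro ⟨h2, h3⟩
    refine ⟨⟨by omega, ?_⟩, h2, h3⟩
    have := Nat.lt_pow_succ_log_self (show 1 < 2 by norm_num) n
    rw [h3, pow_succ] at this
    omega

lemma bd_norm_le {σ : ℝ} (hσ : σ ≤ 1) {k X n : ℕ} (hn : 1 ≤ n) :
    ‖bd (2 - σ) k X n‖ ≤ (n.divisors.card : ℝ) * (n : ℝ) ^ (-σ) := by
  have hn1 : (1 : ℝ) ≤ n := by exact_mod_cast hn
  have hlog : 0 ≤ Real.log n := Real.log_nonneg hn1
  have h2σ : 0 ≤ 2 - σ := by linarith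
  unfold bd
  rw [norm_mul, norm_mul, Complex.norm_real, Real.norm_of_nonneg (by positivity),
    Complex.norm_natCast_cpow_of_pos (by omega)]
  have h1 := Real.pow_div_factorial_le_exp ((2 - σ) * Real.log n) (by positivity) k
  have h2 : Real.exp ((2 - σ) * Real.log n) = (n : ℝ) ^ (2 - σ) := by
    rw [Real.rpow_def_of_pos (by linarith), mul_comm]
  rw [h2] at h1
  have h3 := aX_norm_le X n
  have h4 : (-((2 : ℝ) : ℂ)).re = -2 := by
    rw [Complex.neg_re, Complex.ofReal_re]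
  rw [h4]
  calc ‖aX X n‖ * (((2 - σ) * Real.log n) ^ k / k.factorial) * (n : ℝ) ^ (-2 : ℝ)
      ≤ (n.divisors.card : ℝ) * (n : ℝ) ^ (2 - σ) * (n : ℝ) ^ (-2 : ℝ) := by gcongr
    _ = _ := by
      rw [mul_assoc, ← Real.rpow_add (by linarith)]
      congr 2
      ring

lemma bg_norm_le {β : ℕ → ℂ} {σ : ℝ} {X Z j : ℕ}
    (hβ : ∀ n : ℕ, 1 ≤ n → ‖β n‖ ≤ (n.divisors.card : ℝ) * (n : ℝ) ^ (-σ)) :
    ∀ n : ℕ, 1 ≤ n → ‖bg β X Z j n‖ ≤ (n.divisors.card : ℝ) * (n : ℝ) ^ (-σ) := by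
  intro n hn
  rw [bg_apply]
  split_ifs
  · exact hβ n hn
  · rw [norm_zero]; positivity

set_option maxHeartbeats 1000000 in
theorem det_count {κ δ C0 : ℝ} (hκ : 0 < κ) (hκ1 : κ ≤ 1) (hδ : 0 < δ) (hδ1 : δ ≤ 1 / 4)
    (hC0 : 0 < C0) :
    ∃ C : ℝ, 0 < C ∧ ∃ T0 : ℝ, 1 ≤ T0 ∧ ∀ T : ℝ, T0 ≤ T → ∀ H : ℝ, 1 ≤ H → H ≤ T →
      ∀ σ : ℝ, 1 / 2 ≤ σ → σ ≤ 1 → ∀ M0 N0 : ℕ, (N0 : ℝ) ≤ C0 * H →
      ∀ S : Finset ℕ, S ⊆ Finset.Ico M0 (M0 + N0) →
      (∀ n ∈ S, ∃ y : ℝ, (n : ℝ) ≤ y ∧ y ≤ n + 1 ∧ 3 ≤ y ∧ ∃ r : ℝ, 0 < r ∧ r ≤ 2 - σ ∧ ∃ ρ : ℂ,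
        riemannZeta ρ = 0 ∧ ‖ρ - ⟨2, y⟩‖ ≤ r ∧
        ∀ z ∈ closedBall (⟨2, y⟩ : ℂ) (r + δ), ‖riemannZeta z‖ ≤ T ^ (κ / 200 * δ)) →
      (S.card : ℝ) ≤ C * (T ^ (7 * κ) * H ^ (2 * (1 - σ))) := by
  set η : ℝ := κ / 200 * δ with hη'
  have hη : 0 < η := by positivity
  obtain ⟨T1, hT1, hdet⟩ := detect' hδ hδ1 hη
  obtain ⟨m0, C, hC, T2, hT2, hblock⟩ := block_short (κ := κ) (η := η / 2) (C0 := C0) hκ hκ1
    (by positivity) hC0
  obtain ⟨q, hq⟩ : ∃ q : ℕ, q = 16 := ⟨16, rfl⟩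
  have hqr : (q : ℝ) = 16 := by rw [hq]; norm_num
  have ev1 := ev_log ((q + 1) * (6 * η / δ + 2) ^ 2) κ 2 hκ
  have ev2 : ∀ᶠ T : ℝ in atTop, 1 ≤ Real.log T := Real.tendsto_log_atTop.eventually_ge_atTop _
  have ev3 := ev_log ((2 * (q + 1) * (6 * η / δ + 2) ^ 2) ^ (2 * m0)) κ (4 * m0) hκ
  have ev4 : ∀ᶠ T : ℝ in atTop, Real.exp (2 * q) ≤ T ^ (κ / 2) :=
    (tendsto_rpow_atTop (show 0 < κ / 2 by positivity)).eventually_ge_atTop _
  have ev5 : ∀ᶠ T : ℝ in atTop, 2 ≤ T ^ (η / 2) :=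
    (tendsto_rpow_atTop (show 0 < η / 2 by positivity)).eventually_ge_atTop _
  obtain ⟨T3, hT3⟩ := Filter.eventually_atTop.1 ((ev1.and ev2).and ((ev3.and ev4).and ev5))
  refine ⟨C, hC, max (max T1 T2) T3, (hT1.trans (le_max_left _ _)).trans (le_max_left _ _), ?_⟩
  intro T hT H hH1 hHT σ hσ1 hσ2 M0 N0 hN0 S hSM hS
  have hTT1 : T1 ≤ T := (le_max_left _ _).trans ((le_max_left _ _).trans hT)
  have hTT2 : T2 ≤ T := (le_max_right _ _).trans ((le_max_left _ _).trans hT)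
  obtain ⟨⟨e1, e2⟩, ⟨⟨e3, e4⟩, e5⟩⟩ := hT3 T ((le_max_right _ _).trans hT)
  have hT1' : 1 ≤ T := hT1.trans hTT1
  have hTpos : 0 < T := by linarith
  choose! y hy1 hy2 hy3 r hr0 hr ρ hρ hρr hb using hS
  set K := KK δ η T with hK
  have hK1 : 1 ≤ K := by rw [hK]; unfold KK; omega
  have hK1r : (1 : ℝ) ≤ K := by exact_mod_cast hK1
  have hKle : (K : ℝ) ≤ (6 * η / δ + 2) * Real.log T := KK_le hδ hη e2
  set X := ⌊T ^ η⌋₊ with hX
  set Z := 2 ^ (q * K) with hZ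
  have hZJ : Z < 2 ^ ((q + 1) * K) := by
    rw [hZ]
    exact Nat.pow_lt_pow_right (by norm_num) (by nlinarith)
  -- Z is small
  have hZsmall : (Z : ℝ) ≤ T ^ κ := by
    have h1 : (Z : ℝ) ≤ Real.exp (q * K) := by
      rw [hZ]
      push_cast
      have h2 : (2 : ℝ) ≤ Real.exp 1 := by
        have h3 : (2.7182818283 : ℝ) ≤ Real.exp 1 := Real.exp_one_gt_d9.le
        linarith
      calc (2 : ℝ) ^ (q * K) ≤ (Real.exp 1) ^ (q * K) := by gcongr
        _ = Real.exp (q * K) := by rw [← Real.exp_nat_mul]; push_cast; ring_nf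
    have h5 : (K : ℝ) ≤ 6 * η / δ * Real.log T + 2 := by
      have h1 := (Nat.ceil_lt_add_one (show 0 ≤ 6 * η / δ * Real.log T by positivity)).le
      rw [hK]; unfold KK; push_cast; linarith
    have h60 : 6 * η / δ = 3 * κ / 100 := by rw [hη']; field_simp; ring
    have h6 : q * (K : ℝ) ≤ κ / 2 * Real.log T + 2 * q := by
      rw [h60] at h5
      rw [hqr]
      nlinarith
    calc (Z : ℝ) ≤ Real.exp (q * K) := h1
      _ ≤ Real.exp (κ / 2 * Real.log T + 2 * q) := Real.exp_le_exp.2 h6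
      _ = T ^ (κ / 2) * Real.exp (2 * q) := by
        rw [Real.exp_add, Real.rpow_def_of_pos hTpos, mul_comm (κ / 2)]
      _ ≤ T ^ (κ / 2) * T ^ (κ / 2) := by gcongr
      _ = T ^ κ := by rw [← Real.rpow_add hTpos]; congr 1; ring
  classical
  set V : ℝ := 1 / (2 * (q + 1) * (K : ℝ) ^ 2) with hV
  have hVpos : 0 < V := by positivity
  have hVle : V ≤ 1 := by
    rw [hV, div_le_one (by positivity)]
    have a1 : (0 : ℝ) ≤ q := by positivity
    have a2 : (1 : ℝ) ≤ (K : ℝ) ^ 2 := one_le_pow₀ hK1r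
    nlinarith
  have hVm : 1 ≤ T ^ κ * V ^ (2 * m0) := by
    have h1 : 1 / V = 2 * (q + 1) * (K : ℝ) ^ 2 := by rw [hV]; field_simp
    have h2 : (1 / V) ^ (2 * m0) ≤ T ^ κ := by
      rw [h1]
      refine le_trans ?_ e3
      calc (2 * ((q : ℝ) + 1) * (K : ℝ) ^ 2) ^ (2 * m0) ≤
            (2 * ((q : ℝ) + 1) * ((6 * η / δ + 2) * Real.log T) ^ 2) ^ (2 * m0) := by gcongr
        _ = (2 * (q + 1) * (6 * η / δ + 2) ^ 2) ^ (2 * m0) * Real.log T ^ (4 * m0) := by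
            rw [mul_pow (6 * η / δ + 2), ← mul_assoc, mul_pow, ← pow_mul]
            congr 2
            ring
    rw [one_div, inv_pow] at h2
    have h3 : 0 < V ^ (2 * m0) := by positivity
    rwa [inv_le_iff_one_le_mul₀ h3] at h2
  -- the pieces
  let Skj : ℕ → ℕ → Finset ℕ := fun k j => S.filter fun n =>
    V ≤ ‖dp (fun n => bg (bd (2 - σ) k X) X Z j n) (2 * 2 ^ j) (y n)‖
  have hcover : S ⊆ (Finset.range K).biUnion fun k => (Finset.range ((q + 1) * K)).biUnion fun j =>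
      Skj k j := by
    intro n hn
    obtain ⟨k, hk, hdk⟩ := hdet T hTT1 (y n) (hy3 n hn) (ρ n) (hρ n hn) (r n) (2 - σ) (hr0 n hn)
      (hr n hn) (by linarith) (hρr n hn) (hb n hn)
    rw [← hq] at hdk
    have hdk' : 1 / (2 * (K : ℝ)) ≤ ‖∑ j ∈ Finset.range ((q + 1) * K),
        dp (fun n => bg (bd (2 - σ) k X) X Z j n) (2 * 2 ^ j) (y n)‖ := by
      rw [← bg_dyadic hZJ]
      exact hdk
    have hex : ∃ j < (q + 1) * K, V ≤
        ‖dp (fun n => bg (bd (2 - σ) k X) X Z j n) (2 * 2 ^ j) (y n)‖ := by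
      by_contra hcon
      push Not at hcon
      have h8 : ‖∑ j ∈ Finset.range ((q + 1) * K),
        dp (fun n => bg (bd (2 - σ) k X) X Z j n) (2 * 2 ^ j) (y n)‖ < 1 / (2 * (K : ℝ)) := by
        calc _ ≤ ∑ j ∈ Finset.range ((q + 1) * K),
              ‖dp (fun n => bg (bd (2 - σ) k X) X Z j n) (2 * 2 ^ j) (y n)‖ := norm_sum_le _ _
          _ < ∑ j ∈ Finset.range ((q + 1) * K), V := by
            refine Finset.sum_lt_sum_of_nonempty
              ⟨0, Finset.mem_range.2 (Nat.mul_pos (by omega) (by omega))⟩ fun j hj => ?_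
            exact hcon j (Finset.mem_range.1 hj)
          _ = 1 / (2 * (K : ℝ)) := by
            rw [Finset.sum_const, Finset.card_range, nsmul_eq_mul, hV]
            push_cast
            have : (K : ℝ) ≠ 0 := by positivity
            field_simp
      linarith
    obtain ⟨j, hj, hdj⟩ := hex
    simp only [Finset.mem_biUnion, Finset.mem_range]
    exact ⟨k, hk, j, hj, Finset.mem_filter.2 ⟨hn, hdj⟩⟩
  have hbd : ∀ k j, ((Skj k j).card : ℝ) ≤ C * (T ^ (6 * κ) * H ^ (2 * (1 - σ))) := by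
    intro k j
    rcases (Skj k j).eq_empty_or_nonempty with hemp | ⟨n0, hn0⟩
    · rw [hemp]
      simp only [Finset.card_empty, Nat.cast_zero]
      positivity
    -- there is a nonzero coefficient
    have hne : ∃ n, bg (bd (2 - σ) k X) X Z j n ≠ 0 := by
      by_contra hcon
      push Not at hcon
      have h1 := (Finset.mem_filter.1 hn0).2
      unfold dp at h1
      simp only [hcon, zero_mul, Finset.sum_const_zero, norm_zero] at h1
      linarith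
    obtain ⟨n1, hn1⟩ := hne
    have hn1s := bg_support n1 hn1
    have hn1i : X < n1 ∧ n1 ≤ Z := by
      rw [bg_apply] at hn1
      by_contra hcon
      apply hn1
      rw [if_neg]
      rw [Finset.mem_Ioc]
      tauto
    refine hblock T hTT2 H hH1 hHT σ hσ1 hσ2 (bg (bd (2 - σ) k X) X Z j) (2 ^ j) ?_ ?_
      bg_support (bg_norm_le fun n hn => bd_norm_le hσ2 hn) V hVpos hVle hVm M0 N0 hN0 (Skj k j)
      ((Finset.filter_subset _ _).trans hSM) y ?_ ?_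
    · have h1 : T ^ η < X + 1 := Nat.lt_floor_add_one _
      have h2 : (X : ℝ) + 1 ≤ 2 * ((2 ^ j : ℕ) : ℝ) := by
        have : X + 1 ≤ 2 * 2 ^ j := by omega
        exact_mod_cast this
      have h3 : T ^ η = T ^ (η / 2) * T ^ (η / 2) := by
        rw [← Real.rpow_add hTpos]; congr 1; ring
      have h4 : 2 * T ^ (η / 2) ≤ T ^ (η / 2) * T ^ (η / 2) := by gcongr
      linarith
    · refine le_trans ?_ hZsmall
      have : 2 ^ j ≤ Z := hn1s.1.trans hn1i.2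
      exact_mod_cast this
    · intro n hn
      have := (Finset.mem_filter.1 hn).1
      exact ⟨hy1 n this, hy2 n this⟩
    · intro n hn
      exact (Finset.mem_filter.1 hn).2
  have hcard : (S.card : ℝ) ≤ (K : ℝ) * (((q + 1) * K : ℕ) * (C * (T ^ (6 * κ) * H ^ (2 * (1 - σ))))) := by
    calc (S.card : ℝ) ≤ (((Finset.range K).biUnion fun k => (Finset.range ((q + 1) * K)).biUnion fun j =>
          Skj k j).card : ℝ) := by exact_mod_cast Finset.card_le_card hcover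
      _ ≤ ∑ k ∈ Finset.range K, ∑ j ∈ Finset.range ((q + 1) * K), ((Skj k j).card : ℝ) := by
          have h1 : (((Finset.range K).biUnion fun k => (Finset.range ((q + 1) * K)).biUnion fun j =>
            Skj k j).card) ≤ ∑ k ∈ Finset.range K, ∑ j ∈ Finset.range ((q + 1) * K), (Skj k j).card :=
            (Finset.card_biUnion_le).trans (Finset.sum_le_sum fun k _ => Finset.card_biUnion_le)
          exact_mod_cast h1
      _ ≤ ∑ k ∈ Finset.range K, ∑ j ∈ Finset.range ((q + 1) * K), C * (T ^ (6 * κ) * H ^ (2 * (1 - σ))) :=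
          Finset.sum_le_sum fun k _ => Finset.sum_le_sum fun j _ => hbd k j
      _ = _ := by
          rw [Finset.sum_const, Finset.sum_const, Finset.card_range, Finset.card_range,
            nsmul_eq_mul, nsmul_eq_mul]
  have hK2 : (q + 1) * (K : ℝ) ^ 2 ≤ T ^ κ := by
    refine le_trans ?_ e1
    calc (q + 1) * (K : ℝ) ^ 2 ≤ (q + 1) * ((6 * η / δ + 2) * Real.log T) ^ 2 := by gcongr
      _ = _ := by ring
  have hH0 : 0 < H := by linarith
  calc (S.card : ℝ) ≤ (K : ℝ) * (((q + 1) * K : ℕ) * (C * (T ^ (6 * κ) * H ^ (2 * (1 - σ))))) := hcard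
    _ = ((q + 1) * (K : ℝ) ^ 2) * (C * (T ^ (6 * κ) * H ^ (2 * (1 - σ)))) := by push_cast; ring
    _ ≤ T ^ κ * (C * (T ^ (6 * κ) * H ^ (2 * (1 - σ)))) := by gcongr
    _ = C * ((T ^ κ * T ^ (6 * κ)) * H ^ (2 * (1 - σ))) := by ring
    _ = C * (T ^ (7 * κ) * H ^ (2 * (1 - σ))) := by
        rw [← Real.rpow_add hTpos]
        congr 3
        ring

end Pool.Agent.K9h52.DX
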