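import Mathlib

/-!
The choice of the parameters.
-/

namespace Pool.Agent.K9h52.DX

/-- the absolute constant -/
noncomputable def c0 : ℝ := 1 / (256000 * (10496 * Real.exp 31 + 2))

lemma c0_pos : 0 < c0 := by
  unfold c0
  have := Real.exp_pos 31
  positivity

/-- the density of the clusters: `c₀ ε h / log(1/(εh))⁴` -/
noncomputable def dens (ε h : ℝ) : ℝ := c0 * (ε * h) / (Real.log (1 / (ε * h))) ^ 4

lemma par {ε h : ℝ} (hε : 0 < ε) (hε1 : ε ≤ 1) (hh : 0 < h) (hh1 : h ≤ 1 / 20) :
    ∃ θ : ℝ, 0 < θ ∧ θ ≤ 1 / 16 ∧ ∃ K : ℕ,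
      2 * dens ε h + dens ε h * Real.log (1 / θ) / θ * (K * Real.exp (12 * θ * K)) +
        18 * (5 + 3 * dens ε h) * (2 / 3) ^ K < ε / 2000 * (θ * h / 2) := by
  set x : ℝ := ε * h with hx
  have hx0 : 0 < x := by positivity
  have hx1 : x ≤ 1 / 20 := by
    calc x = ε * h := hx
      _ ≤ 1 * (1 / 20) := by gcongr
      _ = 1 / 20 := by norm_num
  set lam : ℝ := Real.log (1 / x) with hlam
  have hlam1 : 1 ≤ lam := by
    rw [hlam, Real.le_log_iff_exp_le (by positivity)]
    have h1 : Real.exp 1 ≤ 3 := by have := Real.exp_one_lt_d9; linarith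
    have h2 : (20 : ℝ) ≤ 1 / x := by
      rw [le_div_iff₀ hx0]; linarith
    linarith
  have hlam0 : 0 < lam := by linarith
  have hlamx : lam * x ≤ 1 := by
    have h1 : lam ≤ 1 / x := by
      have := Real.add_one_le_exp lam
      rw [hlam, Real.exp_log (by positivity)] at this
      rw [hlam]
      linarith
    calc lam * x ≤ 1 / x * x := by gcongr
      _ = 1 := by field_simp
  set E : ℝ := Real.exp 31 with hE
  have hE0 : 0 < E := Real.exp_pos _
  have hc0 := c0_pos
  set m : ℝ := dens ε h with hm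
  have hm' : m = c0 * x / lam ^ 4 := rfl
  have hm0 : 0 < m := by rw [hm']; positivity
  refine ⟨1 / (16 * lam), by positivity, ?_, ⌈40 * lam⌉₊, ?_⟩
  · apply one_div_le_one_div_of_le (by norm_num)
    linarith
  set K : ℕ := ⌈40 * lam⌉₊ with hK
  have hK1 : 40 * lam ≤ K := Nat.le_ceil _
  have hK2 : (K : ℝ) ≤ 41 * lam := by
    have := (Nat.ceil_lt_add_one (show 0 ≤ 40 * lam by positivity)).le
    rw [← hK] at this
    linarith
  have h1 : Real.exp (12 * (1 / (16 * lam)) * K) ≤ E := by
    apply Real.exp_le_exp.2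
    calc 12 * (1 / (16 * lam)) * (K : ℝ) ≤ 12 * (1 / (16 * lam)) * (41 * lam) := by gcongr
      _ = 12 * 41 / 16 := by field_simp
      _ ≤ 31 := by norm_num
  have h2 : Real.log (1 / (1 / (16 * lam))) ≤ 16 * lam := by
    rw [one_div_one_div]
    have := Real.add_one_le_exp (Real.log (16 * lam))
    rw [Real.exp_log (by positivity)] at this
    linarith
  have h3 : m * Real.log (1 / (1 / (16 * lam))) / (1 / (16 * lam)) *
      (K * Real.exp (12 * (1 / (16 * lam)) * K)) ≤ 10496 * E * c0 * (x / lam) := by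
    calc m * Real.log (1 / (1 / (16 * lam))) / (1 / (16 * lam)) *
          (K * Real.exp (12 * (1 / (16 * lam)) * K))
        ≤ m * (16 * lam) / (1 / (16 * lam)) * (41 * lam * E) := by gcongr
      _ = 10496 * E * c0 * (x / lam) := by
          rw [hm']
          field_simp
          norm_num
  have h4 : 2 * m ≤ 2 * c0 * (x / lam) := by
    have h5 : lam ≤ lam ^ 4 := le_self_pow₀ hlam1 (by norm_num)
    calc 2 * m = 2 * (c0 * x / lam ^ 4) := by rw [hm']
      _ ≤ 2 * (c0 * x / lam) := by gcongr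
      _ = _ := by ring
  have h6 : (2 / 3 : ℝ) ^ K ≤ x ^ 16 := by
    have h7 : (2 / 3 : ℝ) ≤ Real.exp (-(2 / 5)) := by
      have h8 : Real.exp (2 / 5) ≤ 3 / 2 := by
        have h9 : Real.exp (2 / 5) ^ 5 ≤ (3 / 2) ^ 5 := by
          rw [← Real.exp_nat_mul]
          norm_num
          have h10 : Real.exp 2 = Real.exp 1 * Real.exp 1 := by rw [← Real.exp_add]; norm_num
          have h11 : Real.exp 1 ≤ 2.7182818286 := Real.exp_one_lt_d9.le
          have h12 := Real.exp_pos 1
          rw [h10]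
          nlinarith
        exact le_of_pow_le_pow_left₀ (by norm_num) (by norm_num) h9
      rw [Real.exp_neg]
      rw [le_inv_comm₀ (by norm_num) (Real.exp_pos _)]
      norm_num
      exact h8
    calc (2 / 3 : ℝ) ^ K ≤ (Real.exp (-(2 / 5))) ^ K := by gcongr
      _ = Real.exp (-(2 / 5) * K) := by rw [← Real.exp_nat_mul]; congr 1; ring
      _ ≤ Real.exp (-(16 * lam)) := by
          apply Real.exp_le_exp.2
          nlinarith
      _ = x ^ 16 := by
          rw [hlam, one_div, Real.log_inv, mul_neg, neg_neg, show (16 : ℝ) = ((16 : ℕ) : ℝ) by norm_num,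
            Real.exp_nat_mul, Real.exp_log hx0]
  have hm1 : m ≤ 1 := by
    have h5 : (1 : ℝ) ≤ lam ^ 4 := one_le_pow₀ hlam1
    have h7 : c0 ≤ 1 := by
      unfold c0
      rw [div_le_one (by positivity)]
      nlinarith
    rw [hm', div_le_one (by positivity)]
    nlinarith
  have h7 : 18 * (5 + 3 * m) * (2 / 3) ^ K ≤ x / lam * (1 / 256000) := by
    have h8 : x ^ 14 ≤ (1 / 20) ^ 14 := by gcongr
    calc 18 * (5 + 3 * m) * (2 / 3) ^ K ≤ 18 * (5 + 3 * 1) * x ^ 16 := by gcongr
      _ = 144 * x ^ 14 * (x * x) := by ring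
      _ ≤ 144 * (1 / 20) ^ 14 * (x * (1 / lam)) := by
          have : x ≤ 1 / lam := by rw [le_div_iff₀ hlam0]; linarith
          gcongr
      _ ≤ 1 / 256000 * (x * (1 / lam)) := by
          gcongr
          norm_num
      _ = _ := by ring
  have h8 : ε / 2000 * (1 / (16 * lam) * h / 2) = x / lam * (1 / 64000) := by
    rw [hx]; field_simp; norm_num
  rw [h8]
  have hxl : 0 < x / lam := by positivity
  have h9 : 10496 * E * c0 + 2 * c0 = 1 / 256000 := by
    unfold c0
    rw [← hE]
    field_simp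
  have h10 : 10496 * E * c0 * (x / lam) + 2 * c0 * (x / lam) = 1 / 256000 * (x / lam) := by
    rw [← h9]; ring
  linarith

end Pool.Agent.K9h52.DX
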