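import Pool.Agent.K9h52.DX.Scale
import Pool.Agent.K9h52.DX.Par

/-!
Near every zero there is a centre at which zeta is small in the disc, or an extremal cluster.
-/

open Complex Metric Set Filter Topology

namespace Pool.Agent.K9h52.DX

open H370 H370.Loc DH31

/-- an extremal cluster with edge at `w` -/
def Ext (ε h₀ τ η B T : ℝ) (w : ℂ) : Prop :=
  (cnt {s : ℂ | riemannZeta s = 0 ∧ w.re + τ ≤ s.re ∧ |s.im - w.im| ≤ B} : ℝ) ≤ η * Real.log T ∧
  ∀ h : ℝ, h₀ ≤ h → h ≤ 1 / 10 → ∃ b : ℝ, |b - w.im| ≤ Real.sqrt h ∧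
    c0 / 64 * (ε * h) / (Real.log (1 / (ε * h))) ^ 4 * Real.log T ≤ cnt (Zd ⟨w.re, b⟩ h)

lemma pos_min (f : ℕ → ℝ) (hf : ∀ j, 0 < f j) (J : ℕ) : ∃ x : ℝ, 0 < x ∧ ∀ j ≤ J, x ≤ f j := by
  induction J with
  | zero => exact ⟨f 0, hf 0, fun j hj => by rw [Nat.le_zero.1 hj]⟩
  | succ J ih =>
    obtain ⟨x, hx, h⟩ := ih
    refine ⟨min x (f (J + 1)), lt_min hx (hf _), fun j hj => ?_⟩
    rcases Nat.lt_or_ge J j with h1 | h1
    · have : j = J + 1 := by omega
      rw [this]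
      exact min_le_right _ _
    · exact (min_le_left _ _).trans (h j h1)

lemma fin_max (f : ℕ → ℝ) (J : ℕ) : ∃ x : ℝ, ∀ j ≤ J, f j ≤ x := by
  induction J with
  | zero => exact ⟨f 0, fun j hj => by rw [Nat.le_zero.1 hj]⟩
  | succ J ih =>
    obtain ⟨x, h⟩ := ih
    refine ⟨max x (f (J + 1)), fun j hj => ?_⟩
    rcases Nat.lt_or_ge J j with h1 | h1
    · have : j = J + 1 := by omega
      rw [this]
      exact le_max_right _ _
    · exact (h j h1).trans (le_max_left _ _)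

lemma chain {Hv : ℝ → ℝ → Prop} {B τ : ℝ} (hB : 0 ≤ B) (hτ : 0 ≤ τ)
    (hlow : ∀ y R, Hv y R → 1 ≤ R) : ∀ (J : ℕ) (y0 R0 : ℝ), Hv y0 R0 → R0 < 1 + J * τ →
    ∃ y R : ℝ, Hv y R ∧ R ≤ R0 ∧ |y - y0| ≤ J * B ∧ ∀ y', |y' - y| ≤ B → ¬ Hv y' (R - τ) := by
  intro J
  induction J with
  | zero =>
    intro y0 R0 h1 h2
    have := hlow _ _ h1
    simp at h2
    linarith
  | succ J ih =>
    intro y0 R0 h1 h2
    by_cases h : ∃ y', |y' - y0| ≤ B ∧ Hv y' (R0 - τ)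
    · obtain ⟨y', h3, h4⟩ := h
      obtain ⟨y, R, e1, e2, e3, e4⟩ := ih y' (R0 - τ) h4 (by push_cast at h2; linarith)
      refine ⟨y, R, e1, by linarith, ?_, e4⟩
      calc |y - y0| = |(y - y') + (y' - y0)| := by congr 1; ring
        _ ≤ |y - y'| + |y' - y0| := abs_add_le _ _
        _ ≤ J * B + B := by gcongr
        _ = _ := by push_cast; ring
    · push Not at h
      refine ⟨y0, R0, h1, le_rfl, ?_, h⟩
      rw [sub_self, abs_zero]
      positivity

lemma cnt_pos {A : Set ℂ} (h : 0 < cnt A) : A.Nonempty := by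
  by_contra hcon
  rw [Set.not_nonempty_iff_eq_empty] at hcon
  rw [hcon] at h
  unfold cnt at h
  simp at h

lemma sum_biUnion_le {ι : Type*} [DecidableEq ι] (U : Finset ι) (t : ι → Finset ℂ) (f : ℂ → ℕ) :
    ∑ s ∈ U.biUnion t, f s ≤ ∑ i ∈ U, ∑ s ∈ t i, f s := by
  classical
  induction U using Finset.induction_on with
  | empty => simp
  | insert a U ha ih =>
    rw [Finset.biUnion_insert, Finset.sum_insert ha]
    refine le_trans ?_ (Nat.add_le_add_left ih _)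
    rw [← Finset.sum_union_inter]
    exact Nat.le_add_right _ _

lemma cnt_le_sum {ι : Type*} [DecidableEq ι] {A : Set ℂ} (hA : A.Finite) (U : Finset ι)
    (t : ι → Set ℂ) (ht : ∀ i, (t i).Finite) (h : ∀ s ∈ A, ∃ i ∈ U, s ∈ t i) :
    cnt A ≤ ∑ i ∈ U, cnt (t i) := by
  classical
  rw [cnt_eq hA]
  have h1 : hA.toFinset ⊆ U.biUnion (fun i => (ht i).toFinset) := by
    intro s hs
    rw [Set.Finite.mem_toFinset] at hs
    obtain ⟨i, hi, hsi⟩ := h s hs
    rw [Finset.mem_biUnion]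
    exact ⟨i, hi, by rw [Set.Finite.mem_toFinset]; exact hsi⟩
  refine (Finset.sum_le_sum_of_subset h1).trans ((sum_biUnion_le _ _ _).trans (le_of_eq ?_))
  refine Finset.sum_congr rfl fun i _ => ?_
  rw [cnt_eq (ht i)]

lemma region_finite (a b B : ℝ) :
    {s : ℂ | riemannZeta s = 0 ∧ a ≤ s.re ∧ |s.im - b| ≤ B}.Finite := by
  refine (finite_region a (b - B) (b + B)).subset ?_
  rintro s ⟨h1, h2, h3⟩
  rw [abs_le] at h3
  exact ⟨h1, h2, by linarith [h3.1], by linarith [h3.2]⟩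

/-- the zeros to the right of the edge -/
lemma region_count {y R τ τ' B x : ℝ} (hR : R ≤ 8 / 5) (hτ : 0 < τ) (hτ' : 0 ≤ τ')
    (hττ : τ' ≤ τ / 2) (hB : 0 < B)
    (hx : ∀ y' : ℝ, |y' - y| ≤ B + 1 → (cnt (Zd ⟨2, y'⟩ (R - τ')) : ℝ) ≤ x) :
    (cnt {s : ℂ | riemannZeta s = 0 ∧ 2 - R + τ ≤ s.re ∧ |s.im - y| ≤ B} : ℝ) ≤
      (2 * (⌈B / τ⌉₊ + 1) + 1) * x := by
  classical
  set J : ℕ := ⌈B / τ⌉₊ with hJ
  have hx0 : 0 ≤ x := le_trans (by positivity) (hx y (by rw [sub_self, abs_zero]; positivity))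
  have key : cnt {s : ℂ | riemannZeta s = 0 ∧ 2 - R + τ ≤ s.re ∧ |s.im - y| ≤ B} ≤
      ∑ j ∈ (Finset.Icc (-((J : ℤ) + 1)) ((J : ℤ) + 1)).filter (fun j : ℤ => |(j : ℝ) * τ| ≤ B + 1),
        cnt (Zd ⟨2, y + j * τ⟩ (R - τ')) := by
    refine cnt_le_sum (region_finite _ _ _) _ (fun j : ℤ => Zd ⟨2, y + j * τ⟩ (R - τ'))
      (fun j => Zd_finite _ _) ?_
    rintro s ⟨h1, h2, h3⟩
    have hre : s.re < 1 := by
      by_contra hcon
      push Not at hcon
      exact riemannZeta_ne_zero_of_one_le_re hcon h1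
    have hτ1 : τ ≤ 1 := by linarith
    set t : ℝ := s.im - y with ht
    have hfl1 : (⌊t / τ⌋ : ℝ) * τ ≤ t := by
      have := Int.floor_le (t / τ)
      calc (⌊t / τ⌋ : ℝ) * τ ≤ t / τ * τ := by gcongr
        _ = t := by field_simp
    have hfl2 : t < (⌊t / τ⌋ : ℝ) * τ + τ := by
      have := Int.lt_floor_add_one (t / τ)
      calc t = t / τ * τ := by field_simp
        _ < (⌊t / τ⌋ + 1) * τ := by gcongr
        _ = _ := by ring
    have habs := abs_le.1 h3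
    refine ⟨⌊t / τ⌋, ?_, h1, ?_⟩
    · rw [Finset.mem_filter, Finset.mem_Icc]
      have hBτ : B / τ ≤ J := Nat.le_ceil _
      have ht1 : t / τ ≤ B / τ := by gcongr; exact habs.2
      have ht2 : -(B / τ) ≤ t / τ := by
        rw [← neg_div]; gcongr; exact habs.1
      refine ⟨⟨?_, ?_⟩, ?_⟩
      · have h5 : (-((J : ℝ) + 1)) < (⌊t / τ⌋ : ℝ) + 0 := by
          have := Int.lt_floor_add_one (t / τ)
          linarith
        have h6 : ((-((J : ℤ) + 1) : ℤ) : ℝ) < ((⌊t / τ⌋ : ℤ) : ℝ) := by push_cast; linarith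
        exact (Int.cast_lt.1 h6).le
      · have h5 : (⌊t / τ⌋ : ℝ) ≤ J := (Int.floor_le (t / τ)).trans (ht1.trans hBτ)
        have h6 : ((⌊t / τ⌋ : ℤ) : ℝ) ≤ (((J : ℤ)) : ℝ) := by push_cast; exact h5
        have := Int.cast_le.1 h6
        omega
      · rw [abs_le]
        constructor
        · linarith [habs.1]
        · linarith [habs.2]
    · have h4 : ‖s - ⟨2, y + ⌊t / τ⌋ * τ⟩‖ ^ 2 ≤ (R - τ') ^ 2 := by
        rw [← Complex.normSq_eq_norm_sq, Complex.normSq_apply]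
        simp only [Complex.sub_re, Complex.sub_im]
        set e : ℝ := t - ⌊t / τ⌋ * τ with he
        have he0 : 0 ≤ e := by rw [he]; linarith
        have heτ : e ≤ τ := by rw [he]; linarith
        have h5 : s.im - (y + ⌊t / τ⌋ * τ) = e := by rw [he, ht]; ring
        rw [h5]
        have h6 : 0 ≤ 2 - s.re := by linarith
        have h7 : 2 - s.re ≤ R - τ := by linarith
        have h8 : (2 - s.re) ^ 2 ≤ (R - τ) ^ 2 := by gcongr
        have h9 : e ^ 2 ≤ τ * τ := by nlinarith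
        have h10 : τ * τ ≤ τ * 1 := by gcongr
        have h11 : (R - τ) ^ 2 + τ ≤ (R - τ') ^ 2 := by
          have h12 : (R - τ') ^ 2 - (R - τ) ^ 2 = (τ - τ') * (2 * (R - τ) + (τ - τ')) := by ring
          have h13 : τ / 2 * 2 ≤ (τ - τ') * (2 * (R - τ) + (τ - τ')) := by
            apply mul_le_mul <;> linarith
          linarith
        nlinarith
      have h5 : 0 ≤ R - τ' := by linarith
      exact le_of_sq_le_sq h4 h5
  have h1 : ((∑ j ∈ (Finset.Icc (-((J : ℤ) + 1)) ((J : ℤ) + 1)).filter (fun j : ℤ => |(j : ℝ) * τ| ≤ B + 1),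
        cnt (Zd ⟨2, y + j * τ⟩ (R - τ')) : ℕ) : ℝ) ≤ (2 * (J + 1) + 1) * x := by
    rw [Nat.cast_sum]
    calc ∑ j ∈ (Finset.Icc (-((J : ℤ) + 1)) ((J : ℤ) + 1)).filter (fun j : ℤ => |(j : ℝ) * τ| ≤ B + 1),
          ((cnt (Zd ⟨2, y + j * τ⟩ (R - τ')) : ℕ) : ℝ)
        ≤ ∑ j ∈ (Finset.Icc (-((J : ℤ) + 1)) ((J : ℤ) + 1)).filter (fun j : ℤ => |(j : ℝ) * τ| ≤ B + 1), x := by
          refine Finset.sum_le_sum fun j hj => ?_
          have := (Finset.mem_filter.1 hj).2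
          exact hx _ (by rwa [add_sub_cancel_left])
      _ = ((Finset.Icc (-((J : ℤ) + 1)) ((J : ℤ) + 1)).filter
            (fun j : ℤ => |(j : ℝ) * τ| ≤ B + 1)).card * x := by
          rw [Finset.sum_const, nsmul_eq_mul]
      _ ≤ (2 * (J + 1) + 1) * x := by
          have h2 : ((Finset.Icc (-((J : ℤ) + 1)) ((J : ℤ) + 1)).filter
            (fun j : ℤ => |(j : ℝ) * τ| ≤ B + 1)).card ≤ 2 * (J + 1) + 1 := by
            refine (Finset.card_filter_le _ _).trans ?_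
            rw [Int.card_Icc]
            omega
          have h3 : (((Finset.Icc (-((J : ℤ) + 1)) ((J : ℤ) + 1)).filter
            (fun j : ℤ => |(j : ℝ) * τ| ≤ B + 1)).card : ℝ) ≤ 2 * (J + 1) + 1 := by
            exact_mod_cast h2
          gcongr
  refine le_trans ?_ h1
  exact_mod_cast key

end Pool.Agent.K9h52.DX
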