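import Pool.Agent.K9h52.DX.Dich

/-!
The dichotomy for every zero.
-/

open Complex Metric Set Filter Topology

namespace Pool.Agent.K9h52.DX

open H370 H370.Loc DH31

lemma dens_ge {ε h g : ℝ} (hε : 0 < ε) (hε1 : ε ≤ 1) (hh : h ≤ 1 / 10) (hg : 0 < g)
    (h1 : g ≤ h / 2) (h2 : h ≤ 4 * g) :
    c0 / 64 * (ε * h) / (Real.log (1 / (ε * h))) ^ 4 ≤ dens ε g := by
  have hh0 : 0 < h := by linarith
  have hc0 := c0_pos
  set x : ℝ := ε * h with hx
  set z : ℝ := ε * g with hz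
  have hx0 : 0 < x := by positivity
  have hz0 : 0 < z := by positivity
  have hx1 : x ≤ 1 / 10 := by
    calc x = ε * h := hx
      _ ≤ 1 * (1 / 10) := by gcongr
      _ = 1 / 10 := by norm_num
  have hzx : z ≤ x / 2 := by
    rw [hz, hx]; nlinarith
  have hxz : x ≤ 4 * z := by
    rw [hz, hx]; nlinarith
  have hlx : 0 < Real.log (1 / x) := Real.log_pos (by rw [lt_div_iff₀ hx0]; linarith)
  have hlz : 0 < Real.log (1 / z) := Real.log_pos (by rw [lt_div_iff₀ hz0]; linarith)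
  have hlog : Real.log (1 / z) ≤ 2 * Real.log (1 / x) := by
    have e1 : Real.log (1 / z) ≤ Real.log (1 / x * (1 / x)) := by
      apply Real.log_le_log (by positivity)
      rw [div_mul_div_comm, one_mul, div_le_div_iff₀ hz0 (by positivity)]
      nlinarith
    rw [Real.log_mul (by positivity) (by positivity)] at e1
    linarith
  unfold dens
  rw [← hz, div_le_div_iff₀ (by positivity) (by positivity)]
  have e2 : (Real.log (1 / z)) ^ 4 ≤ (2 * Real.log (1 / x)) ^ 4 := by gcongr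
  calc c0 / 64 * x * (Real.log (1 / z)) ^ 4 ≤ c0 / 64 * (4 * z) * (2 * Real.log (1 / x)) ^ 4 := by
        gcongr
    _ = c0 * z * (Real.log (1 / x)) ^ 4 := by ring

lemma dens_nonneg {ε h : ℝ} (hε : 0 < ε) (hh : 0 < h) : 0 ≤ dens ε h := by
  unfold dens
  have := c0_pos
  positivity

set_option maxHeartbeats 1000000 in
theorem dichotomy {ε h₀ τ η B δs : ℝ} (hε : 0 < ε) (hε1 : ε ≤ 1) (hh₀ : 0 < h₀) (hτ : 0 < τ)
    (hη : 0 < η) (hB : 0 < B) (hδs : 0 < δs) (hδs1 : δs ≤ 1 / 20) :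
    ∃ Δ : Finset ℝ, (∀ δ ∈ Δ, 0 < δ ∧ δ ≤ 1 / 4) ∧ ∃ A : ℝ, 10 ≤ A ∧ ∃ T0 : ℝ, 1 ≤ T0 ∧
      ∀ T : ℝ, T0 ≤ T → ∀ ρ : ℂ, riemannZeta ρ = 0 → 1 / 2 ≤ ρ.re → A ≤ ρ.im → ρ.im ≤ T →
      ∃ y : ℝ, |y - ρ.im| ≤ A - 10 ∧
        ((∃ δ ∈ Δ, ∃ r : ℝ, 0 < r ∧ r ≤ 2 - ρ.re + 2 * δs ∧ ∃ ρ' : ℂ, riemannZeta ρ' = 0 ∧
            ‖ρ' - ⟨2, y⟩‖ ≤ r ∧
            ∀ z ∈ closedBall (⟨2, y⟩ : ℂ) (r + δ), ‖riemannZeta z‖ ≤ T ^ (ε / 2000 * δ)) ∨
         (∃ w : ℂ, w.im = y ∧ ρ.re - 2 * δs ≤ w.re ∧ Ext ε h₀ τ η B T w)) := by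
  classical
  -- scales
  set hj : ℕ → ℝ := fun j => 1 / 20 * (1 / 2) ^ j with hhj
  have hj0 : ∀ j, 0 < hj j := fun j => by simp only [hhj]; positivity
  have hj1 : ∀ j, hj j ≤ 1 / 20 := fun j => by
    simp only [hhj]
    have : (1 / 2 : ℝ) ^ j ≤ 1 := pow_le_one₀ (by norm_num) (by norm_num)
    linarith
  have hsc : ∀ j : ℕ, ∃ θ : ℝ, 0 < θ ∧ θ ≤ 1 / 16 ∧ ∃ ηj : ℝ, 0 < ηj ∧ ∃ Tj : ℝ, 1 ≤ Tj ∧
      ∀ T : ℝ, Tj ≤ T → ∀ y : ℝ, 5 ≤ y → y ≤ 2 * T → ∀ R : ℝ, 1 ≤ R → R ≤ 8 / 5 → ∀ τ : ℝ, 0 ≤ τ →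
      τ ≤ θ * hj j / 4 →
      (∀ y' : ℝ, |y' - y| ≤ 2 → (cnt (Zd ⟨2, y'⟩ (R - τ)) : ℝ) ≤ ηj * Real.log T) →
      (∀ b' : ℝ, |b' - y| ≤ Real.sqrt (hj j) / 2 →
        (cnt (Zd ⟨2 - R, b'⟩ (2 * hj j)) : ℝ) ≤ dens ε (hj j) * Real.log T) →
      ∀ z ∈ closedBall (⟨2, y⟩ : ℂ) (R + θ * hj j / 2),
        ‖riemannZeta z‖ ≤ T ^ (ε / 2000 * (θ * hj j / 2)) := by
    intro j
    obtain ⟨θ, h1, h2, K, h3⟩ := par hε hε1 (hj0 j) (hj1 j)
    obtain ⟨ηj, h4, Tj, h5, h6⟩ := scale_step (hj0 j) (hj1 j) h1 h2 (m := dens ε (hj j))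
      (dens_nonneg hε (hj0 j)) (κ₁ := ε / 2000) (by positivity) h3
    exact ⟨θ, h1, h2, ηj, h4, Tj, h5, h6⟩
  choose θ hθ0 hθ1 ηj hηj Tj hTj hstep using hsc
  obtain ⟨J, hJ⟩ : ∃ J : ℕ, (1 / 2 : ℝ) ^ J < h₀ * 10 :=
    exists_pow_lt_of_lt_one (by positivity) (by norm_num)
  obtain ⟨τa, hτa, hτa'⟩ := pos_min (fun j => θ j * hj j / 4)
    (fun j => by have := hθ0 j; have := hj0 j; positivity) J
  obtain ⟨ηa, hηa, hηa'⟩ := pos_min ηj hηj J
  obtain ⟨Ta, hTa⟩ := fin_max Tj J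
  -- light
  set ν : ℝ := ε / 2000 * δs / 3 with hν'
  have hν : 0 < ν := by positivity
  obtain ⟨ηl, hηl, Tl, hTl, hlight⟩ := light_zeta (δ := δs) (ν := ν) hδs (by linarith) hν
  set τ' : ℝ := min (τ / 2) τa with hτ'
  have hτ'0 : 0 < τ' := lt_min (by positivity) hτa
  set JB : ℝ := 2 * (⌈B / τ⌉₊ + 1) + 1 with hJB
  have hJB0 : 0 < JB := by positivity
  set η' : ℝ := min (min ηa ηl) (η / JB) with hη'
  have hη'0 : 0 < η' := lt_min (lt_min hηa hηl) (by positivity)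
  set B' : ℝ := B + 3 with hB'
  set N : ℕ := ⌈1 / τ'⌉₊ with hN
  have hNτ : 1 ≤ N * τ' := by
    have h1 : 1 / τ' ≤ N := Nat.le_ceil _
    rwa [div_le_iff₀ hτ'0] at h1
  set A : ℝ := N * B' + 10 with hA
  have hA10 : 10 ≤ A := by
    rw [hA]
    have : 0 ≤ (N : ℝ) * B' := by positivity
    linarith
  refine ⟨insert δs ((Finset.range (J + 1)).image (fun j => θ j * hj j / 2)), ?_, A, hA10,
    max (max Ta Tl) A, hTl.trans ((le_max_right _ _).trans (le_max_left _ _)), ?_⟩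
  · intro δ hδ
    rw [Finset.mem_insert, Finset.mem_image] at hδ
    rcases hδ with rfl | ⟨j, -, rfl⟩
    · exact ⟨hδs, by linarith⟩
    · have h1 := hθ0 j
      have h2 := hj0 j
      have h3 := hθ1 j
      have h4 := hj1 j
      refine ⟨by positivity, ?_⟩
      have : θ j * hj j ≤ 1 / 16 * (1 / 20) := by gcongr
      linarith
  intro T hT ρ hρ hre hAρ hρT
  have hTTa : Ta ≤ T := (le_max_left _ _).trans ((le_max_left _ _).trans hT)
  have hTTl : Tl ≤ T := (le_max_right _ _).trans ((le_max_left _ _).trans hT)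
  have hTA : A ≤ T := (le_max_right _ _).trans hT
  have hTpos : 0 < T := by linarith
  set L : ℝ := Real.log T with hL
  have hL0 : 0 ≤ L := Real.log_nonneg (by linarith)
  have hre1 : ρ.re < 1 := by
    by_contra hcon
    push Not at hcon
    exact riemannZeta_ne_zero_of_one_le_re hcon hρ
  set R0 : ℝ := 2 - ρ.re + 2 * δs with hR0
  have hR0' : R0 ≤ 8 / 5 := by linarith
  set Hv : ℝ → ℝ → Prop := fun y R => η' * L < (cnt (Zd ⟨2, y⟩ R) : ℝ) with hHv
  have hzero : ∀ y R, Hv y R → ∃ ρ' : ℂ, riemannZeta ρ' = 0 ∧ ‖ρ' - ⟨2, y⟩‖ ≤ R := by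
    intro y R h
    have h1 : 0 < cnt (Zd ⟨2, y⟩ R) := by
      have h2 : (0 : ℝ) < (cnt (Zd ⟨2, y⟩ R) : ℝ) := lt_of_le_of_lt (by positivity) h
      exact_mod_cast h2
    obtain ⟨ρ', h3, h4⟩ := cnt_pos h1
    exact ⟨ρ', h3, h4⟩
  have hlow : ∀ y R, Hv y R → 1 ≤ R := by
    intro y R h
    obtain ⟨ρ', h3, h4⟩ := hzero y R h
    have h5 : ρ'.re < 1 := by
      by_contra hcon
      push Not at hcon
      exact riemannZeta_ne_zero_of_one_le_re hcon h3
    have h6 := abs_le.1 ((Complex.abs_re_le_norm (ρ' - ⟨2, y⟩)).trans h4)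
    simp only [Complex.sub_re] at h6
    linarith [h6.1]
  have hη'a : η' ≤ ηa := (min_le_left _ _).trans (min_le_left _ _)
  have hη'l : η' ≤ ηl := (min_le_left _ _).trans (min_le_right _ _)
  have hη'JB : JB * η' ≤ η := by
    have : η' ≤ η / JB := min_le_right _ _
    rw [le_div_iff₀ hJB0] at this
    linarith
  by_cases hH : Hv ρ.im R0
  · obtain ⟨y, R, e1, e2, e3, e4⟩ := chain (B := B') (τ := τ') (by positivity) hτ'0.le hlow N ρ.im R0
      hH (by linarith)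
    have hyA : |y - ρ.im| ≤ A - 10 := by rw [hA]; linarith
    have hy := abs_le.1 hyA
    have hR1 : 1 ≤ R := hlow y R e1
    have e4' : ∀ y' : ℝ, |y' - y| ≤ B' → (cnt (Zd ⟨2, y'⟩ (R - τ')) : ℝ) ≤ η' * L := by
      intro y' hy'
      have := e4 y' hy'
      simp only [hHv] at this
      push Not at this
      exact this
    refine ⟨y, hyA, ?_⟩
    by_cases hall : ∀ j ≤ J, ¬ (∀ b' : ℝ, |b' - y| ≤ Real.sqrt (hj j) / 2 →
        (cnt (Zd ⟨2 - R, b'⟩ (2 * hj j)) : ℝ) ≤ dens ε (hj j) * L)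
    · right
      refine ⟨⟨2 - R, y⟩, rfl, by simp only; linarith, ?_, ?_⟩
      · simp only
        have h1 := region_count (y := y) (R := R) (τ := τ) (τ' := τ') (B := B) (x := η' * L)
          (by linarith) hτ hτ'0.le (min_le_left _ _) hB
          (fun y' hy' => e4' y' (by rw [hB']; linarith))
        refine h1.trans ?_
        calc (2 * ((⌈B / τ⌉₊ : ℝ) + 1) + 1) * (η' * L) = (JB * η') * L := by rw [hJB]; ring
          _ ≤ η * L := by gcongr
      · intro h hh1 hh2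
        simp only
        have hex : ∃ j : ℕ, 1 / 10 * (1 / 2 : ℝ) ^ j ≤ h := ⟨J, by linarith⟩
        set j := Nat.find hex with hjdef
        have hjs : 1 / 10 * (1 / 2 : ℝ) ^ j ≤ h := Nat.find_spec hex
        have hjJ : j ≤ J := Nat.find_min' hex (by linarith)
        have h2j : 2 * hj j ≤ h := by simp only [hhj]; linarith
        have h4j : h ≤ 4 * hj j := by
          rcases Nat.eq_zero_or_pos j with h0 | h0
          · rw [h0]; simp only [hhj]; norm_num; linarith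
          · have := Nat.find_min hex (m := j - 1) (by omega)
            push Not at this
            obtain ⟨i, hi⟩ : ∃ i, j = i + 1 := ⟨j - 1, by omega⟩
            rw [hi] at this ⊢
            simp only [Nat.add_sub_cancel] at this
            simp only [hhj]
            rw [pow_succ]
            linarith
        have := hall j hjJ
        push Not at this
        obtain ⟨b', hb1, hb2⟩ := this
        have hh0 : 0 < h := lt_of_lt_of_le hh₀ hh1
        refine ⟨b', hb1.trans ?_, ?_⟩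
        · have h5 : Real.sqrt (hj j) ≤ Real.sqrt h := Real.sqrt_le_sqrt (by linarith [hj0 j])
          have h6 : 0 ≤ Real.sqrt (hj j) := Real.sqrt_nonneg _
          linarith
        · have h5 : cnt (Zd ⟨2 - R, b'⟩ (2 * hj j)) ≤ cnt (Zd ⟨2 - R, b'⟩ h) :=
            cnt_mono (Zd_finite _ _) (fun s hs => ⟨hs.1, hs.2.trans h2j⟩)
          have h6 : ((cnt (Zd ⟨2 - R, b'⟩ (2 * hj j)) : ℕ) : ℝ) ≤ (cnt (Zd ⟨2 - R, b'⟩ h) : ℕ) := by
            exact_mod_cast h5
          refine le_trans ?_ (hb2.le.trans h6)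
          have := dens_ge hε hε1 hh2 (hj0 j) (by linarith) h4j
          gcongr
    · left
      push Not at hall
      obtain ⟨j, hjJ, hfew⟩ := hall
      obtain ⟨ρ', h3, h4⟩ := hzero y R e1
      refine ⟨θ j * hj j / 2, ?_, R, by linarith, e2, ρ', h3, h4, ?_⟩
      · rw [Finset.mem_insert, Finset.mem_image]
        exact Or.inr ⟨j, Finset.mem_range.2 (by omega), rfl⟩
      · refine hstep j T ((hTa j hjJ).trans hTTa) y (by linarith) (by linarith) R hR1 (by linarith) τ'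
          hτ'0.le ((min_le_right _ _).trans (hτa' j hjJ)) ?_ hfew
        intro y' hy'
        refine (e4' y' (by rw [hB']; linarith)).trans ?_
        have := hηa' j hjJ
        gcongr
        exact hη'a.trans this
  · refine ⟨ρ.im, by rw [sub_self, abs_zero]; linarith, Or.inl ⟨δs, Finset.mem_insert_self _ _,
      2 - ρ.re, by linarith, by linarith, ρ, hρ, ?_, ?_⟩⟩
    · have h1 : ρ - ⟨2, ρ.im⟩ = ((-(2 - ρ.re) : ℝ) : ℂ) := by
        apply Complex.ext <;> simp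
      rw [h1, Complex.norm_real, Real.norm_eq_abs, abs_neg, abs_of_nonneg (by linarith)]
    · simp only [hHv] at hH
      push Not at hH
      obtain ⟨s, g, g1, g2, g3, g4, g5, g6, g7⟩ := hlight T hTTl ρ.im (by linarith) (by linarith)
        R0 (R0 + δs) (by linarith) le_rfl (by linarith)
        (fun S hS => (Zd_sum_le hS).trans (hH.trans (by gcongr)))
      intro z hz
      have hz' : z ∈ closedBall (⟨2, ρ.im⟩ : ℂ) (R0 - δs) := by
        refine closedBall_subset_closedBall ?_ hz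
        rw [hR0]; linarith
      have hPf : ‖Pf s z‖ ≤ Real.exp (2 * (ν * L)) := by
        have h1 : ‖Pf s z‖ ≤ 4 ^ (Multiset.card s) := by
          refine Pf_norm_le fun ρ' hρ' => ?_
          have h2 := g1 ρ' hρ'
          rw [mem_closedBall, dist_eq_norm] at h2 hz'
          calc ‖z - ρ'‖ = ‖(z - ⟨2, ρ.im⟩) - (ρ' - ⟨2, ρ.im⟩)‖ := by congr 1; ring
            _ ≤ ‖z - ⟨2, ρ.im⟩‖ + ‖ρ' - ⟨2, ρ.im⟩‖ := norm_sub_le _ _
            _ ≤ 4 := by linarith
        have h4 : Real.log 4 ≤ 2 := by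
          have h : Real.log 4 = 2 * Real.log 2 := by
            rw [show (4 : ℝ) = 2 ^ 2 by norm_num, Real.log_pow]; norm_num
          rw [h]
          have := Real.log_two_lt_d9
          linarith
        refine h1.trans ((pow_le_exp_mul (by norm_num) h4 g2).trans (le_of_eq ?_))
        congr 1
        ring
      rw [g4 z, norm_mul]
      calc ‖Pf s z‖ * ‖g z‖ ≤ Real.exp (2 * (ν * L)) * Real.exp (ν * L) := by
            gcongr
            exact (g7 z hz').2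
        _ = T ^ (ε / 2000 * δs) := by
            rw [← Real.exp_add, Real.rpow_def_of_pos hTpos]
            congr 1
            rw [hν', ← hL]
            ring

end Pool.Agent.K9h52.DX
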