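import Pool.Agent.K9h52.DX.Fin3

/-!
The density hypothesis is equivalent to the density hypothesis for extremal clusters.
-/

open Complex Metric Set Filter Topology

namespace Pool.Agent.K9h52.DX

open H370 H370.Loc DH31

/-- the density hypothesis -/
def DHyp : Prop := ∀ ε : ℝ, 0 < ε → ∃ C T₀ : ℝ, 0 < C ∧ ∀ T : ℝ, T₀ ≤ T →
  ∀ σ : ℝ, 1 / 2 ≤ σ → σ ≤ 1 →
    (cnt {ρ : ℂ | riemannZeta ρ = 0 ∧ σ ≤ ρ.re ∧ 0 < ρ.im ∧ ρ.im ≤ T} : ℝ) ≤
      C * T ^ (2 * (1 - σ) + ε)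

/-- the density hypothesis for extremal clusters -/
def CHyp : Prop := ∀ ε : ℝ, 0 < ε → ε ≤ 1 → ∃ h₀ τ η : ℝ, 0 < h₀ ∧ h₀ ≤ ε ∧ 0 < τ ∧ τ ≤ ε ∧
  0 < η ∧ η ≤ ε ∧ ∃ C T₀ : ℝ, 0 < C ∧ ∀ T : ℝ, T₀ ≤ T → ∀ σ : ℝ, 1 / 2 ≤ σ → σ ≤ 1 →
    (clu3 ε h₀ τ η (T ^ (ε / 2)) T σ 0 (2 * T) : ℝ) ≤ C * T ^ (2 * (1 - σ) + ε)

theorem dhyp_of_chyp (h : CHyp) : DHyp := by
  intro ε' hε'
  obtain ⟨ε, hε'2⟩ : ∃ ε : ℝ, ε = min 1 (ε' / 10) := ⟨_, rfl⟩
  have hε : 0 < ε := by rw [hε'2]; exact lt_min one_pos (by positivity)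
  have hε1 : ε ≤ 1 := by rw [hε'2]; exact min_le_left _ _
  have hεε : 10 * ε ≤ ε' := by
    have : ε ≤ ε' / 10 := by rw [hε'2]; exact min_le_right _ _
    linarith
  obtain ⟨h₀, τ, η, hh₀, hh₀1, hτ, hτ1, hη, hη1, C1, T1, hC1, h1⟩ := h ε hε hε1
  obtain ⟨A, C2, T2, hA, hC2, h2⟩ := main4 hε hε1 hh₀ hτ hη
  obtain ⟨Ct, hCt, htriv⟩ := triv_count
  have ev := DH31.ev_log 1 ε 1 hε
  have evA : ∀ᶠ T : ℝ in atTop, A ≤ T ^ (1 / 2 : ℝ) :=
    (tendsto_rpow_atTop (by norm_num)).eventually_ge_atTop _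
  obtain ⟨T4, hT4⟩ := Filter.eventually_atTop.1 (ev.and evA)
  refine ⟨max Ct (C2 + C2 * C1), max (max T1 T2) (max T4 3), lt_max_of_lt_left hCt, ?_⟩
  intro T hT σ hσ1 hσ2
  have hTT1 : T1 ≤ T := (le_max_left _ _).trans ((le_max_left _ _).trans hT)
  have hTT2 : T2 ≤ T := (le_max_right _ _).trans ((le_max_left _ _).trans hT)
  have hTT4 : T4 ≤ T := (le_max_left _ _).trans ((le_max_right _ _).trans hT)
  have hT3 : 3 ≤ T := (le_max_right _ _).trans ((le_max_right _ _).trans hT)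
  have hTpos : 0 < T := by linarith
  obtain ⟨hlog', hAT⟩ := hT4 T hTT4
  have hlog : Real.log T ≤ T ^ ε := by simpa using hlog'
  have hlog0 : 0 ≤ Real.log T := Real.log_nonneg (by linarith)
  have hT' : ∀ x y : ℝ, x ≤ y → T ^ x ≤ T ^ y := fun x y h =>
    Real.rpow_le_rpow_of_exponent_le (by linarith) h
  obtain ⟨C, hC⟩ : ∃ C : ℝ, C = max Ct (C2 + C2 * C1) := ⟨_, rfl⟩
  rw [← hC]
  have hCCt : Ct ≤ C := by rw [hC]; exact le_max_left _ _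
  have hCC2 : C2 + C2 * C1 ≤ C := by rw [hC]; exact le_max_right _ _
  have hset : {ρ : ℂ | riemannZeta ρ = 0 ∧ σ ≤ ρ.re ∧ 0 < ρ.im ∧ ρ.im ≤ T} =
      {ρ : ℂ | riemannZeta ρ = 0 ∧ σ ≤ ρ.re ∧ 0 < ρ.im ∧ ρ.im ≤ 0 + T} := by rw [zero_add]
  rw [hset]
  rcases lt_or_ge (σ - τ) (1 / 2) with hcase | hcase
  · have h3 := htriv T hT3 0 T le_rfl (by linarith) (by linarith) σ hσ1
    refine h3.trans ?_
    have h4 : T * Real.log T ≤ T ^ (2 * (1 - σ) + ε') := by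
      calc T * Real.log T ≤ T ^ (1 : ℝ) * T ^ ε := by rw [Real.rpow_one]; gcongr
        _ = T ^ (1 + ε) := by rw [← Real.rpow_add hTpos]
        _ ≤ _ := hT' _ _ (by linarith)
    have h5 : 0 ≤ T * Real.log T := by positivity
    exact mul_le_mul hCCt h4 h5 (by linarith)
  · have hB1 : 1 ≤ T ^ (ε / 2) := Real.one_le_rpow (by linarith) (by positivity)
    have hBT2 : T ^ (ε / 2) ≤ T ^ (1 / 2 : ℝ) := hT' _ _ (by linarith)
    have hBT : T ^ (ε / 2) ≤ T := by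
      calc T ^ (ε / 2) ≤ T ^ (1 : ℝ) := hT' _ _ (by linarith)
        _ = T := Real.rpow_one _
    have h3 := h2 T hTT2 (T ^ (ε / 2)) hB1 hBT 0 T le_rfl (by linarith) (by linarith) σ hσ1 hσ2
    have h4 := h1 T hTT1 (σ - τ) hcase (by linarith)
    have hAB : A * T ^ (ε / 2) ≤ T := by
      calc A * T ^ (ε / 2) ≤ T ^ (1 / 2 : ℝ) * T ^ (1 / 2 : ℝ) := by gcongr
        _ = T ^ (1 : ℝ) := by rw [← Real.rpow_add hTpos]; norm_num
        _ = T := Real.rpow_one _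
    have h5 : ((clu3 ε h₀ τ η (T ^ (ε / 2)) T (σ - τ) (0 - A * T ^ (ε / 2))
        (0 + T + A * T ^ (ε / 2)) : ℕ) : ℝ) ≤ clu3 ε h₀ τ η (T ^ (ε / 2)) T (σ - τ) 0 (2 * T) := by
      have h6 : clu3 ε h₀ τ η (T ^ (ε / 2)) T (σ - τ) (0 - A * T ^ (ε / 2))
        (0 + T + A * T ^ (ε / 2)) ≤ clu3 ε h₀ τ η (T ^ (ε / 2)) T (σ - τ) 0 (2 * T) := by
        unfold clu3
        apply Set.ncard_le_ncard _ (clu3_finite _ _ _ _ _ _ _ _ _)
        rintro n ⟨a1, a2, w, a3, a4, a5, a6⟩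
        exact ⟨Nat.cast_nonneg _, by linarith, w, a3, a4, a5, a6⟩
      exact_mod_cast h6
    have hsq : (T ^ (ε / 2)) ^ 2 = T ^ ε := by
      rw [← Real.rpow_natCast, ← Real.rpow_mul hTpos.le]
      congr 1
      push_cast; ring
    rw [hsq] at h3
    have h7 : T ^ ε * T ^ ε * T ^ (expo σ) ≤ T ^ (2 * (1 - σ) + ε') := by
      rw [← Real.rpow_add hTpos, ← Real.rpow_add hTpos]
      have := expo_le hσ2
      exact hT' _ _ (by linarith)
    have h8 : T ^ (ε / 2) * Real.log T * (clu3 ε h₀ τ η (T ^ (ε / 2)) T (σ - τ)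
        (0 - A * T ^ (ε / 2)) (0 + T + A * T ^ (ε / 2)) : ℕ) ≤
        C1 * T ^ (2 * (1 - σ) + ε') := by
      calc _ ≤ T ^ (ε / 2) * T ^ ε * (C1 * T ^ (2 * (1 - (σ - τ)) + ε)) := by
            apply mul_le_mul (by gcongr) (h5.trans h4) (Nat.cast_nonneg _) (by positivity)
        _ = C1 * (T ^ (ε / 2) * T ^ ε * T ^ (2 * (1 - (σ - τ)) + ε)) := by ring
        _ ≤ C1 * T ^ (2 * (1 - σ) + ε') := by
            rw [← Real.rpow_add hTpos, ← Real.rpow_add hTpos]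
            have := hT' (ε / 2 + ε + (2 * (1 - (σ - τ)) + ε)) (2 * (1 - σ) + ε') (by linarith)
            gcongr
    calc _ ≤ _ := h3
      _ ≤ C2 * T ^ (2 * (1 - σ) + ε') + C2 * (C1 * T ^ (2 * (1 - σ) + ε')) := by
          apply add_le_add
          · exact mul_le_mul_of_nonneg_left h7 hC2.le
          · exact mul_le_mul_of_nonneg_left h8 hC2.le
      _ = (C2 + C2 * C1) * T ^ (2 * (1 - σ) + ε') := by ring
      _ ≤ _ := by gcongr

lemma order_pos_of_zero {z : ℂ} (hz : 0 < z.im) (h0 : riemannZeta z = 0) :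
    1 ≤ analyticOrderNatAt riemannZeta z := by
  have hK : IsPreconnected {s : ℂ | 0 < s.im} := (convex_halfSpace_im_gt 0).isPreconnected
  have h1 : analyticOrderAt riemannZeta z ≠ ⊤ :=
    order_ne_top hK (c := ⟨2, 1⟩) (fun w hw => zeta_analyticAt hw) (by simp)
      (riemannZeta_ne_zero_of_one_le_re (by simp)) hz
  have h2 : analyticOrderAt riemannZeta z ≠ 0 := by
    rw [(zeta_analyticAt hz).analyticOrderAt_ne_zero]
    exact h0
  rw [analyticOrderNatAt, Nat.one_le_iff_ne_zero, ne_eq, ENat.toNat_eq_zero]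
  tauto

/-- the number of clusters in terms of the number of zeros -/
lemma clu3_le_cnt {ε h₀ τ η B T σ V : ℝ} (hε : 0 < ε) (hε1 : ε ≤ 1) (hh₀ : 0 < h₀)
    (hh₀1 : h₀ ≤ 1 / 10) (hT : 2 ≤ T) :
    (clu3 ε h₀ τ η B T σ 0 V : ℝ) ≤
      1 + 3 * cnt {ρ : ℂ | riemannZeta ρ = 0 ∧ σ - h₀ ≤ ρ.re ∧ 0 < ρ.im ∧ ρ.im ≤ V + 2} := by
  classical
  set K : Set ℕ := {n : ℕ | (0 : ℝ) ≤ n ∧ (n : ℝ) ≤ V ∧ ∃ w : ℂ, σ ≤ w.re ∧ (n : ℝ) ≤ w.im ∧
    w.im ≤ n + 1 ∧ Ext3 ε h₀ τ η B T w} with hK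
  have hKf : K.Finite := clu3_finite ε h₀ τ η B T σ 0 V
  set Zs : Set ℂ := {ρ : ℂ | riemannZeta ρ = 0 ∧ σ - h₀ ≤ ρ.re ∧ 0 < ρ.im ∧ ρ.im ≤ V + 2} with hZs
  have hZf : Zs.Finite := by
    refine (finite_region (σ - h₀) 0 (V + 2)).subset ?_
    rintro s ⟨h1, h2, h3, h4⟩
    exact ⟨h1, h2, h3.le, h4⟩
  have hlogT : 0 < Real.log T := Real.log_pos (by linarith)
  have hex : ∀ n ∈ K, ∃ ρ : ℂ, riemannZeta ρ = 0 ∧ σ - h₀ ≤ ρ.re ∧ (n : ℝ) - 1 / 2 ≤ ρ.im ∧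
      ρ.im ≤ n + 3 / 2 := by
    rintro n ⟨-, -, w, hw1, hw2, hw3, -, hw4, -⟩
    obtain ⟨b, hb, hcount⟩ := hw4 h₀ le_rfl hh₀1
    have hx : 0 < ε * h₀ := by positivity
    have hx1 : ε * h₀ ≤ 1 * (1 / 10) := by gcongr
    have hpos : 0 < c0 / 64 * (ε * h₀) / (Real.log (1 / (ε * h₀))) ^ 4 * Real.log T := by
      have h1 : 0 < Real.log (1 / (ε * h₀)) := Real.log_pos (by rw [lt_div_iff₀ hx]; linarith)
      have := c0_pos
      positivity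
    have h2 : 0 < cnt (Zd ⟨w.re, b⟩ h₀) := by
      have : (0 : ℝ) < (cnt (Zd ⟨w.re, b⟩ h₀) : ℕ) := lt_of_lt_of_le hpos hcount
      exact_mod_cast this
    obtain ⟨ρ, h3, h4⟩ := cnt_pos h2
    have h5 := abs_le.1 ((Complex.abs_re_le_norm (ρ - ⟨w.re, b⟩)).trans h4)
    have h6 := abs_le.1 ((Complex.abs_im_le_norm (ρ - ⟨w.re, b⟩)).trans h4)
    simp only [Complex.sub_re, Complex.sub_im] at h5 h6
    have h7 : Real.sqrt h₀ ≤ 2 / 5 := by
      rw [Real.sqrt_le_left (by norm_num)]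
      linarith
    have h8 := abs_le.1 hb
    exact ⟨ρ, h3, by linarith [h5.1], by linarith [h6.1, h8.1], by linarith [h6.2, h8.2]⟩
  choose! f hf1 hf2 hf3 hf4 using hex
  set F : Finset ℕ := hKf.toFinset with hF
  have hFK : ∀ n ∈ F, n ∈ K := fun n hn => by rwa [hF, Set.Finite.mem_toFinset] at hn
  set F1 : Finset ℕ := F.filter (fun n => 1 ≤ n) with hF1
  have hF1K : ∀ n ∈ F1, n ∈ K ∧ 1 ≤ n := fun n hn =>
    ⟨hFK n (Finset.mem_filter.1 hn).1, (Finset.mem_filter.1 hn).2⟩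
  have hcard1 : F.card ≤ 1 + F1.card := by
    have : F ⊆ {0} ∪ F1 := by
      intro n hn
      rw [Finset.mem_union, Finset.mem_singleton, hF1, Finset.mem_filter]
      rcases Nat.eq_zero_or_pos n with h0 | h0
      · exact Or.inl h0
      · exact Or.inr ⟨hn, h0⟩
    exact (Finset.card_le_card this).trans ((Finset.card_union_le _ _).trans (by simp))
  have hcard2 : F1.card ≤ 3 * (F1.image f).card := by
    refine Finset.card_le_mul_card_image F1 3 fun z hz => ?_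
    have hsub : {a ∈ F1 | f a = z} ⊆ Finset.Icc (⌈z.im - 3 / 2⌉₊) (⌈z.im - 3 / 2⌉₊ + 2) := by
      intro n hn
      rw [Finset.mem_filter] at hn
      obtain ⟨hnF, hfn⟩ := hn
      obtain ⟨hnK, hn1⟩ := hF1K n hnF
      have h3 := hf3 n hnK
      have h4 := hf4 n hnK
      rw [hfn] at h3 h4
      rw [Finset.mem_Icc]
      constructor
      · rw [Nat.ceil_le]; linarith
      · have h5 : z.im - 3 / 2 ≤ ⌈z.im - 3 / 2⌉₊ := Nat.le_ceil _
        have h6 : (n : ℝ) ≤ ⌈z.im - 3 / 2⌉₊ + 2 := by linarith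
        exact_mod_cast h6
    refine (Finset.card_le_card hsub).trans ?_
    rw [Nat.card_Icc]
    omega
  have hcard3 : (F1.image f).card ≤ cnt Zs := by
    have h1 : (F1.image f).card ≤ ∑ z ∈ F1.image f, analyticOrderNatAt riemannZeta z := by
      rw [Finset.card_eq_sum_ones]
      refine Finset.sum_le_sum fun z hz => ?_
      rw [Finset.mem_image] at hz
      obtain ⟨n, hn, rfl⟩ := hz
      obtain ⟨hnK, hn1⟩ := hF1K n hn
      have hn1' : (1 : ℝ) ≤ n := by exact_mod_cast hn1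
      have h3 := hf3 n hnK
      have him : 0 < (f n).im := by linarith
      exact order_pos_of_zero him (hf1 n hnK)
    refine h1.trans (sum_le_cnt hZf _ fun z hz => ?_)
    rw [Finset.mem_image] at hz
    obtain ⟨n, hn, rfl⟩ := hz
    obtain ⟨hnK, hn1⟩ := hF1K n hn
    have hn1' : (1 : ℝ) ≤ n := by exact_mod_cast hn1
    have h3 := hf3 n hnK
    have h4 := hf4 n hnK
    have h5 : (n : ℝ) ≤ V := hnK.2.1
    exact ⟨hf1 n hnK, hf2 n hnK, by linarith, by linarith⟩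
  have hcl : clu3 ε h₀ τ η B T σ 0 V = F.card := by
    unfold clu3
    rw [hF, ← Set.ncard_eq_toFinset_card K hKf]
  rw [hcl]
  have : F.card ≤ 1 + 3 * cnt Zs := by omega
  exact_mod_cast this

theorem chyp_of_dhyp (h : DHyp) : CHyp := by
  intro ε hε hε1
  obtain ⟨C1, T1, hC1, h1⟩ := h (ε / 2) (by positivity)
  refine ⟨ε / 10, ε, ε, by positivity, by linarith, hε, le_rfl, hε, le_rfl, 1 + 3 * (C1 * 27) + 3,
    max (max T1 3) 3, by positivity, ?_⟩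
  intro T hT σ hσ1 hσ2
  have hTT1 : T1 ≤ T := (le_max_left _ _).trans ((le_max_left _ _).trans hT)
  have hT3 : 3 ≤ T := (le_max_right _ _).trans hT
  have hTpos : 0 < T := by linarith
  have hT' : ∀ x y : ℝ, x ≤ y → T ^ x ≤ T ^ y := fun x y h =>
    Real.rpow_le_rpow_of_exponent_le (by linarith) h
  obtain ⟨X, hX⟩ : ∃ X : ℝ, X = T ^ (2 * (1 - σ) + ε) := ⟨_, rfl⟩
  rw [← hX]
  have hX1 : 1 ≤ X := by rw [hX]; exact Real.one_le_rpow (by linarith) (by linarith)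
  rcases lt_or_ge (σ - ε / 10) (1 / 2) with hcase | hcase
  · have h2 : (clu3 ε (ε / 10) ε ε (T ^ (ε / 2)) T σ 0 (2 * T) : ℝ) ≤ 2 * T + 1 := by
      have h3 : clu3 ε (ε / 10) ε ε (T ^ (ε / 2)) T σ 0 (2 * T) ≤ ⌊2 * T⌋₊ + 1 := by
        unfold clu3
        have h4 : {n : ℕ | (0 : ℝ) ≤ n ∧ (n : ℝ) ≤ 2 * T ∧ ∃ w : ℂ, σ ≤ w.re ∧ (n : ℝ) ≤ w.im ∧
            w.im ≤ n + 1 ∧ Ext3 ε (ε / 10) ε ε (T ^ (ε / 2)) T w} ⊆
            ((Finset.range (⌊2 * T⌋₊ + 1) : Finset ℕ) : Set ℕ) := by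
          rintro n ⟨-, h2, -⟩
          rw [Finset.mem_coe, Finset.mem_range]
          have := Nat.le_floor h2
          omega
        refine (Set.ncard_le_ncard h4 (Finset.finite_toSet _)).trans ?_
        rw [Set.ncard_coe_finset, Finset.card_range]
      have h4 : ((clu3 ε (ε / 10) ε ε (T ^ (ε / 2)) T σ 0 (2 * T) : ℕ) : ℝ) ≤ ⌊2 * T⌋₊ + 1 := by
        exact_mod_cast h3
      have h5 : ((⌊2 * T⌋₊ : ℕ) : ℝ) ≤ 2 * T := Nat.floor_le (by positivity)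
      linarith
    have h3 : T ≤ X := by
      rw [hX]
      calc T = T ^ (1 : ℝ) := (Real.rpow_one _).symm
        _ ≤ _ := hT' _ _ (by linarith)
    have h4 : 0 ≤ C1 * 27 * X := by positivity
    nlinarith
  · have h2 := clu3_le_cnt (ε := ε) (h₀ := ε / 10) (τ := ε) (η := ε) (B := T ^ (ε / 2)) (T := T)
      (σ := σ) (V := 2 * T) hε hε1 (by positivity) (by linarith) (by linarith)
    have h3 := h1 (2 * T + 2) (by linarith) (σ - ε / 10) hcase (by linarith)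
    have h4 : (2 * T + 2) ^ (2 * (1 - (σ - ε / 10)) + ε / 2) ≤ 27 * X := by
      have h5 : 0 ≤ 2 * (1 - (σ - ε / 10)) + ε / 2 := by linarith
      have h6 : 2 * (1 - (σ - ε / 10)) + ε / 2 ≤ 3 := by linarith
      calc (2 * T + 2) ^ (2 * (1 - (σ - ε / 10)) + ε / 2) ≤
            (3 * T) ^ (2 * (1 - (σ - ε / 10)) + ε / 2) := by
            apply Real.rpow_le_rpow (by positivity) (by linarith) h5
        _ = 3 ^ (2 * (1 - (σ - ε / 10)) + ε / 2) * T ^ (2 * (1 - (σ - ε / 10)) + ε / 2) := by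
            rw [Real.mul_rpow (by norm_num) hTpos.le]
        _ ≤ 3 ^ (3 : ℝ) * X := by
            rw [hX]
            have h7 : (3 : ℝ) ^ (2 * (1 - (σ - ε / 10)) + ε / 2) ≤ 3 ^ (3 : ℝ) :=
              Real.rpow_le_rpow_of_exponent_le (by norm_num) h6
            have h8 := hT' (2 * (1 - (σ - ε / 10)) + ε / 2) (2 * (1 - σ) + ε) (by linarith)
            gcongr
        _ = 27 * X := by norm_num
    have h5 : C1 * (2 * T + 2) ^ (2 * (1 - (σ - ε / 10)) + ε / 2) ≤ C1 * (27 * X) :=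
      mul_le_mul_of_nonneg_left h4 hC1.le
    have h6 : (cnt {ρ : ℂ | riemannZeta ρ = 0 ∧ σ - ε / 10 ≤ ρ.re ∧ 0 < ρ.im ∧
        ρ.im ≤ 2 * T + 2} : ℝ) ≤ C1 * (27 * X) := h3.trans h5
    refine h2.trans ?_
    nlinarith

theorem dhyp_iff : DHyp ↔ CHyp := ⟨chyp_of_dhyp, dhyp_of_chyp⟩

end Pool.Agent.K9h52.DX
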