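import Pool.Agent.K9h52.DX.Main3

/-!
The final estimate and the equivalence with the density hypothesis.
-/

open Complex Metric Set Filter Topology

namespace Pool.Agent.K9h52.DX

open H370 H370.Loc DH31

/-- the trivial bound -/
lemma triv_count : ∃ C : ℝ, 0 < C ∧ ∀ T : ℝ, 3 ≤ T → ∀ U H : ℝ, 0 ≤ U → 1 ≤ H → U + H ≤ T →
    ∀ σ : ℝ, 1 / 2 ≤ σ →
    (cnt {ρ : ℂ | riemannZeta ρ = 0 ∧ σ ≤ ρ.re ∧ U < ρ.im ∧ ρ.im ≤ U + H} : ℝ) ≤
      C * (H * Real.log T) := by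
  classical
  obtain ⟨C3, hC3, hwin⟩ := DH31.windows_to_count
  refine ⟨4 * C3, by positivity, ?_⟩
  intro T hT U H hU hH hUH σ hσ
  have hTpos : 0 < T := by linarith
  have hlog1 : 1 ≤ Real.log T := by
    rw [Real.le_log_iff_exp_le hTpos]
    have := Real.exp_one_lt_d9
    linarith
  have hcnt := hwin T hT {ρ : ℂ | riemannZeta ρ = 0 ∧ σ ≤ ρ.re ∧ U < ρ.im ∧ ρ.im ≤ U + H}
    (by
      rintro ρ ⟨a1, a2, a3, a4⟩
      exact ⟨a1, hσ.trans a2, by linarith, by linarith⟩)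
    (Finset.Icc ⌊U⌋₊ (⌊U⌋₊ + ⌊H⌋₊ + 1))
    (by
      intro w hw hw3
      obtain ⟨a1, a2, a3, a4⟩ := hw
      set n : ℕ := ⌈w.im⌉₊ - 1 with hn
      have hceil : 1 ≤ ⌈w.im⌉₊ := Nat.one_le_iff_ne_zero.2 (by
        intro h; rw [Nat.ceil_eq_zero] at h; linarith)
      have hn1 : ((n : ℕ) : ℝ) + 1 = (⌈w.im⌉₊ : ℝ) := by
        rw [hn]
        have : ((⌈w.im⌉₊ - 1 : ℕ) : ℝ) = (⌈w.im⌉₊ : ℝ) - 1 := by
          push_cast [Nat.cast_sub hceil]; ring
        rw [this]; ring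
      have h10 : (n : ℝ) < w.im := by
        have := Nat.ceil_lt_add_one (show 0 ≤ w.im by linarith)
        linarith
      have h11 : w.im ≤ n + 1 := by rw [hn1]; exact Nat.le_ceil _
      have f1 : (⌊U⌋₊ : ℝ) ≤ U := Nat.floor_le hU
      have f2 : U < ⌊U⌋₊ + 1 := Nat.lt_floor_add_one U
      have f3 : H < ⌊H⌋₊ + 1 := Nat.lt_floor_add_one H
      refine ⟨n, ?_, h10, h11⟩
      rw [Finset.mem_Icc]
      constructor
      · have : (⌊U⌋₊ : ℝ) < n + 1 := by linarith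
        have h6 : ⌊U⌋₊ < n + 1 := by exact_mod_cast this
        omega
      · have : (n : ℝ) < ⌊U⌋₊ + ⌊H⌋₊ + 2 := by linarith
        have h6 : n < ⌊U⌋₊ + ⌊H⌋₊ + 2 := by exact_mod_cast this
        omega)
  have hcard : ((Finset.Icc ⌊U⌋₊ (⌊U⌋₊ + ⌊H⌋₊ + 1)).card : ℝ) ≤ 3 * H := by
    rw [Nat.card_Icc]
    have h3 : ⌊U⌋₊ + ⌊H⌋₊ + 1 + 1 - ⌊U⌋₊ = ⌊H⌋₊ + 2 := by omega
    rw [h3]
    push_cast
    have h5 : (⌊H⌋₊ : ℝ) ≤ H := Nat.floor_le (by linarith)
    linarith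
  refine hcnt.trans ?_
  have h1 : ((Finset.Icc ⌊U⌋₊ (⌊U⌋₊ + ⌊H⌋₊ + 1)).card : ℝ) * (C3 * Real.log T) ≤
      3 * H * (C3 * Real.log T) := mul_le_mul_of_nonneg_right hcard (by positivity)
  have h2 : C3 ≤ C3 * (H * Real.log T) := by
    apply le_mul_of_one_le_right hC3.le
    nlinarith
  linarith

lemma clu3_mono {ε h₀ τ η B T σ σ' V₁ V₂ V₁' V₂' : ℝ} (h1 : σ' ≤ σ) (h2 : V₁' ≤ V₁)
    (h3 : V₂ ≤ V₂') : clu3 ε h₀ τ η B T σ V₁ V₂ ≤ clu3 ε h₀ τ η B T σ' V₁' V₂' := by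
  unfold clu3
  apply Set.ncard_le_ncard _ (clu3_finite _ _ _ _ _ _ _ _ _)
  rintro n ⟨a1, a2, w, a3, a4, a5, a6⟩
  exact ⟨h2.trans a1, a2.trans h3, w, h1.trans a3, a4, a5, a6⟩

/-- the exponent -/
noncomputable def expo (σ : ℝ) : ℝ := if σ < 3 / 4 then 2 * (1 - σ) else (1 - σ) / (2 * σ - 1)

lemma expo_nonneg {σ : ℝ} (h1 : σ ≤ 1) : 0 ≤ expo σ := by
  unfold expo
  split_ifs with h
  · linarith
  · push Not at h
    apply div_nonneg <;> linarith

lemma expo_le {σ : ℝ} (h1 : σ ≤ 1) : expo σ ≤ 2 * (1 - σ) := by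
  unfold expo
  split_ifs with h
  · exact le_rfl
  · push Not at h
    rw [div_le_iff₀ (by linarith)]
    nlinarith

set_option maxHeartbeats 1000000 in
theorem main4 {ε h₀ τ η : ℝ} (hε : 0 < ε) (hε1 : ε ≤ 1) (hh₀ : 0 < h₀) (hτ : 0 < τ)
    (hη : 0 < η) :
    ∃ A C T0 : ℝ, 0 < A ∧ 0 < C ∧ ∀ T : ℝ, T0 ≤ T → ∀ B : ℝ, 1 ≤ B → B ≤ T →
      ∀ U H : ℝ, 0 ≤ U → 1 ≤ H → U + H ≤ T → ∀ σ : ℝ, 1 / 2 ≤ σ → σ ≤ 1 →
      (cnt {ρ : ℂ | riemannZeta ρ = 0 ∧ σ ≤ ρ.re ∧ U < ρ.im ∧ ρ.im ≤ U + H} : ℝ) ≤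
        C * (B ^ 2 * T ^ ε * H ^ (expo σ)) +
        C * (B * Real.log T * clu3 ε h₀ τ η B T (σ - τ) (U - A * B) (U + H + A * B)) := by
  obtain ⟨δs, hδs'⟩ : ∃ δs : ℝ, δs = min (ε / 100) (τ / 2) := ⟨_, rfl⟩
  have hδs : 0 < δs := by rw [hδs']; exact lt_min (by positivity) (by positivity)
  have hδsε : δs ≤ ε / 100 := by rw [hδs']; exact min_le_left _ _
  have hδsτ : δs ≤ τ / 2 := by rw [hδs']; exact min_le_right _ _
  obtain ⟨Ct, hCt, htriv⟩ := triv_count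
  obtain ⟨A1, C1, T1, hA1, hC1, h1⟩ := main_gen (e := fun σ => 2 * (1 - σ)) (J := Icc (1 / 2) 1)
    hε hε1 hh₀ hτ hη hδs (by linarith) Subset.rfl
    (fun σ hσ => ⟨by linarith [hσ.2], by linarith [hσ.1]⟩)
    (fun δ C0 hδ hC0 => blk_mv (by positivity) (by linarith) (by positivity) hC0)
  obtain ⟨A2, C2, T2, hA2, hC2, h2⟩ := main_gen (e := fun σ => (1 - σ) / (2 * σ - 1))
    (J := Icc (2 / 3) 1) hε hε1 hh₀ hτ hη hδs (by linarith)
    (Icc_subset_Icc (by norm_num) le_rfl)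
    (fun σ hσ => by
      obtain ⟨g1, g2⟩ := hσ
      constructor
      · apply div_nonneg <;> linarith
      · rw [div_le_one (by linarith)]; linarith)
    (fun δ C0 hδ hC0 => blk_hux (by positivity) (by linarith) (by positivity) hC0)
  have ev := DH31.ev_log 1 (ε / 10) 1 (by positivity)
  obtain ⟨T4, hT4⟩ := Filter.eventually_atTop.1 ev
  refine ⟨max A1 A2, max Ct (max C1 C2), max (max T1 T2) (max T4 3), lt_max_of_lt_left hA1,
    lt_max_of_lt_left hCt, ?_⟩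
  intro T hT B hB1 hBT U H hU hH1 hUH σ hσ1 hσ2
  have hTT1 : T1 ≤ T := (le_max_left _ _).trans ((le_max_left _ _).trans hT)
  have hTT2 : T2 ≤ T := (le_max_right _ _).trans ((le_max_left _ _).trans hT)
  have hTT4 : T4 ≤ T := (le_max_left _ _).trans ((le_max_right _ _).trans hT)
  have hT3 : 3 ≤ T := (le_max_right _ _).trans ((le_max_right _ _).trans hT)
  have hTpos : 0 < T := by linarith
  have hH0 : 0 < H := by linarith
  have hB0 : 0 < B := by linarith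
  have hHT : H ≤ T := by linarith
  have hlog : Real.log T ≤ T ^ (ε / 10) := by
    have := hT4 T hTT4
    simpa using this
  have hlog0 : 0 ≤ Real.log T := Real.log_nonneg (by linarith)
  have hT' : ∀ x y : ℝ, x ≤ y → T ^ x ≤ T ^ y := fun x y h =>
    Real.rpow_le_rpow_of_exponent_le (by linarith) h
  obtain ⟨C, hC⟩ : ∃ C : ℝ, C = max Ct (max C1 C2) := ⟨_, rfl⟩
  obtain ⟨A, hA⟩ : ∃ A : ℝ, A = max A1 A2 := ⟨_, rfl⟩
  rw [← hC, ← hA]
  have hCCt : Ct ≤ C := by rw [hC]; exact le_max_left _ _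
  have hCC1 : C1 ≤ C := by rw [hC]; exact (le_max_left _ _).trans (le_max_right _ _)
  have hCC2 : C2 ≤ C := by rw [hC]; exact (le_max_right _ _).trans (le_max_right _ _)
  have hAA1 : A1 ≤ A := by rw [hA]; exact le_max_left _ _
  have hAA2 : A2 ≤ A := by rw [hA]; exact le_max_right _ _
  have hC0 : 0 < C := lt_of_lt_of_le hCt hCCt
  obtain ⟨cl, hcl⟩ : ∃ cl : ℝ, cl = ((clu3 ε h₀ τ η B T (σ - τ) (U - A * B) (U + H + A * B) : ℕ) : ℝ)
    := ⟨_, rfl⟩
  rw [← hcl]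
  have hcl0 : 0 ≤ cl := by rw [hcl]; positivity
  have hsec0 : 0 ≤ C * (B * Real.log T * cl) := by positivity
  have hBsq : 1 ≤ B ^ 2 := one_le_pow₀ hB1
  -- the second terms
  have hclm : ∀ A' : ℝ, A' ≤ A → ((clu3 ε h₀ τ η B T (σ - 2 * δs) (U - A' * B)
      (U + H + A' * B) : ℕ) : ℝ) ≤ cl := by
    intro A' hA'
    rw [hcl]
    have h3 : A' * B ≤ A * B := mul_le_mul_of_nonneg_right hA' hB0.le
    exact_mod_cast clu3_mono (by linarith) (by linarith) (by linarith)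
  rcases lt_or_ge (σ - 2 * δs) (1 / 2) with hcase | hcase
  · -- trivial range
    have hσlt : σ < 3 / 4 := by linarith
    have hexp : expo σ = 2 * (1 - σ) := by unfold expo; rw [if_pos hσlt]
    rw [hexp]
    have h3 := htriv T hT3 U H hU hH1 hUH σ hσ1
    have hHH : H ≤ H ^ (2 * (1 - σ)) * T ^ (ε / 5) := by
      have h1 : H = H ^ (2 * (1 - σ)) * H ^ (2 * σ - 1) := by
        rw [← Real.rpow_add hH0]
        have : 2 * (1 - σ) + (2 * σ - 1) = 1 := by ring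
        rw [this, Real.rpow_one]
      have h2 : H ^ (2 * σ - 1) ≤ T ^ (ε / 5) := by
        calc H ^ (2 * σ - 1) ≤ T ^ (2 * σ - 1) := by
              apply Real.rpow_le_rpow hH0.le hHT; linarith
          _ ≤ T ^ (ε / 5) := hT' _ _ (by linarith)
      calc H = H ^ (2 * (1 - σ)) * H ^ (2 * σ - 1) := h1
        _ ≤ _ := by gcongr
    have h4 : H * Real.log T ≤ B ^ 2 * T ^ ε * H ^ (2 * (1 - σ)) := by
      calc H * Real.log T ≤ (H ^ (2 * (1 - σ)) * T ^ (ε / 5)) * T ^ (ε / 10) := by gcongr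
        _ = 1 * (T ^ (ε / 5) * T ^ (ε / 10)) * H ^ (2 * (1 - σ)) := by ring
        _ ≤ B ^ 2 * T ^ ε * H ^ (2 * (1 - σ)) := by
            rw [← Real.rpow_add hTpos]
            have : T ^ (ε / 5 + ε / 10) ≤ T ^ ε := hT' _ _ (by linarith)
            gcongr
    have h5 : Ct * (H * Real.log T) ≤ C * (B ^ 2 * T ^ ε * H ^ (2 * (1 - σ))) := by gcongr
    linarith
  · rcases lt_or_ge σ (3 / 4) with hs | hs
    · have hexp : expo σ = 2 * (1 - σ) := by unfold expo; rw [if_pos hs]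
      rw [hexp]
      have h3 := h1 T hTT1 B hB1 hBT U H hU hH1 hUH σ hσ1 ⟨hcase, by linarith⟩
      refine h3.trans (add_le_add ?_ ?_)
      · have h4 : H ^ (2 * (1 - (σ - 2 * δs))) ≤ H ^ (2 * (1 - σ)) * T ^ (ε / 5) := by
          have h5 : H ^ (2 * (1 - (σ - 2 * δs))) = H ^ (2 * (1 - σ)) * H ^ (4 * δs) := by
            rw [← Real.rpow_add hH0]
            congr 1
            ring
          rw [h5]
          have h6 : H ^ (4 * δs) ≤ T ^ (ε / 5) := by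
            calc H ^ (4 * δs) ≤ T ^ (4 * δs) := by
                  apply Real.rpow_le_rpow hH0.le hHT; positivity
              _ ≤ T ^ (ε / 5) := hT' _ _ (by linarith)
          gcongr
        have h7 : T ^ (7 * (ε / 10)) * (H ^ (2 * (1 - σ)) * T ^ (ε / 5)) * T ^ (ε / 10) =
            T ^ ε * H ^ (2 * (1 - σ)) := by
          have : T ^ ε = T ^ (7 * (ε / 10)) * T ^ (ε / 5) * T ^ (ε / 10) := by
            rw [← Real.rpow_add hTpos, ← Real.rpow_add hTpos]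
            congr 1
            ring
          rw [this]; ring
        calc C1 * (B ^ 2 * (T ^ (7 * (ε / 10)) * H ^ (2 * (1 - (σ - 2 * δs)))) * Real.log T) ≤
              C * (B ^ 2 * (T ^ (7 * (ε / 10)) * (H ^ (2 * (1 - σ)) * T ^ (ε / 5))) *
                T ^ (ε / 10)) := by gcongr
          _ = C * (B ^ 2 * (T ^ (7 * (ε / 10)) * (H ^ (2 * (1 - σ)) * T ^ (ε / 5)) *
                T ^ (ε / 10))) := by ring
          _ = _ := by rw [h7]; ring
      · have := hclm A1 hAA1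
        gcongr
    · have hexp : expo σ = (1 - σ) / (2 * σ - 1) := by
        unfold expo; rw [if_neg (by linarith)]
      rw [hexp]
      have h3 := h2 T hTT2 B hB1 hBT U H hU hH1 hUH σ hσ1 ⟨by linarith, by linarith⟩
      refine h3.trans (add_le_add ?_ ?_)
      · have hexpdiff : (1 - (σ - 2 * δs)) / (2 * (σ - 2 * δs) - 1) ≤
            (1 - σ) / (2 * σ - 1) + ε / 10 := by
          have g1 : 0 < 2 * (σ - 2 * δs) - 1 := by linarith
          have g2 : 0 < 2 * σ - 1 := by linarith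
          rw [div_add' _ _ _ g2.ne', div_le_div_iff₀ g1 g2]
          have g3 : 1 / 2 ≤ 2 * σ - 1 := by linarith
          have g4 : 9 / 20 ≤ 2 * (σ - 2 * δs) - 1 := by linarith
          have g5 : 1 / 2 * (9 / 20) ≤ (2 * σ - 1) * (2 * (σ - 2 * δs) - 1) :=
            mul_le_mul g3 g4 (by norm_num) (by linarith)
          have g6 : ε / 10 * (1 / 2 * (9 / 20)) ≤
              ε / 10 * ((2 * σ - 1) * (2 * (σ - 2 * δs) - 1)) :=
            mul_le_mul_of_nonneg_left g5 (by positivity)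
          have g7 : (1 - (σ - 2 * δs)) * (2 * σ - 1) =
              (1 - σ) * (2 * (σ - 2 * δs) - 1) + 2 * δs := by ring
          have g8 : (1 - σ + ε / 10 * (2 * σ - 1)) * (2 * (σ - 2 * δs) - 1) =
              (1 - σ) * (2 * (σ - 2 * δs) - 1) +
              ε / 10 * ((2 * σ - 1) * (2 * (σ - 2 * δs) - 1)) := by ring
          rw [g7, g8]
          linarith
        have h4 : H ^ ((1 - (σ - 2 * δs)) / (2 * (σ - 2 * δs) - 1)) ≤
            H ^ ((1 - σ) / (2 * σ - 1)) * T ^ (ε / 10) := by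
          calc H ^ ((1 - (σ - 2 * δs)) / (2 * (σ - 2 * δs) - 1)) ≤
                H ^ ((1 - σ) / (2 * σ - 1) + ε / 10) :=
                Real.rpow_le_rpow_of_exponent_le hH1 hexpdiff
            _ = H ^ ((1 - σ) / (2 * σ - 1)) * H ^ (ε / 10) := Real.rpow_add hH0 _ _
            _ ≤ H ^ ((1 - σ) / (2 * σ - 1)) * T ^ (ε / 10) := by
                have : H ^ (ε / 10) ≤ T ^ (ε / 10) := by
                  apply Real.rpow_le_rpow hH0.le hHT; positivity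
                gcongr
        have h7 : T ^ (7 * (ε / 10)) * (H ^ ((1 - σ) / (2 * σ - 1)) * T ^ (ε / 10)) * T ^ (ε / 10) ≤
            T ^ ε * H ^ ((1 - σ) / (2 * σ - 1)) := by
          have h8 : T ^ (7 * (ε / 10)) * T ^ (ε / 10) * T ^ (ε / 10) ≤ T ^ ε := by
            rw [← Real.rpow_add hTpos, ← Real.rpow_add hTpos]
            exact hT' _ _ (by linarith)
          calc T ^ (7 * (ε / 10)) * (H ^ ((1 - σ) / (2 * σ - 1)) * T ^ (ε / 10)) * T ^ (ε / 10) =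
                (T ^ (7 * (ε / 10)) * T ^ (ε / 10) * T ^ (ε / 10)) *
                  H ^ ((1 - σ) / (2 * σ - 1)) := by ring
            _ ≤ _ := by gcongr
        calc C2 * (B ^ 2 * (T ^ (7 * (ε / 10)) *
              H ^ ((1 - (σ - 2 * δs)) / (2 * (σ - 2 * δs) - 1))) * Real.log T) ≤
              C * (B ^ 2 * (T ^ (7 * (ε / 10)) * (H ^ ((1 - σ) / (2 * σ - 1)) * T ^ (ε / 10))) *
                T ^ (ε / 10)) := by gcongr
          _ = C * (B ^ 2 * (T ^ (7 * (ε / 10)) * (H ^ ((1 - σ) / (2 * σ - 1)) * T ^ (ε / 10)) *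
                T ^ (ε / 10))) := by ring
          _ ≤ C * (B ^ 2 * (T ^ ε * H ^ ((1 - σ) / (2 * σ - 1)))) := by gcongr
          _ = _ := by ring
      · have := hclm A2 hAA2
        gcongr

end Pool.Agent.K9h52.DX
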