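import Pool.Agent.H31R2.DH.Assemble

/-!
Large values of short Dirichlet polynomials in short intervals.
-/

open Complex MeasureTheory Set Filter Topology

namespace Pool.Agent.K9h52.DX

open DH31

/-- the coefficients multiplied by `n^(-iM)` -/
noncomputable def twist (b : ArithmeticFunction ℂ) (M : ℕ) : ArithmeticFunction ℂ :=
  ⟨fun n => b n * (n : ℂ) ^ (-(M : ℂ) * I), by simp⟩

lemma twist_apply (b : ArithmeticFunction ℂ) (M n : ℕ) :
    twist b M n = b n * (n : ℂ) ^ (-(M : ℂ) * I) := rfl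

lemma norm_pow_I {n : ℕ} (hn : 1 ≤ n) (t : ℝ) : ‖(n : ℂ) ^ (-(t : ℂ) * I)‖ = 1 := by
  rw [Complex.norm_natCast_cpow_of_pos (by omega)]
  simp

lemma twist_norm {b : ArithmeticFunction ℂ} {M n : ℕ} (hn : 1 ≤ n) : ‖twist b M n‖ = ‖b n‖ := by
  rw [twist_apply, norm_mul]
  have := norm_pow_I hn (M : ℝ)
  push_cast at this
  rw [this, mul_one]

lemma twist_ne {b : ArithmeticFunction ℂ} {M n : ℕ} (h : twist b M n ≠ 0) : b n ≠ 0 := by
  intro h0
  apply h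
  rw [twist_apply, h0, zero_mul]

lemma dp_twist (b : ArithmeticFunction ℂ) (M Y : ℕ) (t : ℝ) :
    dp (fun n => twist b M n) Y (t - M) = dp (fun n => b n) Y t := by
  unfold dp
  refine Finset.sum_congr rfl fun n hn => ?_
  rw [Finset.mem_Icc] at hn
  have hn0 : (n : ℂ) ≠ 0 := by
    have : n ≠ 0 := by omega
    exact_mod_cast this
  beta_reduce
  rw [twist_apply, mul_assoc, ← Complex.cpow_add _ _ hn0]
  congr 2
  push_cast
  ring

/-- large values in a window of unit intervals -/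
theorem large_values' {b : ArithmeticFunction ℂ} {N Y m M0 N0 : ℕ} {σ V B : ℝ} (hN : 1 ≤ N)
    (hσ : 0 ≤ σ) (hV : 0 ≤ V) (hs : ∀ n, b n ≠ 0 → N ≤ n ∧ n ≤ Y)
    (hb : ∀ n : ℕ, 1 ≤ n → ‖b n‖ ≤ (n.divisors.card : ℝ) * (n : ℝ) ^ (-σ))
    (hB : ∀ n ∈ Finset.Icc 1 (Y ^ m), (n.divisors.card : ℝ) ^ (4 * m) ≤ B)
    (hB0 : 0 ≤ B)
    (S : Finset ℕ) (hS : S ⊆ Finset.Ico M0 (M0 + N0))
    (t : ℕ → ℝ) (ht : ∀ n ∈ S, t n ∈ Icc (n : ℝ) (n + 1))
    (hlarge : ∀ n ∈ S, V ≤ ‖dp (fun n => b n) Y (t n)‖) :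
    (S.card : ℝ) * V ^ (2 * m) ≤
      (2 + Real.log ((Y ^ m : ℕ) : ℝ) ^ 2) * (N0 + 8 * ((Y ^ m : ℕ) : ℝ) *
        (1 + Real.log ((Y ^ m : ℕ) : ℝ))) *
        (((Y ^ m : ℕ) : ℝ) * ((((N ^ m : ℕ) : ℝ)) ^ (-(2 * σ)) * B)) := by
  classical
  set S' : Finset ℕ := S.image (fun n => n - M0) with hS'
  have hinj : Set.InjOn (fun n => n - M0) (S : Set ℕ) := by
    intro x hx y hy hxy
    have h1 := Finset.mem_Ico.1 (hS hx)
    have h2 := Finset.mem_Ico.1 (hS hy)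
    simp only at hxy
    omega
  have hcard : S'.card = S.card := Finset.card_image_of_injOn hinj
  have key := large_values (b := twist b M0) (N := N) (Y := Y) (m := m) (N0 := N0) (σ := σ)
    (V := V) (B := B) hN hσ hV (fun n hn => hs n (twist_ne hn))
    (fun n hn => by rw [twist_norm hn]; exact hb n hn) hB hB0 S'
    (by
      intro n hn
      rw [hS', Finset.mem_image] at hn
      obtain ⟨x, hx, rfl⟩ := hn
      have h1 := Finset.mem_Ico.1 (hS hx)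
      rw [Finset.mem_range]
      omega)
    (fun n => t (n + M0) - M0)
    (by
      intro n hn
      rw [hS', Finset.mem_image] at hn
      obtain ⟨x, hx, rfl⟩ := hn
      have h1 := Finset.mem_Ico.1 (hS hx)
      have h2 : x - M0 + M0 = x := by omega
      have h3 := ht x hx
      rw [h2]
      have h4 : ((x - M0 : ℕ) : ℝ) = (x : ℝ) - M0 := by
        rw [Nat.cast_sub h1.1]
      rw [h4]
      exact ⟨by linarith [h3.1], by linarith [h3.2]⟩)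
    (by
      intro n hn
      rw [hS', Finset.mem_image] at hn
      obtain ⟨x, hx, rfl⟩ := hn
      have h1 := Finset.mem_Ico.1 (hS hx)
      have h2 : x - M0 + M0 = x := by omega
      rw [h2, dp_twist]
      exact hlarge x hx)
  rw [hcard] at key
  exact key

/-- the number of the unit intervals in a window of length `H` where a short Dirichlet polynomial
is large -/
theorem block_short {κ η C0 : ℝ} (hκ : 0 < κ) (hκ1 : κ ≤ 1) (hη : 0 < η) (hC0 : 0 < C0) :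
    ∃ m0 : ℕ, ∃ C : ℝ, 0 < C ∧ ∃ T0 : ℝ, 1 ≤ T0 ∧ ∀ T : ℝ, T0 ≤ T → ∀ H : ℝ, 1 ≤ H → H ≤ T →
      ∀ σ : ℝ, 1 / 2 ≤ σ → σ ≤ 1 → ∀ (b : ArithmeticFunction ℂ) (N : ℕ), T ^ η ≤ N → (N : ℝ) ≤ T ^ κ →
      (∀ n, b n ≠ 0 → N ≤ n ∧ n ≤ 2 * N) →
      (∀ n : ℕ, 1 ≤ n → ‖b n‖ ≤ (n.divisors.card : ℝ) * (n : ℝ) ^ (-σ)) →
      ∀ V : ℝ, 0 < V → V ≤ 1 → 1 ≤ T ^ κ * V ^ (2 * m0) →
      ∀ M0 N0 : ℕ, (N0 : ℝ) ≤ C0 * H → ∀ S : Finset ℕ, S ⊆ Finset.Ico M0 (M0 + N0) → ∀ t : ℕ → ℝ,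
      (∀ n ∈ S, t n ∈ Icc (n : ℝ) (n + 1)) →
      (∀ n ∈ S, V ≤ ‖dp (fun n => b n) (2 * N) (t n)‖) →
      (S.card : ℝ) ≤ C * (T ^ (6 * κ) * H ^ (2 * (1 - σ))) := by
  set m0 : ℕ := ⌈1 / η⌉₊ + 2 with hm0
  have hm01 : 1 ≤ m0 := by omega
  obtain ⟨Cd, hCd1, hCd⟩ := div_bound (ε := κ / (4 * m0)) (by positivity)
  have ev2 := ev_log (2 + (m0 + 2 : ℝ) ^ 2) κ 2 hκ
  have ev3 := ev_log (1 + (m0 + 2 : ℝ)) κ 1 hκ
  have ev4 : ∀ᶠ T : ℝ in atTop, 2 ≤ T ^ η :=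
    (tendsto_rpow_atTop hη).eventually_ge_atTop _
  have ev6 : ∀ᶠ T : ℝ in atTop, 1 ≤ Real.log T := Real.tendsto_log_atTop.eventually_ge_atTop _
  obtain ⟨T0, hT0⟩ := Filter.eventually_atTop.1 (((ev2.and ev3).and ev4).and
    (ev6.and (eventually_ge_atTop (1 : ℝ))))
  refine ⟨m0, (C0 + 8 * 2 ^ m0) * 2 ^ m0 * (Cd ^ (4 * m0) * 2 ^ m0), by positivity, max T0 1,
    le_max_right _ _, ?_⟩
  intro T hT H hH1 hHT σ hσ1 hσ2 b N hNlarge hNZ hbs hbn V hV0 hV1 hVm0 M0 N0 hN0 S hS t ht hlarge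
  obtain ⟨⟨⟨e2, e3⟩, e4⟩, ⟨e6, e7⟩⟩ := hT0 T ((le_max_left _ _).trans hT)
  have hTpos : 0 < T := by linarith
  have hHpos : 0 < H := by linarith
  have hNr2 : (2 : ℝ) ≤ N := e4.trans hNlarge
  have hNr : (1 : ℝ) ≤ N := by linarith
  have hN1 : 1 ≤ N := by exact_mod_cast hNr
  have hlogN : η * Real.log T ≤ Real.log N := by
    rw [← Real.log_rpow hTpos]
    exact Real.log_le_log (by positivity) hNlarge
  have hlogNpos : 0 < Real.log N := lt_of_lt_of_le (by positivity) hlogN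
  have hlogH0 : 0 ≤ Real.log H := Real.log_nonneg hH1
  have hlogHT : Real.log H ≤ Real.log T := Real.log_le_log hHpos hHT
  -- the power
  set m : ℕ := ⌈Real.log H / Real.log N⌉₊ with hm
  have hm1 : Real.log H / Real.log N ≤ m := Nat.le_ceil _
  have hm2 : (m : ℝ) ≤ Real.log H / Real.log N + 1 :=
    (Nat.ceil_lt_add_one (by positivity)).le
  have hmm0 : m ≤ m0 := by
    have h1 : Real.log H / Real.log N ≤ 1 / η := by
      rw [div_le_div_iff₀ hlogNpos hη]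
      nlinarith
    rw [hm, hm0]
    exact (Nat.ceil_le_ceil h1).trans (by omega)
  have hNm1 : H ≤ (N : ℝ) ^ m := by
    rw [div_le_iff₀ hlogNpos] at hm1
    calc H = Real.exp (Real.log H) := (Real.exp_log hHpos).symm
      _ ≤ Real.exp (m * Real.log N) := Real.exp_le_exp.2 hm1
      _ = (N : ℝ) ^ m := by rw [Real.exp_nat_mul, Real.exp_log (by linarith)]
  have hNm2 : (N : ℝ) ^ m ≤ H * N := by
    calc (N : ℝ) ^ m = Real.exp (m * Real.log N) := by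
          rw [Real.exp_nat_mul, Real.exp_log (by linarith)]
      _ ≤ Real.exp ((Real.log H / Real.log N + 1) * Real.log N) := by
          apply Real.exp_le_exp.2; gcongr
      _ = H * N := by
          rw [add_mul, one_mul, div_mul_cancel₀ _ hlogNpos.ne', Real.exp_add, Real.exp_log hHpos,
            Real.exp_log (by linarith)]
  -- size of Y^m
  set Ym : ℝ := (((2 * N) ^ m : ℕ) : ℝ) with hYm
  have hYm_eq : Ym = 2 ^ m * (N : ℝ) ^ m := by rw [hYm]; push_cast; rw [mul_pow]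
  have hYm1 : 1 ≤ Ym := by
    rw [hYm_eq]
    have h1 : (1 : ℝ) ≤ 2 ^ m := one_le_pow₀ (by norm_num)
    have h2 : (1 : ℝ) ≤ (N : ℝ) ^ m := one_le_pow₀ hNr
    nlinarith
  have h2m : (2 : ℝ) ^ m ≤ 2 ^ m0 := pow_le_pow_right₀ (by norm_num) hmm0
  have hYmH : Ym ≤ 2 ^ m0 * (H * T ^ κ) := by
    rw [hYm_eq]
    calc (2 : ℝ) ^ m * (N : ℝ) ^ m ≤ 2 ^ m0 * (H * N) := by gcongr
      _ ≤ 2 ^ m0 * (H * T ^ κ) := by gcongr
  have hYm2 : Ym ≤ 2 ^ m0 * T ^ (1 + κ) := by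
    rw [Real.rpow_add hTpos, Real.rpow_one]
    refine hYmH.trans ?_
    gcongr
  have hlogYm : Real.log Ym ≤ (m0 + 2) * Real.log T := by
    calc Real.log Ym ≤ Real.log (2 ^ m0 * T ^ (1 + κ)) := Real.log_le_log (by linarith) hYm2
      _ = m0 * Real.log 2 + (1 + κ) * Real.log T := by
          rw [Real.log_mul (by positivity) (by positivity), Real.log_pow, Real.log_rpow hTpos]
      _ ≤ (m0 + 2) * Real.log T := by
          have h1 : Real.log 2 ≤ 1 := by have := Real.log_two_lt_d9; linarith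
          have h2 : (m0 : ℝ) * Real.log 2 ≤ m0 * Real.log T :=
            mul_le_mul_of_nonneg_left (h1.trans e6) (by positivity)
          nlinarith
  have hlogYm0 : 0 ≤ Real.log Ym := Real.log_nonneg hYm1
  have hP2 : 2 + Real.log Ym ^ 2 ≤ T ^ κ := by
    refine le_trans ?_ e2
    have h1 : Real.log Ym ^ 2 ≤ ((m0 + 2) * Real.log T) ^ 2 := by gcongr
    have h2 : (1 : ℝ) ≤ Real.log T ^ 2 := one_le_pow₀ e6
    rw [mul_pow] at h1
    nlinarith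
  have hP3 : 1 + Real.log Ym ≤ T ^ κ := by
    refine le_trans ?_ e3
    rw [pow_one]
    nlinarith
  -- the divisor bound
  set B : ℝ := Cd ^ (4 * m0) * Ym ^ κ with hB
  have hB0 : 0 ≤ B := by positivity
  have hBn : ∀ n ∈ Finset.Icc 1 ((2 * N) ^ m), (n.divisors.card : ℝ) ^ (4 * m) ≤ B := by
    intro n hn
    rw [Finset.mem_Icc] at hn
    have hnr : (1 : ℝ) ≤ n := by exact_mod_cast hn.1
    have h1 := hCd n hn.1
    have hx1 : 1 ≤ Cd * (n : ℝ) ^ (κ / (4 * m0)) := by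
      have : 1 ≤ (n : ℝ) ^ (κ / (4 * m0)) := Real.one_le_rpow hnr (by positivity)
      nlinarith
    calc (n.divisors.card : ℝ) ^ (4 * m) ≤ (Cd * (n : ℝ) ^ (κ / (4 * m0))) ^ (4 * m) := by gcongr
      _ ≤ (Cd * (n : ℝ) ^ (κ / (4 * m0))) ^ (4 * m0) := pow_le_pow_right₀ hx1 (by omega)
      _ = Cd ^ (4 * m0) * (n : ℝ) ^ κ := by
          rw [mul_pow, ← Real.rpow_natCast ((n : ℝ) ^ (κ / (4 * m0))), ← Real.rpow_mul (by positivity)]
          congr 2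
          push_cast
          field_simp
      _ ≤ B := by
          rw [hB]
          have : (n : ℝ) ≤ Ym := by rw [hYm]; exact_mod_cast hn.2
          gcongr
  -- apply the large values estimate
  have hlv := large_values' (b := b) (N := N) (Y := 2 * N) (m := m) (M0 := M0) (N0 := N0) (σ := σ)
    (V := V) (B := B) hN1 (by linarith) hV0.le hbs hbn hBn hB0 S hS t ht hlarge
  rw [← hYm] at hlv
  -- V
  have hVm : 1 ≤ T ^ κ * V ^ (2 * m) := by
    refine hVm0.trans ?_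
    have : V ^ (2 * m0) ≤ V ^ (2 * m) := pow_le_pow_of_le_one hV0.le hV1 (by omega)
    gcongr
  -- first factor
  have hYB : Ym * ((((N ^ m : ℕ) : ℝ)) ^ (-(2 * σ)) * B) ≤
      2 ^ m0 * H ^ (1 - 2 * σ) * (Cd ^ (4 * m0) * (2 ^ m0 * T ^ (2 * κ))) := by
    have h1 : Ym * (((N ^ m : ℕ) : ℝ)) ^ (-(2 * σ)) ≤ 2 ^ m0 * H ^ (1 - 2 * σ) := by
      rw [hYm_eq]
      push_cast
      have hNm0 : 0 < (N : ℝ) ^ m := by positivity
      have h2 : (N : ℝ) ^ m * ((N : ℝ) ^ m) ^ (-(2 * σ)) = ((N : ℝ) ^ m) ^ (1 - 2 * σ) := by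
        rw [sub_eq_add_neg, Real.rpow_add hNm0, Real.rpow_one]
      calc 2 ^ m * (N : ℝ) ^ m * ((N : ℝ) ^ m) ^ (-(2 * σ))
          = 2 ^ m * ((N : ℝ) ^ m) ^ (1 - 2 * σ) := by rw [mul_assoc, h2]
        _ ≤ 2 ^ m0 * H ^ (1 - 2 * σ) := by
            have h3 := Real.rpow_le_rpow_of_nonpos hHpos hNm1 (show 1 - 2 * σ ≤ 0 by linarith)
            gcongr
    have h4 : B ≤ Cd ^ (4 * m0) * (2 ^ m0 * T ^ (2 * κ)) := by
      rw [hB]
      have h5 : Ym ^ κ ≤ 2 ^ m0 * T ^ (2 * κ) := by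
        calc Ym ^ κ ≤ (2 ^ m0 * T ^ (1 + κ)) ^ κ := by gcongr
          _ = (2 ^ m0) ^ κ * T ^ ((1 + κ) * κ) := by
              rw [Real.mul_rpow (by positivity) (by positivity), ← Real.rpow_mul hTpos.le]
          _ ≤ 2 ^ m0 * T ^ (2 * κ) := by
              have h6 : ((2 : ℝ) ^ m0) ^ κ ≤ 2 ^ m0 := by
                have : (1 : ℝ) ≤ 2 ^ m0 := one_le_pow₀ (by norm_num)
                calc ((2 : ℝ) ^ m0) ^ κ ≤ ((2 : ℝ) ^ m0) ^ (1 : ℝ) :=
                      Real.rpow_le_rpow_of_exponent_le this hκ1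
                  _ = _ := Real.rpow_one _
              have h7 : T ^ ((1 + κ) * κ) ≤ T ^ (2 * κ) :=
                Real.rpow_le_rpow_of_exponent_le e7 (by nlinarith)
              gcongr
      gcongr
    calc Ym * ((((N ^ m : ℕ) : ℝ)) ^ (-(2 * σ)) * B) =
          (Ym * (((N ^ m : ℕ) : ℝ)) ^ (-(2 * σ))) * B := by ring
      _ ≤ _ := by gcongr
  -- second factor
  have hTκ1 : 1 ≤ T ^ (2 * κ) := Real.one_le_rpow e7 (by positivity)
  have hN0Y : (N0 : ℝ) + 8 * Ym * (1 + Real.log Ym) ≤ (C0 + 8 * 2 ^ m0) * (H * T ^ (2 * κ)) := by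
    have h1 : 8 * Ym * (1 + Real.log Ym) ≤ 8 * (2 ^ m0 * (H * T ^ κ)) * T ^ κ := by gcongr
    have h2 : 8 * (2 ^ m0 * (H * T ^ κ)) * T ^ κ = 8 * 2 ^ m0 * (H * (T ^ κ * T ^ κ)) := by ring
    have h3 : T ^ κ * T ^ κ = T ^ (2 * κ) := by rw [← Real.rpow_add hTpos]; congr 1; ring
    rw [h2, h3] at h1
    have h4 : C0 * H ≤ C0 * (H * T ^ (2 * κ)) := by
      have : H ≤ H * T ^ (2 * κ) := le_mul_of_one_le_right hHpos.le hTκ1
      gcongr
    linarith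
  -- conclusion
  have hcard : (S.card : ℝ) ≤ T ^ κ * ((S.card : ℝ) * V ^ (2 * m)) := by
    have h1 : (0 : ℝ) ≤ S.card := by positivity
    calc (S.card : ℝ) = S.card * 1 := (mul_one _).symm
      _ ≤ S.card * (T ^ κ * V ^ (2 * m)) := by gcongr
      _ = _ := by ring
  have hfin : (2 + Real.log Ym ^ 2) * (N0 + 8 * Ym * (1 + Real.log Ym)) *
        (Ym * ((((N ^ m : ℕ) : ℝ)) ^ (-(2 * σ)) * B)) ≤
      T ^ κ * ((C0 + 8 * 2 ^ m0) * (H * T ^ (2 * κ))) *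
        (2 ^ m0 * H ^ (1 - 2 * σ) * (Cd ^ (4 * m0) * (2 ^ m0 * T ^ (2 * κ)))) := by
    have h0 : 0 ≤ (N0 : ℝ) + 8 * Ym * (1 + Real.log Ym) := by positivity
    have h00 : 0 ≤ Ym * ((((N ^ m : ℕ) : ℝ)) ^ (-(2 * σ)) * B) := by positivity
    gcongr
  calc (S.card : ℝ) ≤ T ^ κ * ((S.card : ℝ) * V ^ (2 * m)) := hcard
    _ ≤ T ^ κ * (T ^ κ * ((C0 + 8 * 2 ^ m0) * (H * T ^ (2 * κ))) *
        (2 ^ m0 * H ^ (1 - 2 * σ) * (Cd ^ (4 * m0) * (2 ^ m0 * T ^ (2 * κ))))) := by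
        exact mul_le_mul_of_nonneg_left (hlv.trans hfin) (by positivity)
    _ = (C0 + 8 * 2 ^ m0) * 2 ^ m0 * (Cd ^ (4 * m0) * 2 ^ m0) *
        ((T ^ κ * T ^ κ * T ^ (2 * κ) * T ^ (2 * κ)) * (H * H ^ (1 - 2 * σ))) := by ring
    _ = _ := by
        rw [← Real.rpow_add hTpos, ← Real.rpow_add hTpos, ← Real.rpow_add hTpos]
        have h8 : H * H ^ (1 - 2 * σ) = H ^ (2 * (1 - σ)) := by
          nth_rewrite 1 [← Real.rpow_one H]
          rw [← Real.rpow_add hHpos]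
          congr 1
          ring
        rw [h8]
        congr 3
        ring

end Pool.Agent.K9h52.DX
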