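import Pool.Agent.K9h52.DX.Equiv

/-!
The density hypothesis is equivalent to a bound for the number of large values of zeta.
-/

open Complex Metric Set Filter Topology

namespace Pool.Agent.K9h52.DX

open H370 H370.Loc DH31

/-- the number of the unit segments in which zeta has a large value right of `σ` -/
noncomputable def lvs (ε T σ : ℝ) : ℕ :=
  {n : ℕ | 1 ≤ n ∧ (n : ℝ) ≤ T ∧ ∃ s : ℂ, σ ≤ s.re ∧ (n : ℝ) ≤ s.im ∧ s.im ≤ n + 1 ∧
    T ^ ε ≤ ‖riemannZeta s‖}.ncard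

/-- the Lindelöf hypothesis with a small exceptional set -/
def LHyp : Prop := ∀ ε : ℝ, 0 < ε → ∃ C T₀ : ℝ, 0 < C ∧ ∀ T : ℝ, T₀ ≤ T →
  ∀ σ : ℝ, 1 / 2 ≤ σ → σ ≤ 1 → (lvs ε T σ : ℝ) ≤ C * T ^ (2 * (1 - σ) + ε)

lemma lvs_finite (ε T σ : ℝ) :
    {n : ℕ | 1 ≤ n ∧ (n : ℝ) ≤ T ∧ ∃ s : ℂ, σ ≤ s.re ∧ (n : ℝ) ≤ s.im ∧ s.im ≤ n + 1 ∧
      T ^ ε ≤ ‖riemannZeta s‖}.Finite := by
  refine (Set.finite_Iic (⌊T⌋₊)).subset ?_
  rintro n ⟨-, h2, -⟩
  exact Nat.le_floor h2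

lemma ncard_le_of_le {K : Set ℕ} {x : ℝ} (hx : 0 ≤ x) (h : ∀ n ∈ K, (n : ℝ) ≤ x) :
    (K.ncard : ℝ) ≤ x + 1 := by
  have h4 : K ⊆ ((Finset.range (⌊x⌋₊ + 1) : Finset ℕ) : Set ℕ) := by
    intro n hn
    rw [Finset.mem_coe, Finset.mem_range]
    have := Nat.le_floor (h n hn)
    omega
  have h5 := Set.ncard_le_ncard h4 (Finset.finite_toSet _)
  rw [Set.ncard_coe_finset, Finset.card_range] at h5
  have h6 : (K.ncard : ℝ) ≤ ⌊x⌋₊ + 1 := by exact_mod_cast h5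
  have h7 : ((⌊x⌋₊ : ℕ) : ℝ) ≤ x := Nat.floor_le hx
  linarith

/-- a power of a multiple of `T` -/
lemma pow_le_27 {T T' x y : ℝ} (hT : 1 ≤ T) (hT'0 : 0 ≤ T') (hT' : T' ≤ 3 * T) (hx : 0 ≤ x)
    (hx3 : x ≤ 3) (hxy : x ≤ y) : T' ^ x ≤ 27 * T ^ y := by
  have hTpos : 0 < T := by linarith
  calc T' ^ x ≤ (3 * T) ^ x := Real.rpow_le_rpow hT'0 hT' hx
    _ = 3 ^ x * T ^ x := by rw [Real.mul_rpow (by norm_num) hTpos.le]
    _ ≤ 3 ^ (3 : ℝ) * T ^ y := by
        have h7 : (3 : ℝ) ^ x ≤ 3 ^ (3 : ℝ) := Real.rpow_le_rpow_of_exponent_le (by norm_num) hx3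
        have h8 : T ^ x ≤ T ^ y := Real.rpow_le_rpow_of_exponent_le hT hxy
        gcongr
    _ = 27 * T ^ y := by norm_num

theorem lhyp_of_dhyp (h : DHyp) : LHyp := by
  classical
  intro ε hε
  obtain ⟨δ, hδ'⟩ : ∃ δ : ℝ, δ = min (ε / 8) (1 / 8) := ⟨_, rfl⟩
  have hδ : 0 < δ := by rw [hδ']; exact lt_min (by positivity) (by norm_num)
  have hδε : δ ≤ ε / 8 := by rw [hδ']; exact min_le_left _ _
  have hδ1 : δ ≤ 1 / 8 := by rw [hδ']; exact min_le_right _ _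
  obtain ⟨ε1, hε1'⟩ : ∃ ε1 : ℝ, ε1 = min (ε / 2) (1 / 2) := ⟨_, rfl⟩
  have hε1 : 0 < ε1 := by rw [hε1']; exact lt_min (by positivity) (by norm_num)
  have hε1ε : ε1 ≤ ε / 2 := by rw [hε1']; exact min_le_left _ _
  have hε11 : ε1 ≤ 1 / 2 := by rw [hε1']; exact min_le_right _ _
  obtain ⟨C1, T1, hC1, h1⟩ := h ε1 hε1
  obtain ⟨η, hη, T2, hT2, h2⟩ := light_small (δ := δ) (ν := ε / 2) hδ hδ1 (by positivity)
  obtain ⟨Az, hAz1, hAz⟩ := zeta_bounds (a := 9 / 8) (by norm_num)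
  have evz : ∀ᶠ T : ℝ in atTop, Az ≤ T ^ (ε / 2) :=
    (tendsto_rpow_atTop (by positivity)).eventually_ge_atTop _
  obtain ⟨Tz, hTz⟩ := Filter.eventually_atTop.1 evz
  refine ⟨3 + 6 * (C1 * 27) + 2, max (max T1 T2) (max Tz 3), by positivity, ?_⟩
  intro T hT σ hσ1 hσ2
  have hTT1 : T1 ≤ T := (le_max_left _ _).trans ((le_max_left _ _).trans hT)
  have hTT2 : T2 ≤ T := (le_max_right _ _).trans ((le_max_left _ _).trans hT)
  have hTTz : Tz ≤ T := (le_max_left _ _).trans ((le_max_right _ _).trans hT)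
  have hT3 : 3 ≤ T := (le_max_right _ _).trans ((le_max_right _ _).trans hT)
  have hTpos : 0 < T := by linarith
  have hlogT : 0 ≤ Real.log T := Real.log_nonneg (by linarith)
  have hT' : ∀ x y : ℝ, x ≤ y → T ^ x ≤ T ^ y := fun x y h =>
    Real.rpow_le_rpow_of_exponent_le (by linarith) h
  obtain ⟨X, hX⟩ : ∃ X : ℝ, X = T ^ (2 * (1 - σ) + ε) := ⟨_, rfl⟩
  rw [← hX]
  have hX1 : 1 ≤ X := by rw [hX]; exact Real.one_le_rpow (by linarith) (by linarith)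
  have h27 : 0 ≤ C1 * 27 * X := by positivity
  rcases lt_or_ge (σ - δ) (1 / 2) with hcase | hcase
  · have h3 : (lvs ε T σ : ℝ) ≤ T + 1 := ncard_le_of_le hTpos.le (fun n hn => hn.2.1)
    have h4 : T ≤ X := by
      rw [hX]
      calc T = T ^ (1 : ℝ) := (Real.rpow_one _).symm
        _ ≤ _ := hT' _ _ (by linarith)
    nlinarith
  · set Zs : Set ℂ := {ρ : ℂ | riemannZeta ρ = 0 ∧ σ - δ ≤ ρ.re ∧ 0 < ρ.im ∧ ρ.im ≤ T + 3} with hZs
    have hZf : Zs.Finite := by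
      refine (finite_region (σ - δ) 0 (T + 3)).subset ?_
      rintro s ⟨h1, h2, h3, h4⟩
      exact ⟨h1, h2, h3.le, h4⟩
    have hKf := lvs_finite ε T σ
    set K : Set ℕ := {n : ℕ | 1 ≤ n ∧ (n : ℝ) ≤ T ∧ ∃ s : ℂ, σ ≤ s.re ∧ (n : ℝ) ≤ s.im ∧
      s.im ≤ n + 1 ∧ T ^ ε ≤ ‖riemannZeta s‖} with hK
    have hex : ∀ n ∈ K, 3 ≤ n → ∃ ρ : ℂ, riemannZeta ρ = 0 ∧ σ - δ ≤ ρ.re ∧ (n : ℝ) - 2 ≤ ρ.im ∧
        ρ.im ≤ n + 3 := by
      rintro n ⟨-, hnT, s, hs1, hs2, hs3, hs4⟩ hn3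
      have hn3' : (3 : ℝ) ≤ n := by exact_mod_cast hn3
      have hlt : T ^ (ε / 2) < ‖riemannZeta s‖ := by
        refine lt_of_lt_of_le ?_ hs4
        exact Real.rpow_lt_rpow_of_exponent_lt (by linarith) (by linarith)
      have hre : s.re < 9 / 8 := by
        by_contra hcon
        push Not at hcon
        have := ((hAz s hcon).1).trans (hTz T hTTz)
        linarith
      have hcnt : ¬ (cnt (Zd ⟨2, s.im⟩ (2 - s.re + δ)) : ℝ) ≤ η * Real.log T := by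
        intro hcon
        have h3 := h2 T hTT2 s.im (by linarith) (by linarith) (2 - s.re + δ) (by linarith)
          (by linarith) hcon s (by
            rw [mem_closedBall, dist_eq_norm]
            have h2 : s - ⟨2, s.im⟩ = ((-(2 - s.re) : ℝ) : ℂ) := by
              apply Complex.ext <;> simp
            rw [h2, Complex.norm_real, Real.norm_eq_abs, abs_neg, abs_of_nonneg (by linarith)]
            linarith)
        linarith
      push Not at hcnt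
      have hpos : 0 < cnt (Zd ⟨2, s.im⟩ (2 - s.re + δ)) := by
        have : (0 : ℝ) < (cnt (Zd ⟨2, s.im⟩ (2 - s.re + δ)) : ℕ) :=
          lt_of_le_of_lt (by positivity) hcnt
        exact_mod_cast this
      obtain ⟨ρ, h3, h4⟩ := cnt_pos hpos
      have h5 := abs_le.1 ((Complex.abs_re_le_norm (ρ - ⟨2, s.im⟩)).trans h4)
      have h6 := abs_le.1 ((Complex.abs_im_le_norm (ρ - ⟨2, s.im⟩)).trans h4)
      simp only [Complex.sub_re, Complex.sub_im] at h5 h6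
      exact ⟨ρ, h3, by linarith [h5.1], by linarith [h6.1], by linarith [h6.2]⟩
    choose! f hf1 hf2 hf3 hf4 using hex
    set F : Finset ℕ := hKf.toFinset with hF
    have hFK : ∀ n ∈ F, n ∈ K := fun n hn => by rwa [hF, Set.Finite.mem_toFinset] at hn
    set F1 : Finset ℕ := F.filter (fun n => 3 ≤ n) with hF1
    have hF1K : ∀ n ∈ F1, n ∈ K ∧ 3 ≤ n := fun n hn =>
      ⟨hFK n (Finset.mem_filter.1 hn).1, (Finset.mem_filter.1 hn).2⟩
    have hcard1 : F.card ≤ 3 + F1.card := by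
      have : F ⊆ Finset.range 3 ∪ F1 := by
        intro n hn
        rw [Finset.mem_union, Finset.mem_range, hF1, Finset.mem_filter]
        rcases Nat.lt_or_ge n 3 with h0 | h0
        · exact Or.inl h0
        · exact Or.inr ⟨hn, h0⟩
      exact (Finset.card_le_card this).trans ((Finset.card_union_le _ _).trans (by simp))
    have hcard2 : F1.card ≤ 6 * (F1.image f).card := by
      refine Finset.card_le_mul_card_image F1 6 fun z hz => ?_
      have hsub : {a ∈ F1 | f a = z} ⊆ Finset.Icc (⌈z.im - 3⌉₊) (⌈z.im - 3⌉₊ + 5) := by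
        intro n hn
        rw [Finset.mem_filter] at hn
        obtain ⟨hnF, hfn⟩ := hn
        obtain ⟨hnK, hn1⟩ := hF1K n hnF
        have h3 := hf3 n hnK hn1
        have h4 := hf4 n hnK hn1
        rw [hfn] at h3 h4
        rw [Finset.mem_Icc]
        constructor
        · rw [Nat.ceil_le]; linarith
        · have h5 : z.im - 3 ≤ ⌈z.im - 3⌉₊ := Nat.le_ceil _
          have h6 : (n : ℝ) ≤ ⌈z.im - 3⌉₊ + 5 := by linarith
          exact_mod_cast h6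
      refine (Finset.card_le_card hsub).trans ?_
      rw [Nat.card_Icc]
      omega
    have hcard3 : (F1.image f).card ≤ cnt Zs := by
      have h1 : (F1.image f).card ≤ ∑ z ∈ F1.image f, analyticOrderNatAt riemannZeta z := by
        rw [Finset.card_eq_sum_ones]
        refine Finset.sum_le_sum fun z hz => ?_
        rw [Finset.mem_image] at hz
        obtain ⟨n, hn, rfl⟩ := hz
        obtain ⟨hnK, hn1⟩ := hF1K n hn
        have hn1' : (3 : ℝ) ≤ n := by exact_mod_cast hn1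
        have h3 := hf3 n hnK hn1
        have him : 0 < (f n).im := by linarith
        exact order_pos_of_zero him (hf1 n hnK hn1)
      refine h1.trans (sum_le_cnt hZf _ fun z hz => ?_)
      rw [Finset.mem_image] at hz
      obtain ⟨n, hn, rfl⟩ := hz
      obtain ⟨hnK, hn1⟩ := hF1K n hn
      have hn1' : (3 : ℝ) ≤ n := by exact_mod_cast hn1
      have h3 := hf3 n hnK hn1
      have h4 := hf4 n hnK hn1
      have h5 : (n : ℝ) ≤ T := hnK.2.1
      exact ⟨hf1 n hnK hn1, hf2 n hnK hn1, by linarith, by linarith⟩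
    have hcl : lvs ε T σ = F.card := by
      unfold lvs
      rw [hF, ← Set.ncard_eq_toFinset_card K hKf]
    have hF6 : (F.card : ℝ) ≤ 3 + 6 * cnt Zs := by
      have : F.card ≤ 3 + 6 * cnt Zs := by omega
      exact_mod_cast this
    rw [hcl]
    have h3 := h1 (T + 3) (by linarith) (σ - δ) hcase (by linarith)
    have h4 : (T + 3) ^ (2 * (1 - (σ - δ)) + ε1) ≤ 27 * X := by
      rw [hX]
      exact pow_le_27 (by linarith) (by linarith) (by linarith) (by linarith) (by linarith)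
        (by linarith)
    have h5 : C1 * (T + 3) ^ (2 * (1 - (σ - δ)) + ε1) ≤ C1 * (27 * X) :=
      mul_le_mul_of_nonneg_left h4 hC1.le
    have h6 : (cnt Zs : ℝ) ≤ C1 * (27 * X) := h3.trans h5
    nlinarith

theorem chyp_of_lhyp (h : LHyp) : CHyp := by
  classical
  intro ε hε hε1
  obtain ⟨h₀, hh₀'⟩ : ∃ h₀ : ℝ, h₀ = ε / 10 := ⟨_, rfl⟩
  have hh₀ : 0 < h₀ := by rw [hh₀']; positivity
  have hh₀1 : h₀ ≤ 1 / 10 := by rw [hh₀']; linarith
  obtain ⟨ε1, hε1'⟩ : ∃ ε1 : ℝ, ε1 = ε / 16000 * h₀ := ⟨_, rfl⟩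
  have hε10 : 0 < ε1 := by rw [hε1']; positivity
  have hε1ε : ε1 ≤ ε / 2 := by
    rw [hε1']
    nlinarith
  obtain ⟨C1, T1, hC1, h1⟩ := h ε1 hε10
  refine ⟨h₀, ε, ε, hh₀, by linarith, hε, le_rfl, hε, le_rfl, 2 + 3 * (C1 * 27) + 3,
    max T1 3, by positivity, ?_⟩
  intro T hT σ hσ1 hσ2
  have hTT1 : T1 ≤ T := (le_max_left _ _).trans hT
  have hT3 : 3 ≤ T := (le_max_right _ _).trans hT
  have hTpos : 0 < T := by linarith
  have hT' : ∀ x y : ℝ, x ≤ y → T ^ x ≤ T ^ y := fun x y h =>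
    Real.rpow_le_rpow_of_exponent_le (by linarith) h
  obtain ⟨X, hX⟩ : ∃ X : ℝ, X = T ^ (2 * (1 - σ) + ε) := ⟨_, rfl⟩
  rw [← hX]
  have hX1 : 1 ≤ X := by rw [hX]; exact Real.one_le_rpow (by linarith) (by linarith)
  have h27 : 0 ≤ C1 * 27 * X := by positivity
  rcases lt_or_ge (σ - h₀) (1 / 2) with hcase | hcase
  · have h2 : (clu3 ε h₀ ε ε (T ^ (ε / 2)) T σ 0 (2 * T) : ℝ) ≤ 2 * T + 1 :=
      ncard_le_of_le (by positivity) (fun n hn => hn.2.1)
    have h3 : T ≤ X := by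
      rw [hX]
      calc T = T ^ (1 : ℝ) := (Real.rpow_one _).symm
        _ ≤ _ := hT' _ _ (by linarith)
    nlinarith
  · obtain ⟨T2, hT2'⟩ : ∃ T2 : ℝ, T2 = 2 * T + 3 := ⟨_, rfl⟩
    have hT2pow : T2 ^ ε1 ≤ T ^ (ε / 8000 * h₀) := by
      have h3 : T2 ≤ T ^ (2 : ℝ) := by
        rw [hT2', Real.rpow_two]
        nlinarith
      calc T2 ^ ε1 ≤ (T ^ (2 : ℝ)) ^ ε1 := by
            apply Real.rpow_le_rpow (by rw [hT2']; positivity) h3 hε10.le
        _ = T ^ (2 * ε1) := by rw [← Real.rpow_mul hTpos.le]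
        _ = T ^ (ε / 8000 * h₀) := by congr 1; rw [hε1']; ring
    have hKf := clu3_finite ε h₀ ε ε (T ^ (ε / 2)) T σ 0 (2 * T)
    set K : Set ℕ := {n : ℕ | (0 : ℝ) ≤ n ∧ (n : ℝ) ≤ 2 * T ∧ ∃ w : ℂ, σ ≤ w.re ∧ (n : ℝ) ≤ w.im ∧
      w.im ≤ n + 1 ∧ Ext3 ε h₀ ε ε (T ^ (ε / 2)) T w} with hK
    have hLf := lvs_finite ε1 T2 (σ - h₀)
    set Ls : Set ℕ := {n : ℕ | 1 ≤ n ∧ (n : ℝ) ≤ T2 ∧ ∃ s : ℂ, σ - h₀ ≤ s.re ∧ (n : ℝ) ≤ s.im ∧
      s.im ≤ n + 1 ∧ T2 ^ ε1 ≤ ‖riemannZeta s‖} with hLs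
    have hex : ∀ n ∈ K, 2 ≤ n → ∃ m ∈ Ls, m ≤ n + 1 ∧ n ≤ m + 1 := by
      rintro n ⟨-, hnT, w, hw1, hw2, hw3, -, -, hw4⟩ hn2
      have hn2' : (2 : ℝ) ≤ n := by exact_mod_cast hn2
      obtain ⟨z, hz1, hz2, hz3⟩ := hw4 h₀ le_rfl hh₀1
      have h7 : Real.sqrt h₀ ≤ 2 / 5 := by
        rw [Real.sqrt_le_left (by norm_num)]
        linarith
      have hz1' := abs_le.1 hz1
      have hz2' := abs_le.1 hz2
      have him0 : 0 ≤ z.im := by linarith
      have g1 : ((⌊z.im⌋₊ : ℕ) : ℝ) ≤ z.im := Nat.floor_le him0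
      have g2 : z.im < ⌊z.im⌋₊ + 1 := Nat.lt_floor_add_one _
      have g3 : ((⌊z.im⌋₊ : ℕ) : ℝ) < n + 2 := by linarith
      have g3' : ⌊z.im⌋₊ < n + 2 := by exact_mod_cast g3
      have g4 : (n : ℝ) < ⌊z.im⌋₊ + 2 := by linarith
      have g4' : n < ⌊z.im⌋₊ + 2 := by exact_mod_cast g4
      refine ⟨⌊z.im⌋₊, ⟨by omega, ?_, z, by linarith, g1, g2.le, hT2pow.trans hz3⟩, by omega,
        by omega⟩
      rw [hT2']
      linarith
    choose! f hf1 hf2 hf3 using hex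
    set F : Finset ℕ := hKf.toFinset with hF
    have hFK : ∀ n ∈ F, n ∈ K := fun n hn => by rwa [hF, Set.Finite.mem_toFinset] at hn
    set F1 : Finset ℕ := F.filter (fun n => 2 ≤ n) with hF1
    have hF1K : ∀ n ∈ F1, n ∈ K ∧ 2 ≤ n := fun n hn =>
      ⟨hFK n (Finset.mem_filter.1 hn).1, (Finset.mem_filter.1 hn).2⟩
    have hcard1 : F.card ≤ 2 + F1.card := by
      have : F ⊆ Finset.range 2 ∪ F1 := by
        intro n hn
        rw [Finset.mem_union, Finset.mem_range, hF1, Finset.mem_filter]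
        rcases Nat.lt_or_ge n 2 with h0 | h0
        · exact Or.inl h0
        · exact Or.inr ⟨hn, h0⟩
      exact (Finset.card_le_card this).trans ((Finset.card_union_le _ _).trans (by simp))
    have hcard2 : F1.card ≤ 3 * (F1.image f).card := by
      refine Finset.card_le_mul_card_image F1 3 fun m hm => ?_
      have hsub : {a ∈ F1 | f a = m} ⊆ Finset.Icc (m - 1) (m + 1) := by
        intro n hn
        rw [Finset.mem_filter] at hn
        obtain ⟨hnF, hfn⟩ := hn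
        obtain ⟨hnK, hn1⟩ := hF1K n hnF
        have h3 := hf2 n hnK hn1
        have h4 := hf3 n hnK hn1
        rw [hfn] at h3 h4
        rw [Finset.mem_Icc]
        omega
      refine (Finset.card_le_card hsub).trans ?_
      rw [Nat.card_Icc]
      omega
    have hcard3 : (F1.image f).card ≤ lvs ε1 T2 (σ - h₀) := by
      have h3 : ((F1.image f : Finset ℕ) : Set ℕ) ⊆ Ls := by
        intro m hm
        rw [Finset.mem_coe, Finset.mem_image] at hm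
        obtain ⟨n, hn, rfl⟩ := hm
        obtain ⟨hnK, hn1⟩ := hF1K n hn
        exact hf1 n hnK hn1
      have h4 := Set.ncard_le_ncard h3 hLf
      rw [Set.ncard_coe_finset] at h4
      exact h4
    have hcl : clu3 ε h₀ ε ε (T ^ (ε / 2)) T σ 0 (2 * T) = F.card := by
      unfold clu3
      rw [hF, ← Set.ncard_eq_toFinset_card K hKf]
    have hF6 : (F.card : ℝ) ≤ 2 + 3 * lvs ε1 T2 (σ - h₀) := by
      have : F.card ≤ 2 + 3 * lvs ε1 T2 (σ - h₀) := by omega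
      exact_mod_cast this
    rw [hcl]
    have h3 := h1 T2 (by rw [hT2']; linarith) (σ - h₀) hcase (by linarith)
    have h4 : T2 ^ (2 * (1 - (σ - h₀)) + ε1) ≤ 27 * X := by
      rw [hX]
      exact pow_le_27 (by linarith) (by rw [hT2']; linarith) (by rw [hT2']; linarith)
        (by linarith) (by linarith) (by rw [hh₀']; linarith)
    have h5 : C1 * T2 ^ (2 * (1 - (σ - h₀)) + ε1) ≤ C1 * (27 * X) :=
      mul_le_mul_of_nonneg_left h4 hC1.le
    have h6 : (lvs ε1 T2 (σ - h₀) : ℝ) ≤ C1 * (27 * X) := h3.trans h5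
    nlinarith

theorem dhyp_iff_lhyp : DHyp ↔ LHyp :=
  ⟨lhyp_of_dhyp, fun h => dhyp_of_chyp (chyp_of_lhyp h)⟩

end Pool.Agent.K9h52.DX
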