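import Pool.Agent.H31R2.DH.BackZeta

/-!
Zeta in a disc with centre `2 + iy` that contains few zeros.
-/

open Complex Metric Set Filter Topology

namespace Pool.Agent.K9h52.DX

open H370 H370.Loc DH31

lemma light_abs {f : ℂ → ℂ} {c : ℂ} {R R3 δ n M A a : ℝ} (hδ : 0 < δ) (hδ1 : δ ≤ 1 / 8)
    (hR : 3 / 4 ≤ R) (hR3 : R + δ ≤ R3) (hR32 : R3 ≤ 2)
    (hM1 : 1 ≤ M) (hA1 : 1 ≤ A) (ha1 : 1 ≤ a) (hn0 : 0 ≤ n)
    (hf : AnalyticOnNhd ℂ f (closedBall c R3))
    (hM : ∀ z ∈ closedBall c R3, ‖f z‖ ≤ M)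
    (hA : ∀ z ∈ closedBall c (1 / 2), ‖f z‖ ≤ A)
    (ha : 1 / a ≤ ‖f c‖)
    (hz1 : ∀ z ∈ closedBall c R, f z = 0 → 1 ≤ ‖z - c‖)
    (hn : ∀ S : Finset ℂ, (∀ z ∈ S, z ∈ closedBall c R ∧ f z = 0) →
      ∑ z ∈ S, (mult f z : ℝ) ≤ n) (K : ℕ) :
    ∃ (s : Multiset ℂ) (g : ℂ → ℂ), (∀ ρ ∈ s, ρ ∈ closedBall c R) ∧ (Multiset.card s : ℝ) ≤ n ∧
      AnalyticOnNhd ℂ g (closedBall c R3) ∧ (∀ z, f z = Pf s z * g z) ∧
      (∀ z ∈ closedBall c R, g z ≠ 0) ∧
      (∀ z ∈ closedBall c R3, ‖g z‖ ≤ Real.exp (Real.log M + n * Real.log (1 / δ))) ∧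
      (∀ z ∈ closedBall c (R - δ),
        Real.exp (-(Real.log A + Real.log a + n +
          (2 * (Real.log A + Real.log a + 2 * n + 1) * (K * 8 ^ K) +
          8 * (Real.log M + Real.log a + n * Real.log (1 / δ) + n + 1) / δ *
            (1 - δ / 4) ^ K * (4 / δ)))) ≤ ‖g z‖ ∧
        ‖g z‖ ≤ Real.exp (Real.log A + Real.log a + n +
          (2 * (Real.log A + Real.log a + 2 * n + 1) * (K * 8 ^ K) +
          8 * (Real.log M + Real.log a + n * Real.log (1 / δ) + n + 1) / δ *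
            (1 - δ / 4) ^ K * (4 / δ)))) := by
  classical
  have hR0 : 0 < R := by linarith
  have hR30 : 0 < R3 := by linarith
  have hfc : f c ≠ 0 := by
    intro h
    rw [h, norm_zero] at ha
    have : 0 < 1 / a := by positivity
    linarith
  obtain ⟨s, g, hs1, hg, hfg, hg0, -⟩ := extract (r := R) (R := R3) hR0
    (by linarith) hM1 hf hfc hM
  set k := Multiset.card s with hk
  have hkn : (k : ℝ) ≤ n := by
    refine le_trans ?_ (hn s.toFinset fun z hz => hs1 z (Multiset.mem_toFinset.1 hz))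
    have h1 : Multiset.card s = ∑ z ∈ s.toFinset, s.count z := (Multiset.toFinset_sum_count_eq s).symm
    rw [hk, h1]
    push_cast
    refine Finset.sum_le_sum fun z hz => ?_
    have hz0 := hs1 z (Multiset.mem_toFinset.1 hz)
    have hz' : z ∈ closedBall c R3 := closedBall_subset_closedBall (by linarith) hz0.1
    have hKp : IsPreconnected (closedBall c R3) := (convex_closedBall c _).isPreconnected
    exact_mod_cast count_le_mult (hf z hz')
      (order_ne_top hKp hf (mem_closedBall_self hR30.le) hfc hz') (hg z hz') hfg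
  have hdist : ∀ ρ ∈ s, 1 ≤ ‖ρ - c‖ ∧ ‖ρ - c‖ ≤ R := by
    intro ρ hρ
    obtain ⟨h1, h2⟩ := hs1 ρ hρ
    refine ⟨hz1 ρ h1 h2, ?_⟩
    rwa [mem_closedBall, dist_eq_norm] at h1
  -- bounds for Pf
  have hP1 : ∀ z ∈ sphere c R3, δ ^ k ≤ ‖Pf s z‖ := by
    intro z hz
    refine Pf_norm_ge hδ.le fun ρ hρ => ?_
    have h1 := (hdist ρ hρ).2
    rw [mem_sphere, dist_eq_norm] at hz
    have h2 : ‖z - c‖ ≤ ‖z - ρ‖ + ‖ρ - c‖ := by
      calc ‖z - c‖ = ‖(z - ρ) + (ρ - c)‖ := by congr 1; ring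
        _ ≤ _ := norm_add_le _ _
    linarith
  have hP2 : ‖Pf s c‖ ≤ 2 ^ k := by
    refine Pf_norm_le fun ρ hρ => ?_
    have h1 := (hdist ρ hρ).2
    rw [norm_sub_rev]; linarith
  have hP3 : ∀ z ∈ ball c (1 / 2), (1 / 2) ^ k ≤ ‖Pf s z‖ := by
    intro z hz
    refine Pf_norm_ge (by positivity) fun ρ hρ => ?_
    have h1 := (hdist ρ hρ).1
    rw [mem_ball, dist_eq_norm] at hz
    have h2 : ‖ρ - c‖ ≤ ‖z - ρ‖ + ‖z - c‖ := by
      calc ‖ρ - c‖ = ‖(z - c) - (z - ρ)‖ := by congr 1; ring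
        _ ≤ ‖z - c‖ + ‖z - ρ‖ := norm_sub_le _ _
        _ = _ := add_comm _ _
    linarith
  have hP4 : 1 ≤ ‖Pf s c‖ := by
    have := Pf_norm_ge (s := s) (z := c) (a := 1) zero_le_one fun ρ hρ => by
      rw [norm_sub_rev]; exact (hdist ρ hρ).1
    simpa using this
  -- bound for g at the centre
  have hgc : g c ≠ 0 := hg0 c (mem_closedBall_self hR0.le)
  have hgc0 : 0 < ‖g c‖ := norm_pos_iff.2 hgc
  have hgc1 : 1 / a * (1 / 2) ^ k ≤ ‖g c‖ := by
    have h1 : ‖f c‖ = ‖Pf s c‖ * ‖g c‖ := by rw [hfg c, norm_mul]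
    rw [h1] at ha
    have h2 : 1 / a ≤ 2 ^ k * ‖g c‖ := ha.trans (by gcongr)
    rw [one_div_pow, ← div_eq_mul_one_div, div_le_iff₀ (by positivity)]
    linarith
  have hgc2 : ‖g c‖ ≤ A := by
    have h1 : ‖f c‖ = ‖Pf s c‖ * ‖g c‖ := by rw [hfg c, norm_mul]
    have h2 : ‖f c‖ ≤ A := hA c (mem_closedBall_self (by positivity))
    rw [h1] at h2
    have h3 : 1 * ‖g c‖ ≤ ‖Pf s c‖ * ‖g c‖ := by gcongr
    linarith
  have hlog1δ : 0 ≤ Real.log (1 / δ) := Real.log_nonneg (by rw [le_div_iff₀ hδ]; linarith)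
  have hlogA : 0 ≤ Real.log A := Real.log_nonneg hA1
  have hloga : 0 ≤ Real.log a := Real.log_nonneg ha1
  have hlogM : 0 ≤ Real.log M := Real.log_nonneg hM1
  have hlog2 : Real.log 2 ≤ 1 := by have := Real.log_two_lt_d9; linarith
  set B := Real.log M + Real.log a + n * Real.log (1 / δ) + n with hB
  set B0 := Real.log A + Real.log a + 2 * n with hB0
  have hBnn : 0 ≤ B := by positivity
  have hB0nn : 0 ≤ B0 := by positivity
  have hpow : ∀ x b : ℝ, 1 ≤ x → Real.log x ≤ b → x ^ k ≤ Real.exp (n * b) := by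
    intro x b hx hxb
    rw [← Real.rpow_natCast, Real.rpow_def_of_pos (by linarith)]
    apply Real.exp_le_exp.2
    have hl : 0 ≤ Real.log x := Real.log_nonneg hx
    calc Real.log x * (k : ℝ) ≤ b * n := by
          have h0 : (0 : ℝ) ≤ k := by positivity
          exact mul_le_mul hxb hkn h0 (hl.trans hxb)
      _ = n * b := by ring
  have h2k : (2 : ℝ) ^ k ≤ Real.exp n := by
    have := hpow 2 1 (by norm_num) hlog2
    rwa [mul_one] at this
  have hδk : (1 / δ) ^ k ≤ Real.exp (n * Real.log (1 / δ)) :=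
    hpow (1 / δ) _ (by rw [le_div_iff₀ hδ]; linarith) le_rfl
  have hginv : 1 ≤ a * 2 ^ k * ‖g c‖ := by
    have h1 : a * 2 ^ k * (1 / a * (1 / 2) ^ k) ≤ a * 2 ^ k * ‖g c‖ := by gcongr
    have h2 : a * 2 ^ k * (1 / a * (1 / 2) ^ k) = 1 := by
      rw [one_div_pow]; field_simp
    linarith
  have hgB : ∀ z ∈ closedBall c R3, ‖g z‖ ≤ M * (1 / δ) ^ k := by
    intro z hz
    have hcl : closedBall c R3 = closure (ball c R3) := (closure_ball c hR30.ne').symm
    refine Complex.norm_le_of_forall_mem_frontier_norm_le (U := ball c R3) isBounded_ball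
      ?_ ?_ (by rw [← hcl]; exact hz)
    · apply DifferentiableOn.diffContOnCl
      rw [← hcl]
      exact hg.differentiableOn
    · intro w hw
      rw [frontier_ball _ hR30.ne'] at hw
      have h1 := hM w (sphere_subset_closedBall hw)
      rw [hfg w, norm_mul] at h1
      have h2 := hP1 w hw
      have h3 : δ ^ k * ‖g w‖ ≤ M := le_trans (by gcongr) h1
      rw [one_div, inv_pow, ← div_eq_mul_inv, le_div_iff₀ (by positivity)]
      linarith
  have hexpB : ∀ z ∈ ball c R, ‖g z‖ ≤ Real.exp B * ‖g c‖ := by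
    intro z hz
    have h1 := hgB z (ball_subset_closedBall.trans (closedBall_subset_closedBall (by linarith)) hz)
    refine h1.trans ?_
    calc M * (1 / δ) ^ k ≤ M * (1 / δ) ^ k * (a * 2 ^ k * ‖g c‖) :=
          le_mul_of_one_le_right (by positivity) hginv
      _ ≤ Real.exp (Real.log M) * Real.exp (n * Real.log (1 / δ)) *
          (Real.exp (Real.log a) * Real.exp n * ‖g c‖) := by
          rw [Real.exp_log (show 0 < M by linarith), Real.exp_log (show 0 < a by linarith)]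
          gcongr
      _ = Real.exp B * ‖g c‖ := by
          rw [hB]
          simp only [Real.exp_add]
          ring
  have hexpB0 : ∀ z ∈ ball c (1 / 2), ‖g z‖ ≤ Real.exp B0 * ‖g c‖ := by
    intro z hz
    have h1 := hA z (ball_subset_closedBall hz)
    rw [hfg z, norm_mul] at h1
    have h2 := hP3 z hz
    have h3 : ‖g z‖ ≤ A * 2 ^ k := by
      have h4 : (1 / 2) ^ k * ‖g z‖ ≤ A := le_trans (by gcongr) h1
      rw [one_div_pow, div_mul_eq_mul_div, one_mul, div_le_iff₀ (by positivity)] at h4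
      exact h4
    refine h3.trans ?_
    calc A * 2 ^ k ≤ A * 2 ^ k * (a * 2 ^ k * ‖g c‖) :=
          le_mul_of_one_le_right (by positivity) hginv
      _ ≤ Real.exp (Real.log A) * Real.exp n *
          (Real.exp (Real.log a) * Real.exp n * ‖g c‖) := by
          rw [Real.exp_log (show 0 < A by linarith), Real.exp_log (show 0 < a by linarith)]
          gcongr
      _ = Real.exp B0 * ‖g c‖ := by
          rw [hB0, two_mul]
          simp only [Real.exp_add]
          ring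
  -- the logarithm
  obtain ⟨h, hh, hhc, hgh⟩ := exists_log (g := g) (c := c) (r := R) hR0
    (fun w hw => hg w (closedBall_subset_closedBall (by linarith) (ball_subset_closedBall hw)))
    (fun w hw => hg0 w (ball_subset_closedBall hw))
  have hb1 : ∀ w ∈ sphere c (1 / 4), ‖h w‖ ≤ 2 * (B0 + 1) := by
    intro w hw
    have := bc_log (r := R) (r' := 1 / 2) (r1 := 1 / 4) (B := B0) (by positivity)
      (by linarith) (by linarith) hB0nn hgc hh hhc hgh hexpB0 (sphere_subset_closedBall hw)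
    refine this.trans (le_of_eq ?_)
    norm_num
  have hb2 : ∀ w ∈ sphere c (R - δ / 2), ‖h w‖ ≤ 8 * (B + 1) / δ := by
    intro w hw
    have := bc_log (r := R) (r' := R) (r1 := R - δ / 2) (B := B) (by linarith)
      (by linarith) le_rfl hBnn hgc hh hhc hgh hexpB (sphere_subset_closedBall hw)
    refine this.trans ?_
    have e1 : R - (R - δ / 2) = δ / 2 := by ring
    rw [e1]
    rw [div_le_div_iff₀ (by positivity) hδ]
    have e2 : R - δ / 2 ≤ 2 := by linarith
    have e3 : 0 ≤ (B + 1) * δ := by positivity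
    nlinarith
  have hq : (R - δ) / (R - δ / 2) ≤ 1 - δ / 4 := by
    rw [div_le_iff₀ (by linarith)]
    nlinarith
  have hq0 : 0 ≤ (R - δ) / (R - δ / 2) := div_nonneg (by linarith) (by linarith)
  refine ⟨s, g, fun ρ hρ => (hs1 ρ hρ).1, hkn, hg, hfg, hg0, ?_, ?_⟩
  · intro z hz
    refine (hgB z hz).trans ?_
    rw [Real.exp_add, Real.exp_log (by linarith)]
    gcongr
  · intro z hz
    have hz' : ‖z - c‖ ≤ R - δ := by rwa [mem_closedBall, dist_eq_norm] at hz
    have hcb := circle_bound (f := h) (c := c) (z := z) (r := R - δ) (s0 := 1 / 4)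
      (s := R - δ / 2) (R := R) (m := 2 * (B0 + 1)) (M := 8 * (B + 1) / δ)
      (by positivity) (by linarith) (by linarith) (by linarith) (by linarith) (by linarith) hh hb1 hb2
      hz' K
    have hsum : ∑ n ∈ Finset.range K, ((R - δ) / (1 / 4)) ^ n ≤ K * 8 ^ K := by
      have h1 : ∀ n ∈ Finset.range K, ((R - δ) / (1 / 4)) ^ n ≤ (8 : ℝ) ^ K := by
        intro n hn
        have h2 : (R - δ) / (1 / 4) ≤ 8 := by
          rw [div_le_iff₀ (by norm_num)]; linarith
        have h3 : 0 ≤ (R - δ) / (1 / 4) := div_nonneg (by linarith) (by norm_num)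
        calc ((R - δ) / (1 / 4)) ^ n ≤ (8 : ℝ) ^ n := by gcongr
          _ ≤ (8 : ℝ) ^ K := pow_le_pow_right₀ (by norm_num) (Finset.mem_range.1 hn).le
      refine (Finset.sum_le_sum h1).trans ?_
      rw [Finset.sum_const, Finset.card_range, nsmul_eq_mul]
    have hlast : 8 * (B + 1) / δ * ((R - δ) / (R - δ / 2)) ^ K /
        (1 - (R - δ) / (R - δ / 2)) ≤ 8 * (B + 1) / δ * (1 - δ / 4) ^ K * (4 / δ) := by
      rw [div_eq_mul_inv _ (1 - _)]
      have h1 : δ / 4 ≤ 1 - (R - δ) / (R - δ / 2) := by linarith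
      have h2 : (1 - (R - δ) / (R - δ / 2))⁻¹ ≤ 4 / δ := by
        have h2' := inv_anti₀ (by positivity) h1
        rwa [inv_div] at h2'
      have h0 : 0 ≤ 1 - δ / 4 := by linarith
      have h3 : 0 ≤ (1 - (R - δ) / (R - δ / 2))⁻¹ := inv_nonneg.2 (by linarith)
      gcongr
    have hhz : ‖h z‖ ≤ 2 * (B0 + 1) * (K * 8 ^ K) +
        8 * (B + 1) / δ * (1 - δ / 4) ^ K * (4 / δ) := by
      refine hcb.trans (add_le_add ?_ hlast)
      gcongr
    have hzr : z ∈ ball c R := by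
      rw [mem_ball, dist_eq_norm]; linarith
    have hre := abs_le.1 ((Complex.abs_re_le_norm (h z)).trans hhz)
    rw [hgh z hzr, norm_mul, Complex.norm_exp]
    constructor
    · have h1 : Real.exp (-(Real.log a + n)) ≤ ‖g c‖ := by
        refine le_trans ?_ hgc1
        rw [neg_add, Real.exp_add, Real.exp_neg, Real.exp_log (by linarith), one_div, one_div_pow,
          Real.exp_neg]
        rw [one_div]
        gcongr
      calc _ ≤ Real.exp (-(Real.log a + n)) * Real.exp (-(2 * (B0 + 1) * (K * 8 ^ K) +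
        8 * (B + 1) / δ * (1 - δ / 4) ^ K * (4 / δ))) := by
            rw [← Real.exp_add]
            apply Real.exp_le_exp.2
            linarith
        _ ≤ _ := by
            gcongr
            exact hre.1
    · have h1 : ‖g c‖ ≤ Real.exp (Real.log A) := by rw [Real.exp_log (by linarith)]; exact hgc2
      calc ‖g c‖ * Real.exp (h z).re ≤ Real.exp (Real.log A) * Real.exp (2 * (B0 + 1) * (K * 8 ^ K) +
        8 * (B + 1) / δ * (1 - δ / 4) ^ K * (4 / δ)) := by
            gcongr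
            exact hre.2
        _ ≤ _ := by
            rw [← Real.exp_add]
            apply Real.exp_le_exp.2
            linarith

/-- zeta in a disc with centre `2 + iy` that contains few zeros -/
theorem light_zeta {δ ν : ℝ} (hδ : 0 < δ) (hδ1 : δ ≤ 1 / 8) (hν : 0 < ν) :
    ∃ η : ℝ, 0 < η ∧ ∃ T0 : ℝ, 1 ≤ T0 ∧ ∀ T : ℝ, T0 ≤ T → ∀ y : ℝ, 3 ≤ y → y ≤ 3 * T → ∀ R R3 : ℝ,
      3 / 4 ≤ R → R + δ ≤ R3 → R3 ≤ 7 / 4 →
      (∀ S : Finset ℂ, (∀ z ∈ S, z ∈ closedBall (⟨2, y⟩ : ℂ) R ∧ riemannZeta z = 0) →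
        ∑ z ∈ S, (mult riemannZeta z : ℝ) ≤ η * Real.log T) →
      ∃ (s : Multiset ℂ) (g : ℂ → ℂ), (∀ ρ ∈ s, ρ ∈ closedBall (⟨2, y⟩ : ℂ) R) ∧
        (Multiset.card s : ℝ) ≤ ν * Real.log T ∧
        AnalyticOnNhd ℂ g (closedBall (⟨2, y⟩ : ℂ) R3) ∧ (∀ z, riemannZeta z = Pf s z * g z) ∧
        (∀ z ∈ closedBall (⟨2, y⟩ : ℂ) R, g z ≠ 0) ∧
        (∀ z ∈ closedBall (⟨2, y⟩ : ℂ) R3, ‖g z‖ ≤ Real.exp (3 * Real.log T)) ∧
        (∀ z ∈ closedBall (⟨2, y⟩ : ℂ) (R - δ),
          Real.exp (-(ν * Real.log T)) ≤ ‖g z‖ ∧ ‖g z‖ ≤ Real.exp (ν * Real.log T)) := by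
  obtain ⟨A, hA1, hA⟩ := zeta_bounds (a := 3 / 2) (by norm_num)
  have hlogδ : 0 ≤ Real.log (1 / δ) := Real.log_nonneg (by rw [le_div_iff₀ hδ]; linarith)
  have hlogA : 0 ≤ Real.log A := Real.log_nonneg hA1
  set D : ℝ := 32 / δ ^ 2 * (4 + Real.log (1 / δ)) with hD
  have hD0 : 0 < D := by positivity
  obtain ⟨K, hK⟩ := exists_pow_lt_of_lt_one (show 0 < ν / 4 / D by positivity)
    (show 1 - δ / 4 < 1 by linarith)
  have hq0 : 0 ≤ 1 - δ / 4 := by linarith
  rw [lt_div_iff₀ hD0] at hK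
  set G : ℝ := K * 8 ^ K with hG
  have hG0 : 0 ≤ G := by positivity
  set E : ℝ := 1 + 4 * G with hE
  have hE0 : 0 < E := by positivity
  set C : ℝ := 2 * Real.log A + 2 * (2 * Real.log A + 1) * G +
    32 / δ ^ 2 * (Real.log A + 1) with hC
  have hC0 : 0 ≤ C := by positivity
  have hE2 : 0 < Real.log (1 / δ) + 1 := by positivity
  refine ⟨min (min 1 ν) (min (ν / 4 / E) (1 / (Real.log (1 / δ) + 1))),
    lt_min (lt_min one_pos hν) (lt_min (by positivity) (by positivity)),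
    max 30 (Real.exp (4 * C / ν)), (le_max_left _ _).trans' (by norm_num), ?_⟩
  intro T hT y hy3 hyT R R3 hR hR3 hR3' hN
  set η' := min (min 1 ν) (min (ν / 4 / E) (1 / (Real.log (1 / δ) + 1))) with hη'
  have hη'0 : 0 < η' := lt_min (lt_min one_pos hν) (lt_min (by positivity) (by positivity))
  have hη'1 : η' ≤ 1 := (min_le_left _ _).trans (min_le_left _ _)
  have hη'ν : η' ≤ ν := (min_le_left _ _).trans (min_le_right _ _)
  have hη'2 : η' * E ≤ ν / 4 := by
    have : η' ≤ ν / 4 / E := (min_le_right _ _).trans (min_le_left _ _)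
    rwa [le_div_iff₀ hE0] at this
  have hη'3 : η' * (Real.log (1 / δ) + 1) ≤ 1 := by
    have : η' ≤ 1 / (Real.log (1 / δ) + 1) := (min_le_right _ _).trans (min_le_right _ _)
    rwa [le_div_iff₀ hE2] at this
  have hT10 : 30 ≤ T := (le_max_left _ _).trans hT
  have hT0 : 0 < T := by linarith
  have hL : 4 * C / ν ≤ Real.log T := by
    rw [Real.le_log_iff_exp_le hT0]
    exact (le_max_right _ _).trans hT
  have hL0 : 0 ≤ Real.log T := Real.log_nonneg (by linarith)
  rw [div_le_iff₀ hν] at hL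
  set L := Real.log T with hLdef
  have hsubim : ∀ w ∈ closedBall (⟨2, y⟩ : ℂ) R3, 1 / 4 ≤ w.re ∧ 1 ≤ w.im ∧
      ‖w‖ ≤ 3 * T + 4 := by
    intro w hw
    have h1 := ball_re_im hw
    have h2 := abs_le.1 h1.2
    refine ⟨by linarith, by linarith, ?_⟩
    rw [mem_closedBall, dist_eq_norm] at hw
    have h3 : ‖(⟨2, y⟩ : ℂ)‖ ≤ 2 + y := by
      have := Complex.norm_le_abs_re_add_abs_im (⟨2, y⟩ : ℂ)
      simp only at this
      rwa [abs_of_nonneg (by linarith : 0 ≤ y), abs_of_nonneg (by norm_num : (0 : ℝ) ≤ 2)] at this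
    calc ‖w‖ = ‖(w - ⟨2, y⟩) + ⟨2, y⟩‖ := by congr 1; ring
      _ ≤ ‖w - ⟨2, y⟩‖ + ‖(⟨2, y⟩ : ℂ)‖ := norm_add_le _ _
      _ ≤ 3 * T + 4 := by linarith
  have key := light_abs (f := riemannZeta) (c := ⟨2, y⟩) (R := R) (R3 := R3) (δ := δ)
    (n := η' * L) (M := T ^ 2) (A := A) (a := A) hδ hδ1 hR hR3 (by linarith)
    (by nlinarith) hA1 hA1 (by positivity)
    (fun w hw => zeta_analyticAt (by linarith [(hsubim w hw).2.1]))
    (fun w hw => by
      obtain ⟨h1, h2, h3⟩ := hsubim w hw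
      refine (Pool.Agent.H388LH.zeta_growth h1 h2).trans ?_
      nlinarith)
    (fun w hw => (hA w (by have := (ball_re_im hw).1; linarith)).1)
    (hA _ (by simp only; norm_num)).2
    (by
      intro w hw hw0
      by_contra hcon
      push Not at hcon
      have h1 : w ∈ ball (⟨2, y⟩ : ℂ) 1 := by
        rw [mem_ball, dist_eq_norm]; exact hcon
      have h2 := abs_le.1 ((Complex.abs_re_le_norm (w - ⟨2, y⟩)).trans hcon.le)
      simp only [Complex.sub_re] at h2
      exact riemannZeta_ne_zero_of_one_le_re (by linarith [h2.1]) hw0)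
    (fun S hS => hN S hS) K
  obtain ⟨s, g, h1, h2, h3, h4, h5, h6, h7⟩ := key
  have hp : 0 ≤ (1 - δ / 4) ^ K := by positivity
  have hp1 : (1 - δ / 4) ^ K ≤ 1 := pow_le_one₀ hq0 (by linarith)
  have hbig : Real.log A + Real.log A + η' * L +
          (2 * (Real.log A + Real.log A + 2 * (η' * L) + 1) * (K * 8 ^ K) +
          8 * (Real.log (T ^ 2) + Real.log A + η' * L * Real.log (1 / δ) + η' * L + 1) / δ *
            (1 - δ / 4) ^ K * (4 / δ)) ≤ ν * L := by
    rw [Real.log_pow, ← hG]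
    push_cast
    rw [← hLdef]
    have e1 : η' * L + 4 * (η' * L) * G ≤ ν / 4 * L := by
      have : η' * L + 4 * (η' * L) * G = η' * E * L := by rw [hE]; ring
      rw [this]
      exact mul_le_mul_of_nonneg_right hη'2 hL0
    have e2 : 32 / δ ^ 2 * (2 * L + η' * L * Real.log (1 / δ) + η' * L) *
        (1 - δ / 4) ^ K ≤ ν / 4 * L := by
      have h1 : 2 * L + η' * L * Real.log (1 / δ) + η' * L ≤ L * (4 + Real.log (1 / δ)) := by
        have a1 : η' * L * Real.log (1 / δ) ≤ 1 * L * Real.log (1 / δ) := by gcongr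
        have a2 : η' * L ≤ 1 * L := by gcongr
        linarith
      calc 32 / δ ^ 2 * (2 * L + η' * L * Real.log (1 / δ) + η' * L) *
        (1 - δ / 4) ^ K ≤ 32 / δ ^ 2 * (L * (4 + Real.log (1 / δ))) *
        (1 - δ / 4) ^ K := by gcongr
        _ = ((1 - δ / 4) ^ K * D) * L := by rw [hD]; ring
        _ ≤ ν / 4 * L := mul_le_mul_of_nonneg_right hK.le hL0
    have e3 : 32 / δ ^ 2 * (Real.log A + 1) * (1 - δ / 4) ^ K ≤ 32 / δ ^ 2 * (Real.log A + 1) :=
      mul_le_of_le_one_right (by positivity) hp1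
    have e4 : 8 * (2 * L + Real.log A + η' * L * Real.log (1 / δ) + η' * L + 1) / δ *
        (1 - δ / 4) ^ K * (4 / δ) = 32 / δ ^ 2 * (2 * L + η' * L * Real.log (1 / δ) + η' * L) *
        (1 - δ / 4) ^ K + 32 / δ ^ 2 * (Real.log A + 1) * (1 - δ / 4) ^ K := by
      field_simp
      ring
    rw [e4]
    have e5 : C ≤ ν / 4 * L := by linarith
    rw [hC] at e5
    have e6 : 2 * (Real.log A + Real.log A + 2 * (η' * L) + 1) * G =
        2 * (2 * Real.log A + 1) * G + 4 * (η' * L) * G := by ring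
    rw [e6]
    have e7 : 0 ≤ ν * L := by positivity
    linarith
  refine ⟨s, g, h1, h2.trans ?_, h3, h4, h5, ?_, ?_⟩
  · gcongr
  · intro z hz
    refine (h6 z hz).trans (Real.exp_le_exp.2 ?_)
    rw [Real.log_pow]
    push_cast
    rw [← hLdef]
    have : η' * L * Real.log (1 / δ) ≤ 1 * L := by
      have : η' * L * Real.log (1 / δ) = η' * Real.log (1 / δ) * L := by ring
      rw [this]
      have : η' * Real.log (1 / δ) ≤ 1 := by linarith
      gcongr
    linarith
  · intro z hz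
    obtain ⟨h8, h9⟩ := h7 z hz
    refine ⟨le_trans (Real.exp_le_exp.2 ?_) h8, h9.trans (Real.exp_le_exp.2 hbig)⟩
    linarith

end Pool.Agent.K9h52.DX
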