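import Pool.Agent.H31R2.DH.Back

/-!
Few zeros in a small disc, and small values in the right part of it, imply small values.
-/

open Complex Metric Set Filter Topology

namespace Pool.Agent.K9h52.DX

open H370 H370.Loc DH31

lemma pow_le_exp_mul {x a : ℝ} {k : ℕ} {n : ℝ} (hx : 1 ≤ x) (hxa : Real.log x ≤ a) (hkn : (k : ℝ) ≤ n) :
    x ^ k ≤ Real.exp (n * a) := by
  have hlog : 0 ≤ Real.log x := Real.log_nonneg hx
  rw [← Real.rpow_natCast, Real.rpow_def_of_pos (by linarith)]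
  apply Real.exp_le_exp.2
  calc Real.log x * (k : ℝ) ≤ a * n := by
        have h0 : (0 : ℝ) ≤ k := by positivity
        exact mul_le_mul hxa hkn h0 (hlog.trans hxa)
    _ = n * a := by ring

lemma log8 : Real.log 8 ≤ 3 := by
  have h : Real.log 8 = 3 * Real.log 2 := by
    rw [show (8 : ℝ) = 2 ^ 3 by norm_num, Real.log_pow]; norm_num
  rw [h]
  have := Real.log_two_lt_d9
  linarith

lemma log6 : Real.log 6 ≤ 2 := by
  rw [Real.log_le_iff_le_exp (by norm_num)]
  have h1 : (2.7 : ℝ) ≤ Real.exp 1 := by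
    have h3 : (2.7182818283 : ℝ) ≤ Real.exp 1 := Real.exp_one_gt_d9.le
    linarith
  have h2 : Real.exp 2 = Real.exp 1 * Real.exp 1 := by rw [← Real.exp_add]; norm_num
  rw [h2]
  nlinarith

lemma loc_abs {g : ℂ → ℂ} {b : ℂ} {h θ P p n : ℝ} (hh : 0 < h) (hθ : 0 < θ) (hθ1 : θ ≤ 1 / 16)
    (hP : 0 ≤ P) (hp : 0 ≤ p) (hn0 : 0 ≤ n)
    (hg : AnalyticOnNhd ℂ g (closedBall b (9 / 8 * h)))
    (hgP : ∀ z ∈ closedBall b (9 / 8 * h), ‖g z‖ ≤ Real.exp P)
    (hgp : ∀ z ∈ closedBall b (h / 2 - θ * h), ‖g z‖ ≤ Real.exp p)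
    (hgb : Real.exp (-p) ≤ ‖g b‖)
    (hz : ∀ z ∈ closedBall b h, g z = 0 → h / 2 - θ * h ≤ ‖z - b‖)
    (hn : ∀ S : Finset ℂ, (∀ z ∈ S, z ∈ closedBall b h ∧ g z = 0) → ∑ z ∈ S, (mult g z : ℝ) ≤ n)
    (K : ℕ) {z : ℂ} (hzb : z ∈ closedBall b (h / 2)) :
    ‖g z‖ ≤ Real.exp (2 * n + p + (2 * p + n * Real.log (1 / θ) + 1) / θ *
      (K * Real.exp (12 * θ * K)) + 18 * (P + p + 3 * n + 1) * (2 / 3) ^ K) := by
  classical
  have hθh : 0 < θ * h := by positivity
  have hθh1 : θ * h ≤ 1 / 16 * h := by gcongr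
  have hgb0 : g b ≠ 0 := by
    intro h0
    rw [h0, norm_zero] at hgb
    exact absurd hgb (not_le.2 (Real.exp_pos _))
  obtain ⟨s, g2, hs1, hg2, hfg, hg20, -⟩ := extract (r := h) (R := 9 / 8 * h) hh (by linarith)
    (Real.one_le_exp hP) hg hgb0 hgP
  set k := Multiset.card s with hk
  have hkn : (k : ℝ) ≤ n := by
    refine le_trans ?_ (hn s.toFinset fun z hz => hs1 z (Multiset.mem_toFinset.1 hz))
    have h1 : Multiset.card s = ∑ z ∈ s.toFinset, s.count z := (Multiset.toFinset_sum_count_eq s).symm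
    rw [hk, h1]
    push_cast
    refine Finset.sum_le_sum fun z hz => ?_
    have hz0 := hs1 z (Multiset.mem_toFinset.1 hz)
    have hz' : z ∈ closedBall b (9 / 8 * h) := closedBall_subset_closedBall (by linarith) hz0.1
    have hKp : IsPreconnected (closedBall b (9 / 8 * h)) := (convex_closedBall b _).isPreconnected
    exact_mod_cast count_le_mult (hg z hz')
      (order_ne_top hKp hg (mem_closedBall_self (by positivity)) hgb0 hz') (hg2 z hz') hfg
  have hdist : ∀ ρ ∈ s, h / 2 - θ * h ≤ ‖ρ - b‖ ∧ ‖ρ - b‖ ≤ h := by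
    intro ρ hρ
    obtain ⟨h1, h2⟩ := hs1 ρ hρ
    refine ⟨hz ρ h1 h2, ?_⟩
    rwa [mem_closedBall, dist_eq_norm] at h1
  -- bounds for Pf
  have hP1 : ∀ z ∈ sphere b (9 / 8 * h), (h / 8) ^ k ≤ ‖Pf s z‖ := by
    intro z hz
    refine Pf_norm_ge (by positivity) fun ρ hρ => ?_
    have h1 := (hdist ρ hρ).2
    rw [mem_sphere, dist_eq_norm] at hz
    have h2 : ‖z - b‖ ≤ ‖z - ρ‖ + ‖ρ - b‖ := by
      calc ‖z - b‖ = ‖(z - ρ) + (ρ - b)‖ := by congr 1; ring
        _ ≤ _ := norm_add_le _ _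
    linarith
  have hP2 : ∀ z ∈ closedBall b (h / 2 - 2 * (θ * h)), (θ * h) ^ k ≤ ‖Pf s z‖ := by
    intro z hz
    refine Pf_norm_ge hθh.le fun ρ hρ => ?_
    have h1 := (hdist ρ hρ).1
    rw [mem_closedBall, dist_eq_norm] at hz
    have h2 : ‖ρ - b‖ ≤ ‖z - ρ‖ + ‖z - b‖ := by
      calc ‖ρ - b‖ = ‖(z - b) - (z - ρ)‖ := by congr 1; ring
        _ ≤ ‖z - b‖ + ‖z - ρ‖ := norm_sub_le _ _
        _ = _ := add_comm _ _
    linarith
  have hP3 : ‖Pf s b‖ ≤ h ^ k := by
    refine Pf_norm_le fun ρ hρ => ?_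
    rw [norm_sub_rev]; exact (hdist ρ hρ).2
  have hP4 : (h / 4) ^ k ≤ ‖Pf s b‖ := by
    refine Pf_norm_ge (by positivity) fun ρ hρ => ?_
    rw [norm_sub_rev]
    have := (hdist ρ hρ).1
    linarith
  have hP5 : ‖Pf s z‖ ≤ (3 / 2 * h) ^ k := by
    refine Pf_norm_le fun ρ hρ => ?_
    have h1 := (hdist ρ hρ).2
    rw [mem_closedBall, dist_eq_norm] at hzb
    have h2 : ‖z - ρ‖ ≤ ‖z - b‖ + ‖ρ - b‖ := by
      calc ‖z - ρ‖ = ‖(z - b) - (ρ - b)‖ := by congr 1; ring
        _ ≤ _ := norm_sub_le _ _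
    linarith
  -- bounds for g2
  have hgc : g2 b ≠ 0 := hg20 b (mem_closedBall_self hh.le)
  have hgc1 : Real.exp (-p) * (1 / h) ^ k ≤ ‖g2 b‖ := by
    have h1 : ‖g b‖ = ‖Pf s b‖ * ‖g2 b‖ := by rw [hfg b, norm_mul]
    rw [h1] at hgb
    have h2 : Real.exp (-p) ≤ h ^ k * ‖g2 b‖ := hgb.trans (by gcongr)
    rw [one_div, inv_pow, ← div_eq_mul_inv, div_le_iff₀ (by positivity)]
    linarith
  have hbmem : b ∈ closedBall b (h / 2 - θ * h) := mem_closedBall_self (by linarith)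
  have hgc2 : ‖g2 b‖ ≤ Real.exp p * (4 / h) ^ k := by
    have h1 : ‖g b‖ = ‖Pf s b‖ * ‖g2 b‖ := by rw [hfg b, norm_mul]
    have h2 := hgp b hbmem
    have h3 : (h / 4) ^ k * ‖g2 b‖ ≤ Real.exp p := by
      rw [h1] at h2
      exact le_trans (by gcongr) h2
    rw [← inv_div, inv_pow, ← div_eq_mul_inv, le_div_iff₀ (by positivity)]
    linarith
  have hlogθ : 0 ≤ Real.log (1 / θ) := Real.log_nonneg (by rw [le_div_iff₀ hθ]; linarith)
  set B0 := 2 * p + n * Real.log (1 / θ) with hB0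
  set B := P + p + 3 * n with hB
  have hB0nn : 0 ≤ B0 := by positivity
  have hBnn : 0 ≤ B := by positivity
  have hgB : ∀ w ∈ closedBall b (9 / 8 * h), ‖g2 w‖ ≤ Real.exp P * (8 / h) ^ k := by
    intro w hw
    have hcl : closedBall b (9 / 8 * h) = closure (ball b (9 / 8 * h)) :=
      (closure_ball b (by positivity)).symm
    refine Complex.norm_le_of_forall_mem_frontier_norm_le (U := ball b (9 / 8 * h)) isBounded_ball
      ?_ ?_ (by rw [← hcl]; exact hw)
    · apply DifferentiableOn.diffContOnCl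
      rw [← hcl]
      exact hg2.differentiableOn
    · intro w hw
      rw [frontier_ball _ (by positivity)] at hw
      have h1 := hgP w (sphere_subset_closedBall hw)
      rw [hfg w, norm_mul] at h1
      have h2 := hP1 w hw
      have h3 : (h / 8) ^ k * ‖g2 w‖ ≤ Real.exp P := le_trans (by gcongr) h1
      rw [← inv_div, inv_pow, ← div_eq_mul_inv, le_div_iff₀ (by positivity)]
      linarith
  have hexpB : ∀ w ∈ ball b h, ‖g2 w‖ ≤ Real.exp B * ‖g2 b‖ := by
    intro w hw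
    have h1 := hgB w (ball_subset_closedBall.trans (closedBall_subset_closedBall (by linarith)) hw)
    refine h1.trans ?_
    have h3 : (8 : ℝ) ^ k ≤ Real.exp (n * 3) := pow_le_exp_mul (by norm_num) log8 hkn
    calc Real.exp P * (8 / h) ^ k = Real.exp P * 8 ^ k * (1 / h) ^ k := by
          rw [div_eq_mul_one_div, mul_pow]; ring
      _ ≤ Real.exp P * Real.exp (n * 3) * (1 / h) ^ k := by gcongr
      _ = Real.exp B * (Real.exp (-p) * (1 / h) ^ k) := by
          rw [hB, ← Real.exp_add, ← mul_assoc, ← Real.exp_add]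
          congr 2
          ring
      _ ≤ _ := by gcongr
  have hexpB0 : ∀ w ∈ ball b (h / 2 - 2 * (θ * h)), ‖g2 w‖ ≤ Real.exp B0 * ‖g2 b‖ := by
    intro w hw
    have hw' := ball_subset_closedBall hw
    have h1 := hgp w (closedBall_subset_closedBall (by linarith) hw')
    rw [hfg w, norm_mul] at h1
    have h2 := hP2 w hw'
    have h3 : ‖g2 w‖ ≤ Real.exp p * (1 / (θ * h)) ^ k := by
      have h4 : (θ * h) ^ k * ‖g2 w‖ ≤ Real.exp p := le_trans (by gcongr) h1
      rw [one_div, inv_pow, ← div_eq_mul_inv, le_div_iff₀ (by positivity)]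
      linarith
    refine h3.trans ?_
    have h5 : (1 / θ) ^ k ≤ Real.exp (n * Real.log (1 / θ)) :=
      pow_le_exp_mul (by rw [le_div_iff₀ hθ]; linarith) le_rfl hkn
    calc Real.exp p * (1 / (θ * h)) ^ k = Real.exp p * (1 / θ) ^ k * (1 / h) ^ k := by
          rw [← one_div_mul_one_div, mul_pow]; ring
      _ ≤ Real.exp p * Real.exp (n * Real.log (1 / θ)) * (1 / h) ^ k := by gcongr
      _ = Real.exp B0 * (Real.exp (-p) * (1 / h) ^ k) := by
          rw [hB0, ← Real.exp_add, ← mul_assoc, ← Real.exp_add]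
          congr 2
          ring
      _ ≤ _ := by gcongr
  -- the logarithm
  obtain ⟨H, hH, hHc, hgH⟩ := exists_log (g := g2) (c := b) (r := h) hh
    (fun w hw => hg2 w (closedBall_subset_closedBall (by linarith) (ball_subset_closedBall hw)))
    (fun w hw => hg20 w (ball_subset_closedBall hw))
  have hb1 : ∀ w ∈ sphere b (h / 2 - 3 * (θ * h)), ‖H w‖ ≤ (B0 + 1) / θ := by
    intro w hw
    have := bc_log (r := h) (r' := h / 2 - 2 * (θ * h)) (r1 := h / 2 - 3 * (θ * h)) (B := B0)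
      (by linarith) (by linarith) (by linarith) hB0nn hgc hH hHc hgH hexpB0
      (sphere_subset_closedBall hw)
    refine this.trans ?_
    have e1 : h / 2 - 2 * (θ * h) - (h / 2 - 3 * (θ * h)) = θ * h := by ring
    rw [e1, div_le_div_iff₀ hθh hθ]
    have e2 : 2 * (B0 + 1) * (h / 2 - 3 * (θ * h)) ≤ (B0 + 1) * h := by nlinarith
    calc 2 * (B0 + 1) * (h / 2 - 3 * (θ * h)) * θ ≤ (B0 + 1) * h * θ := by gcongr
      _ = _ := by ring
  have hb2 : ∀ w ∈ sphere b (3 / 4 * h), ‖H w‖ ≤ 6 * (B + 1) := by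
    intro w hw
    have := bc_log (r := h) (r' := h) (r1 := 3 / 4 * h) (B := B) (by positivity)
      (by linarith) le_rfl hBnn hgc hH hHc hgH hexpB (sphere_subset_closedBall hw)
    refine this.trans (le_of_eq ?_)
    have e1 : h - 3 / 4 * h = h / 4 := by ring
    rw [e1]
    field_simp
    norm_num
  have hz' : ‖z - b‖ ≤ h / 2 := by rwa [mem_closedBall, dist_eq_norm] at hzb
  have hs0 : 0 < h / 2 - 3 * (θ * h) := by linarith
  have hcb := circle_bound (f := H) (c := b) (z := z) (r := h / 2) (s0 := h / 2 - 3 * (θ * h))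
    (s := 3 / 4 * h) (R := h) (m := (B0 + 1) / θ) (M := 6 * (B + 1))
    hs0 (by positivity) (by positivity) (by linarith) (by linarith) (by linarith) hH hb1 hb2
    hz' K
  have hsum : ∑ i ∈ Finset.range K, (h / 2 / (h / 2 - 3 * (θ * h))) ^ i ≤
      K * Real.exp (12 * θ * K) := by
    have h1 : ∀ i ∈ Finset.range K, (h / 2 / (h / 2 - 3 * (θ * h))) ^ i ≤ Real.exp (12 * θ * K) := by
      intro i hi
      have hiK : (i : ℝ) ≤ K := by exact_mod_cast (Finset.mem_range.1 hi).le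
      have h2 : h / 2 / (h / 2 - 3 * (θ * h)) ≤ Real.exp (12 * θ) := by
        have h3 : h / 2 / (h / 2 - 3 * (θ * h)) ≤ 12 * θ + 1 := by
          rw [div_le_iff₀ hs0]
          have h4 : 0 ≤ θ * h * (3 - 36 * θ) := mul_nonneg hθh.le (by linarith)
          nlinarith
        exact h3.trans (Real.add_one_le_exp _)
      calc (h / 2 / (h / 2 - 3 * (θ * h))) ^ i ≤ (Real.exp (12 * θ)) ^ i := by
            gcongr
        _ = Real.exp (12 * θ * i) := by rw [← Real.exp_nat_mul]; congr 1; ring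
        _ ≤ Real.exp (12 * θ * K) := by
            apply Real.exp_le_exp.2
            gcongr
    refine (Finset.sum_le_sum h1).trans ?_
    rw [Finset.sum_const, Finset.card_range, nsmul_eq_mul]
  have hq : h / 2 / (3 / 4 * h) = 2 / 3 := by field_simp; norm_num
  rw [hq] at hcb
  have hHz : ‖H z‖ ≤ (B0 + 1) / θ * (K * Real.exp (12 * θ * K)) + 18 * (B + 1) * (2 / 3) ^ K := by
    refine hcb.trans (add_le_add ?_ (le_of_eq ?_))
    · gcongr
    · have : (1 : ℝ) - 2 / 3 = 1 / 3 := by norm_num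
      rw [this]
      field_simp
      norm_num
  have hzr : z ∈ ball b h := by
    rw [mem_ball, dist_eq_norm]; linarith
  rw [hfg z, norm_mul, hgH z hzr, norm_mul, Complex.norm_exp]
  have h5 : (H z).re ≤ ‖H z‖ := Complex.re_le_norm _
  have h6 : (6 : ℝ) ^ k ≤ Real.exp (n * 2) := pow_le_exp_mul (by norm_num) log6 hkn
  calc ‖Pf s z‖ * (‖g2 b‖ * Real.exp (H z).re)
      ≤ (3 / 2 * h) ^ k * ((Real.exp p * (4 / h) ^ k) * Real.exp ((B0 + 1) / θ *
        (K * Real.exp (12 * θ * K)) + 18 * (B + 1) * (2 / 3) ^ K)) := by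
        gcongr
        exact h5.trans hHz
    _ = (3 / 2 * h * (4 / h)) ^ k * Real.exp p * Real.exp ((B0 + 1) / θ *
        (K * Real.exp (12 * θ * K)) + 18 * (B + 1) * (2 / 3) ^ K) := by
        rw [mul_pow (3 / 2 * h)]; ring
    _ = 6 ^ k * Real.exp p * Real.exp ((B0 + 1) / θ *
        (K * Real.exp (12 * θ * K)) + 18 * (B + 1) * (2 / 3) ^ K) := by
        congr 3
        field_simp
        norm_num
    _ ≤ Real.exp (n * 2) * Real.exp p * Real.exp ((B0 + 1) / θ *
        (K * Real.exp (12 * θ * K)) + 18 * (B + 1) * (2 / 3) ^ K) := by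
        gcongr
    _ = _ := by
        rw [← Real.exp_add, ← Real.exp_add]
        congr 1
        rw [hB0, hB]
        ring

end Pool.Agent.K9h52.DX
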