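import Pool.Agent.K9h52.DX.Dich2
import Pool.Agent.K9h52.DX.DetCount

/-!
The number of zeros in terms of the number of extremal clusters.
-/

open Complex Metric Set Filter Topology

namespace Pool.Agent.K9h52.DX

open H370 H370.Loc DH31

/-- the number of the unit intervals between `V₁` and `V₂` with an extremal cluster with edge at
least `σ` -/
noncomputable def clu (ε h₀ τ η B T σ V₁ V₂ : ℝ) : ℕ :=
  {n : ℕ | V₁ ≤ n ∧ (n : ℝ) ≤ V₂ ∧ ∃ w : ℂ, σ ≤ w.re ∧ (n : ℝ) ≤ w.im ∧ w.im ≤ n + 1 ∧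
    Ext ε h₀ τ η B T w}.ncard

lemma card_cover {S G : Finset ℕ} {a : ℕ}
    (h : ∀ n ∈ S, n < a ∨ ∃ n' ∈ G, n ≤ n' + a ∧ n' ≤ n + a) :
    S.card ≤ a + (2 * a + 1) * G.card := by
  classical
  have h1 : S ⊆ Finset.range a ∪ G.biUnion (fun n' => Finset.Icc (n' - a) (n' + a)) := by
    intro n hn
    rw [Finset.mem_union, Finset.mem_range, Finset.mem_biUnion]
    rcases h n hn with h2 | ⟨n', h2, h3, h4⟩
    · exact Or.inl h2
    · refine Or.inr ⟨n', h2, ?_⟩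
      rw [Finset.mem_Icc]
      omega
  refine (Finset.card_le_card h1).trans ((Finset.card_union_le _ _).trans ?_)
  rw [Finset.card_range]
  refine Nat.add_le_add_left (Finset.card_biUnion_le.trans ?_) _
  calc ∑ n' ∈ G, (Finset.Icc (n' - a) (n' + a)).card ≤ ∑ n' ∈ G, (2 * a + 1) := by
        refine Finset.sum_le_sum fun n' _ => ?_
        rw [Nat.card_Icc]
        omega
    _ = (2 * a + 1) * G.card := by
        rw [Finset.sum_const, smul_eq_mul, mul_comm]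

set_option maxHeartbeats 1000000 in
theorem main {ε h₀ τ η B : ℝ} (hε : 0 < ε) (hε1 : ε ≤ 1) (hh₀ : 0 < h₀) (hτ : 0 < τ)
    (hη : 0 < η) (hB : 0 < B) :
    ∃ A C T0 : ℝ, 0 < A ∧ 0 < C ∧ ∀ T : ℝ, T0 ≤ T → ∀ U H : ℝ, 0 ≤ U → 1 ≤ H → U + H ≤ T →
      ∀ σ : ℝ, 1 / 2 ≤ σ → σ ≤ 1 →
      (cnt {ρ : ℂ | riemannZeta ρ = 0 ∧ σ ≤ ρ.re ∧ U < ρ.im ∧ ρ.im ≤ U + H} : ℝ) ≤
        C * (T ^ ε * H ^ (2 * (1 - σ))) +
        C * Real.log T * clu ε h₀ τ η B T (σ - τ) (U - A) (U + H + A) := by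
  classical
  set δs : ℝ := min (ε / 20) (τ / 2) with hδs'
  have hδs : 0 < δs := lt_min (by positivity) (by positivity)
  have hδsε : δs ≤ ε / 20 := min_le_left _ _
  have hδsτ : δs ≤ τ / 2 := min_le_right _ _
  obtain ⟨Δ, hΔ, A0, hA0, T1, hT1, hdich⟩ := dichotomy hε hε1 hh₀ hτ hη hB hδs (by linarith)
  set κ : ℝ := ε / 10 with hκ'
  have hκ : 0 < κ := by positivity
  set a : ℕ := ⌈A0⌉₊ + 1 with ha
  have haA : A0 + 1 ≤ a := by
    rw [ha]; push_cast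
    have := Nat.le_ceil A0
    linarith
  set C0 : ℝ := 2 * a + 4 with hC0'
  have hC0 : 0 < C0 := by positivity
  have hdc : ∀ δ ∈ Δ, ∃ C : ℝ, 0 < C ∧ ∃ T0 : ℝ, 1 ≤ T0 ∧ ∀ T : ℝ, T0 ≤ T → ∀ H : ℝ, 1 ≤ H →
      H ≤ T → ∀ σ : ℝ, 1 / 2 ≤ σ → σ ≤ 1 → ∀ M0 N0 : ℕ, (N0 : ℝ) ≤ C0 * H →
      ∀ S : Finset ℕ, S ⊆ Finset.Ico M0 (M0 + N0) →
      (∀ n ∈ S, ∃ y : ℝ, (n : ℝ) ≤ y ∧ y ≤ n + 1 ∧ 3 ≤ y ∧ ∃ r : ℝ, 0 < r ∧ r ≤ 2 - σ ∧ ∃ ρ : ℂ,
        riemannZeta ρ = 0 ∧ ‖ρ - ⟨2, y⟩‖ ≤ r ∧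
        ∀ z ∈ closedBall (⟨2, y⟩ : ℂ) (r + δ), ‖riemannZeta z‖ ≤ T ^ (κ / 200 * δ)) →
      (S.card : ℝ) ≤ C * (T ^ (7 * κ) * H ^ (2 * (1 - σ))) :=
    fun δ hδ => det_count hκ (by linarith) (hΔ δ hδ).1 (hΔ δ hδ).2 hC0
  choose! Cd hCd Td hTd hdet using hdc
  obtain ⟨T2, hT2⟩ := Finset.exists_le (Δ.image Td)
  set Ct : ℝ := ∑ δ ∈ Δ, Cd δ with hCt
  have hCt0 : 0 ≤ Ct := Finset.sum_nonneg fun δ hδ => (hCd δ hδ).le
  obtain ⟨C3, hC3, hwin⟩ := DH31.windows_to_count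
  have ev := DH31.ev_log 1 (ε / 10) 1 (by positivity)
  obtain ⟨T4, hT4⟩ := Filter.eventually_atTop.1 ev
  refine ⟨2 * a + 4, C3 + a * C3 + (2 * a + 1) * (Ct + 1) * C3 + 3 * C3,
    max (max T1 T2) (max T4 3), by positivity, by positivity, ?_⟩
  intro T hT U H hU hH1 hUH σ hσ1 hσ2
  have hTT1 : T1 ≤ T := (le_max_left _ _).trans ((le_max_left _ _).trans hT)
  have hTT2 : T2 ≤ T := (le_max_right _ _).trans ((le_max_left _ _).trans hT)
  have hTT4 : T4 ≤ T := (le_max_left _ _).trans ((le_max_right _ _).trans hT)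
  have hT3 : 3 ≤ T := (le_max_right _ _).trans ((le_max_right _ _).trans hT)
  have hTpos : 0 < T := by linarith
  have hH0 : 0 < H := by linarith
  have hHT : H ≤ T := by linarith
  set AA : Set ℂ := {ρ : ℂ | riemannZeta ρ = 0 ∧ σ ≤ ρ.re ∧ U < ρ.im ∧ ρ.im ≤ U + H} with hAA
  have hAsub : AA ⊆ DH31.zeros (1 / 2) T := by
    rintro ρ ⟨a1, a2, a3, a4⟩
    exact ⟨a1, hσ1.trans a2, by linarith, by linarith⟩
  set P : ℕ → Prop := fun n => ∃ ρ ∈ AA, 3 < ρ.im ∧ (n : ℝ) < ρ.im ∧ ρ.im ≤ n + 1 with hP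
  set S : Finset ℕ := (Finset.range (⌊T⌋₊ + 1)).filter P with hS
  have hSP : ∀ n ∈ S, P n := fun n hn => (Finset.mem_filter.1 hn).2
  have hcnt := hwin T hT3 AA hAsub S (by
    intro w hw hw3
    set n : ℕ := ⌈w.im⌉₊ - 1 with hn
    have hceil : 1 ≤ ⌈w.im⌉₊ := Nat.one_le_iff_ne_zero.2 (by
      intro h; rw [Nat.ceil_eq_zero] at h; linarith)
    have hn1 : ((n : ℕ) : ℝ) + 1 = (⌈w.im⌉₊ : ℝ) := by
      rw [hn]
      have : ((⌈w.im⌉₊ - 1 : ℕ) : ℝ) = (⌈w.im⌉₊ : ℝ) - 1 := by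
        push_cast [Nat.cast_sub hceil]; ring
      rw [this]; ring
    have h10 : (n : ℝ) < w.im := by
      have := Nat.ceil_lt_add_one (show 0 ≤ w.im by linarith)
      linarith
    have h11 : w.im ≤ n + 1 := by rw [hn1]; exact Nat.le_ceil _
    refine ⟨n, ?_, h10, h11⟩
    rw [hS, Finset.mem_filter, Finset.mem_range]
    refine ⟨?_, w, hw, hw3, h10, h11⟩
    have h12 : (n : ℝ) ≤ T := h10.le.trans ((hw.2.2.2).trans hUH)
    have := Nat.le_floor h12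
    omega)
  have hSW : ∀ n ∈ S, ⌊U⌋₊ ≤ n ∧ n ≤ ⌊U⌋₊ + ⌊H⌋₊ + 1 := by
    intro n hn
    obtain ⟨ρ, ⟨a1, a2, a3, a4⟩, h3, h4, h5⟩ := hSP n hn
    have f1 : (⌊U⌋₊ : ℝ) ≤ U := Nat.floor_le hU
    have f2 : U < ⌊U⌋₊ + 1 := Nat.lt_floor_add_one U
    have f3 : H < ⌊H⌋₊ + 1 := Nat.lt_floor_add_one H
    constructor
    · have : (⌊U⌋₊ : ℝ) < n + 1 := by linarith
      have h6 : ⌊U⌋₊ < n + 1 := by exact_mod_cast this
      omega
    · have : (n : ℝ) < ⌊U⌋₊ + ⌊H⌋₊ + 2 := by linarith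
      have h6 : n < ⌊U⌋₊ + ⌊H⌋₊ + 2 := by exact_mod_cast this
      omega
  set cl : ℝ := ((clu ε h₀ τ η B T (σ - τ) (U - (2 * a + 4)) (U + H + (2 * a + 4)) : ℕ) : ℝ)
    with hcl
  have hcl0 : 0 ≤ cl := by rw [hcl]; positivity
  have hlog0 : 0 ≤ Real.log T := Real.log_nonneg (by linarith)
  have hlog : Real.log T ≤ T ^ (ε / 10) := by
    have := hT4 T hTT4
    simpa using this
  have hHσ1 : 1 ≤ H ^ (2 * (1 - σ)) := Real.one_le_rpow hH1 (by linarith)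
  have hTε1 : 1 ≤ T ^ ε := Real.one_le_rpow (by linarith) hε.le
  set X : ℝ := T ^ ε * H ^ (2 * (1 - σ)) with hX
  have hX1 : 1 ≤ X := by
    rw [hX]
    nlinarith
  have hlogX : Real.log T ≤ X := by
    calc Real.log T ≤ T ^ (ε / 10) := hlog
      _ ≤ T ^ ε := Real.rpow_le_rpow_of_exponent_le (by linarith) (by linarith)
      _ ≤ T ^ ε * H ^ (2 * (1 - σ)) := le_mul_of_one_le_right (by positivity) hHσ1
  rcases lt_or_ge (σ - 2 * δs) (1 / 2) with hcase | hcase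
  · -- trivial range
    have hScard : (S.card : ℝ) ≤ 3 * H := by
      have h1 : S ⊆ Finset.Icc ⌊U⌋₊ (⌊U⌋₊ + ⌊H⌋₊ + 1) := by
        intro n hn
        rw [Finset.mem_Icc]
        exact hSW n hn
      have h2 := Finset.card_le_card h1
      rw [Nat.card_Icc] at h2
      have h3 : S.card ≤ ⌊H⌋₊ + 2 := by omega
      have h4 : (S.card : ℝ) ≤ ⌊H⌋₊ + 2 := by exact_mod_cast h3
      have h5 : (⌊H⌋₊ : ℝ) ≤ H := Nat.floor_le hH0.le
      linarith
    have hHH : H ≤ H ^ (2 * (1 - σ)) * T ^ (ε / 5) := by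
      have h1 : H = H ^ (2 * (1 - σ)) * H ^ (2 * σ - 1) := by
        rw [← Real.rpow_add hH0]
        have : 2 * (1 - σ) + (2 * σ - 1) = 1 := by ring
        rw [this, Real.rpow_one]
      have h2 : H ^ (2 * σ - 1) ≤ T ^ (ε / 5) := by
        calc H ^ (2 * σ - 1) ≤ T ^ (2 * σ - 1) := by
              apply Real.rpow_le_rpow hH0.le hHT; linarith
          _ ≤ T ^ (ε / 5) := Real.rpow_le_rpow_of_exponent_le (by linarith) (by linarith)
      calc H = H ^ (2 * (1 - σ)) * H ^ (2 * σ - 1) := h1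
        _ ≤ _ := by gcongr
    have hmain : (S.card : ℝ) * Real.log T ≤ 3 * X := by
      calc (S.card : ℝ) * Real.log T ≤ (3 * (H ^ (2 * (1 - σ)) * T ^ (ε / 5))) * T ^ (ε / 10) := by
            gcongr
            linarith
        _ = 3 * (H ^ (2 * (1 - σ)) * (T ^ (ε / 5) * T ^ (ε / 10))) := by ring
        _ ≤ 3 * (H ^ (2 * (1 - σ)) * T ^ ε) := by
            rw [← Real.rpow_add hTpos]
            have : T ^ (ε / 5 + ε / 10) ≤ T ^ ε :=
              Real.rpow_le_rpow_of_exponent_le (by linarith) (by linarith)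
            gcongr
        _ = 3 * X := by rw [hX]; ring
    have h1 : (S.card : ℝ) * (C3 * Real.log T) ≤ 3 * C3 * X := by
      calc (S.card : ℝ) * (C3 * Real.log T) = C3 * ((S.card : ℝ) * Real.log T) := by ring
        _ ≤ C3 * (3 * X) := by gcongr
        _ = _ := by ring
    have h2 : C3 ≤ C3 * X := le_mul_of_one_le_right hC3.le hX1
    have h3 : 0 ≤ (a * C3 + (2 * a + 1) * (Ct + 1) * C3) * X := by positivity
    have h4 : 0 ≤ (C3 + a * C3 + (2 * a + 1) * (Ct + 1) * C3 + 3 * C3) * Real.log T * cl := by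
      positivity
    linarith
  · -- the main case
    set σ' : ℝ := σ - 2 * δs with hσ'
    set M0 : ℕ := ⌊U⌋₊ - a with hM0
    set N0 : ℕ := ⌊H⌋₊ + 2 * a + 3 with hN0
    have hN0H : (N0 : ℝ) ≤ C0 * H := by
      rw [hN0, hC0']
      push_cast
      have h5 : (⌊H⌋₊ : ℝ) ≤ H := Nat.floor_le hH0.le
      have h6 : (0 : ℝ) ≤ a := by positivity
      nlinarith
    set W : Finset ℕ := Finset.Ico M0 (M0 + N0) with hW
    let D : ℝ → Finset ℕ := fun δ => W.filter fun n => ∃ y : ℝ, (n : ℝ) ≤ y ∧ y ≤ n + 1 ∧ 3 ≤ y ∧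
      ∃ r : ℝ, 0 < r ∧ r ≤ 2 - σ' ∧ ∃ ρ : ℂ, riemannZeta ρ = 0 ∧ ‖ρ - ⟨2, y⟩‖ ≤ r ∧
        ∀ z ∈ closedBall (⟨2, y⟩ : ℂ) (r + δ), ‖riemannZeta z‖ ≤ T ^ (κ / 200 * δ)
    let Cl : Finset ℕ := W.filter fun n => ∃ w : ℂ, σ - τ ≤ w.re ∧ (n : ℝ) ≤ w.im ∧
      w.im ≤ n + 1 ∧ Ext ε h₀ τ η B T w
    have hcov : ∀ n ∈ S, n < a ∨ ∃ n' ∈ Δ.biUnion D ∪ Cl, n ≤ n' + a ∧ n' ≤ n + a := by
      intro n hn
      rcases lt_or_ge n a with hna | hna
      · exact Or.inl hna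
      right
      have hnar : (a : ℝ) ≤ n := by exact_mod_cast hna
      obtain ⟨ρ, ⟨a1, a2, a3, a4⟩, h3, h4, h5⟩ := hSP n hn
      obtain ⟨hn1, hn2⟩ := hSW n hn
      obtain ⟨y, hy, hor⟩ := hdich T hTT1 ρ a1 (by linarith) (by linarith) (by linarith)
      rw [abs_le] at hy
      have hy0 : 0 ≤ y := by linarith [hy.1]
      set n' : ℕ := ⌊y⌋₊ with hn'
      have g1 : (n' : ℝ) ≤ y := Nat.floor_le hy0
      have g2 : y < n' + 1 := Nat.lt_floor_add_one y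
      have g3 : n ≤ n' + a := by
        have : (n : ℝ) < n' + a := by linarith [hy.1]
        exact_mod_cast this.le
      have g4 : n' ≤ n + a := by
        have : (n' : ℝ) < n + a := by linarith [hy.2]
        exact_mod_cast this.le
      have g5 : n' ∈ W := by
        rw [hW, Finset.mem_Ico]
        omega
      refine ⟨n', ?_, g3, g4⟩
      rw [Finset.mem_union]
      rcases hor with ⟨δ, hδ, r, hr0, hr, ρ', b1, b2, b3⟩ | ⟨w, b1, b2, b3⟩
      · left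
        rw [Finset.mem_biUnion]
        refine ⟨δ, hδ, Finset.mem_filter.2 ⟨g5, y, g1, g2.le, by linarith [hy.1], r, hr0,
          by linarith, ρ', b1, b2, ?_⟩⟩
        intro z hz
        have e0 : κ / 200 * δ = ε / 2000 * δ := by rw [hκ']; ring
        rw [e0]
        exact b3 z hz
      · right
        refine Finset.mem_filter.2 ⟨g5, w, by linarith, ?_, ?_, b3⟩
        · rw [b1]; exact g1
        · rw [b1]; exact g2.le
    have hScard := card_cover hcov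
    have hDcard : ∀ δ ∈ Δ, ((D δ).card : ℝ) ≤ Cd δ * (T ^ (7 * κ) * H ^ (2 * (1 - σ'))) := by
      intro δ hδ
      have hTd' : Td δ ≤ T := (hT2 _ (Finset.mem_image_of_mem _ hδ)).trans hTT2
      exact hdet δ hδ T hTd' H hH1 hHT σ' hcase (by linarith) M0 N0 hN0H (D δ)
        (Finset.filter_subset _ _) (fun n hn => (Finset.mem_filter.1 hn).2)
    have hClcard : (Cl.card : ℝ) ≤ cl := by
      have hfin : {n : ℕ | U - (2 * a + 4) ≤ n ∧ (n : ℝ) ≤ U + H + (2 * a + 4) ∧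
          ∃ w : ℂ, σ - τ ≤ w.re ∧ (n : ℝ) ≤ w.im ∧ w.im ≤ n + 1 ∧ Ext ε h₀ τ η B T w}.Finite := by
        refine (Set.finite_Iic (⌊U + H + (2 * a + 4)⌋₊)).subset ?_
        rintro n ⟨-, h2, -⟩
        exact Nat.le_floor h2
      have h1 : (Cl : Set ℕ) ⊆ {n : ℕ | U - (2 * a + 4) ≤ n ∧ (n : ℝ) ≤ U + H + (2 * a + 4) ∧
          ∃ w : ℂ, σ - τ ≤ w.re ∧ (n : ℝ) ≤ w.im ∧ w.im ≤ n + 1 ∧ Ext ε h₀ τ η B T w} := by
        intro n hn
        have hn' := Finset.mem_filter.1 (Finset.mem_coe.1 hn)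
        obtain ⟨hnW, hw⟩ := hn'
        rw [hW, Finset.mem_Ico] at hnW
        have f1 : (⌊U⌋₊ : ℝ) ≤ U := Nat.floor_le hU
        have f2 : U < ⌊U⌋₊ + 1 := Nat.lt_floor_add_one U
        have f3 : (⌊H⌋₊ : ℝ) ≤ H := Nat.floor_le hH0.le
        refine ⟨?_, ?_, hw⟩
        · have h5 : ⌊U⌋₊ ≤ n + a := by omega
          have h6 : (⌊U⌋₊ : ℝ) ≤ n + a := by exact_mod_cast h5
          linarith
        · have h5 : n ≤ ⌊U⌋₊ + ⌊H⌋₊ + 2 * a + 3 := by omega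
          have h6 : (n : ℝ) ≤ ⌊U⌋₊ + ⌊H⌋₊ + 2 * a + 3 := by exact_mod_cast h5
          linarith
      have h2 := Set.ncard_le_ncard h1 hfin
      rw [Set.ncard_coe_finset] at h2
      rw [hcl]
      unfold clu
      exact_mod_cast h2
    have hsum : (((Δ.biUnion D ∪ Cl).card : ℕ) : ℝ) ≤
        Ct * (T ^ (7 * κ) * H ^ (2 * (1 - σ'))) + cl := by
      have h1 : (Δ.biUnion D ∪ Cl).card ≤ ∑ δ ∈ Δ, (D δ).card + Cl.card :=
        (Finset.card_union_le _ _).trans (Nat.add_le_add_right Finset.card_biUnion_le _)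
      have h2 : (((Δ.biUnion D ∪ Cl).card : ℕ) : ℝ) ≤ ∑ δ ∈ Δ, ((D δ).card : ℝ) + (Cl.card : ℝ) := by
        exact_mod_cast h1
      refine h2.trans (add_le_add ?_ hClcard)
      rw [hCt, Finset.sum_mul]
      exact Finset.sum_le_sum hDcard
    -- the power of T
    have hpow : T ^ (7 * κ) * H ^ (2 * (1 - σ')) * Real.log T ≤ X := by
      have h1 : H ^ (2 * (1 - σ')) ≤ H ^ (2 * (1 - σ)) * T ^ (ε / 5) := by
        have h2 : H ^ (2 * (1 - σ')) = H ^ (2 * (1 - σ)) * H ^ (4 * δs) := by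
          rw [← Real.rpow_add hH0]
          congr 1
          rw [hσ']; ring
        rw [h2]
        have h3 : H ^ (4 * δs) ≤ T ^ (ε / 5) := by
          calc H ^ (4 * δs) ≤ T ^ (4 * δs) := by
                apply Real.rpow_le_rpow hH0.le hHT; positivity
            _ ≤ T ^ (ε / 5) := Real.rpow_le_rpow_of_exponent_le (by linarith) (by linarith)
        gcongr
      calc T ^ (7 * κ) * H ^ (2 * (1 - σ')) * Real.log T
          ≤ T ^ (7 * κ) * (H ^ (2 * (1 - σ)) * T ^ (ε / 5)) * T ^ (ε / 10) := by gcongr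
        _ = (T ^ (7 * κ) * T ^ (ε / 5) * T ^ (ε / 10)) * H ^ (2 * (1 - σ)) := by ring
        _ = X := by
            rw [← Real.rpow_add hTpos, ← Real.rpow_add hTpos, hX]
            congr 2
            rw [hκ']; ring
    have hScard' : (S.card : ℝ) ≤ a + (2 * a + 1) *
        (Ct * (T ^ (7 * κ) * H ^ (2 * (1 - σ'))) + cl) := by
      have h1 : (S.card : ℝ) ≤ a + (2 * a + 1) * (((Δ.biUnion D ∪ Cl).card : ℕ) : ℝ) := by
        exact_mod_cast hScard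
      refine h1.trans ?_
      gcongr
    have h1 : (S.card : ℝ) * (C3 * Real.log T) ≤ a * C3 * X + (2 * a + 1) * Ct * C3 * X +
        (2 * a + 1) * C3 * Real.log T * cl := by
      calc (S.card : ℝ) * (C3 * Real.log T) ≤ (a + (2 * a + 1) *
        (Ct * (T ^ (7 * κ) * H ^ (2 * (1 - σ'))) + cl)) * (C3 * Real.log T) := by gcongr
        _ = a * C3 * Real.log T + (2 * a + 1) * Ct * C3 *
            (T ^ (7 * κ) * H ^ (2 * (1 - σ')) * Real.log T) +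
            (2 * a + 1) * C3 * Real.log T * cl := by ring
        _ ≤ _ := by gcongr
    have h2 : C3 ≤ C3 * X := le_mul_of_one_le_right hC3.le hX1
    have h3 : 0 ≤ (2 * a + 1) * C3 * X := by positivity
    have h3' : 0 ≤ C3 * X := by positivity
    have h4 : 0 ≤ (C3 + a * C3 + (2 * a + 1) * Ct * C3 + 3 * C3) * Real.log T * cl := by
      positivity
    have e1 : (C3 + a * C3 + (2 * a + 1) * (Ct + 1) * C3 + 3 * C3) * Real.log T * cl =
      (C3 + a * C3 + (2 * a + 1) * Ct * C3 + 3 * C3) * Real.log T * cl +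
      (2 * a + 1) * C3 * Real.log T * cl := by ring
    have e2 : (C3 + a * C3 + (2 * a + 1) * (Ct + 1) * C3 + 3 * C3) * X =
      C3 * X + a * C3 * X + (2 * a + 1) * Ct * C3 * X + (2 * a + 1) * C3 * X + 3 * (C3 * X) := by ring
    rw [e1, e2]
    linarith

end Pool.Agent.K9h52.DX
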