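import Pool.Agent.K9h52.DX.Dich3
import Pool.Agent.K9h52.DX.DetCount2
import Pool.Agent.K9h52.DX.Main

/-!
The number of zeros in terms of the number of extremal clusters: long windows, general exponent.
-/

open Complex Metric Set Filter Topology

namespace Pool.Agent.K9h52.DX

open H370 H370.Loc DH31

/-- the number of the unit intervals between `V₁` and `V₂` with an extremal cluster with edge at
least `σ` -/
noncomputable def clu3 (ε h₀ τ η B T σ V₁ V₂ : ℝ) : ℕ :=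
  {n : ℕ | V₁ ≤ n ∧ (n : ℝ) ≤ V₂ ∧ ∃ w : ℂ, σ ≤ w.re ∧ (n : ℝ) ≤ w.im ∧ w.im ≤ n + 1 ∧
    Ext3 ε h₀ τ η B T w}.ncard

lemma clu3_finite (ε h₀ τ η B T σ V₁ V₂ : ℝ) :
    {n : ℕ | V₁ ≤ n ∧ (n : ℝ) ≤ V₂ ∧ ∃ w : ℂ, σ ≤ w.re ∧ (n : ℝ) ≤ w.im ∧ w.im ≤ n + 1 ∧
      Ext3 ε h₀ τ η B T w}.Finite := by
  refine (Set.finite_Iic (⌊V₂⌋₊)).subset ?_
  rintro n ⟨-, h2, -⟩
  exact Nat.le_floor h2

lemma fin_sum {a A1 B Ct Z cl C3 L S Y : ℝ} (hC3 : 0 ≤ C3) (hL : 1 ≤ L) (hB : 1 ≤ B)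
    (ha : a ≤ A1 * B) (ha0 : 0 ≤ a) (hA1 : 1 ≤ A1) (hCt : 0 ≤ Ct) (hZ : 1 ≤ Z) (hcl : 0 ≤ cl)
    (hY : Y = B ^ 2 * Z * L) (hS : S ≤ a + (2 * a + 1) * (Ct * (Z * B) + cl)) :
    C3 + S * (C3 * L) ≤ (C3 + A1 * C3 + (2 * A1 + 1) * (Ct + 1) * C3) * Y +
      (C3 + A1 * C3 + (2 * A1 + 1) * (Ct + 1) * C3) * (B * L * cl) := by
  have hL0 : 0 ≤ L := by linarith
  have hB0 : 0 ≤ B := by linarith
  have hZ0 : 0 ≤ Z := by linarith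
  have hBB : B ≤ B ^ 2 := by nlinarith
  have hBZ : B ≤ B ^ 2 * Z := by nlinarith [mul_nonneg (sq_nonneg B) (sub_nonneg.2 hZ)]
  have hY1 : B * L ≤ Y := by
    rw [hY]
    exact mul_le_mul_of_nonneg_right hBZ hL0
  have hY0 : 1 ≤ Y := by
    have : 1 ≤ B * L := by nlinarith
    linarith
  have h2a : 2 * a + 1 ≤ (2 * A1 + 1) * B := by nlinarith
  have hS' : S ≤ A1 * B + (2 * A1 + 1) * B * (Ct * (Z * B) + cl) := by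
    refine hS.trans (add_le_add ha ?_)
    exact mul_le_mul_of_nonneg_right h2a (by positivity)
  have h1 : S * (C3 * L) ≤ (A1 * B + (2 * A1 + 1) * B * (Ct * (Z * B) + cl)) * (C3 * L) :=
    mul_le_mul_of_nonneg_right hS' (by positivity)
  have h2 : (A1 * B + (2 * A1 + 1) * B * (Ct * (Z * B) + cl)) * (C3 * L) =
      A1 * C3 * (B * L) + (2 * A1 + 1) * Ct * C3 * Y + (2 * A1 + 1) * C3 * (B * L * cl) := by
    rw [hY]; ring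
  have h3 : A1 * C3 * (B * L) ≤ A1 * C3 * Y := mul_le_mul_of_nonneg_left hY1 (by positivity)
  have h4 : C3 ≤ C3 * Y := le_mul_of_one_le_right hC3 hY0
  have h5 : 0 ≤ (2 * A1 + 1) * C3 * Y := by positivity
  have h6 : 0 ≤ (C3 + A1 * C3 + (2 * A1 + 1) * Ct * C3) * (B * L * cl) := by positivity
  have e1 : (C3 + A1 * C3 + (2 * A1 + 1) * (Ct + 1) * C3) * Y = C3 * Y + A1 * C3 * Y +
    (2 * A1 + 1) * Ct * C3 * Y + (2 * A1 + 1) * C3 * Y := by ring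
  have e2 : (C3 + A1 * C3 + (2 * A1 + 1) * (Ct + 1) * C3) * (B * L * cl) =
    (C3 + A1 * C3 + (2 * A1 + 1) * Ct * C3) * (B * L * cl) + (2 * A1 + 1) * C3 * (B * L * cl) := by
    ring
  linarith

set_option maxHeartbeats 1000000 in
theorem main_gen {ε h₀ τ η δs : ℝ} {J : Set ℝ} {e : ℝ → ℝ} (hε : 0 < ε) (hε1 : ε ≤ 1)
    (hh₀ : 0 < h₀) (hτ : 0 < τ) (hη : 0 < η) (hδs : 0 < δs) (hδs1 : δs ≤ 1 / 20)
    (hJ : J ⊆ Icc (1 / 2) 1) (he : ∀ σ ∈ J, 0 ≤ e σ ∧ e σ ≤ 1)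
    (hblk : ∀ δ C0 : ℝ, 0 < δ → 0 < C0 → Blk (ε / 10) (ε / 10 / 200 * δ / 2) C0 J e) :
    ∃ A C T0 : ℝ, 0 < A ∧ 0 < C ∧ ∀ T : ℝ, T0 ≤ T → ∀ B : ℝ, 1 ≤ B → B ≤ T →
      ∀ U H : ℝ, 0 ≤ U → 1 ≤ H → U + H ≤ T → ∀ σ : ℝ, 1 / 2 ≤ σ → σ - 2 * δs ∈ J →
      (cnt {ρ : ℂ | riemannZeta ρ = 0 ∧ σ ≤ ρ.re ∧ U < ρ.im ∧ ρ.im ≤ U + H} : ℝ) ≤
        C * (B ^ 2 * (T ^ (7 * (ε / 10)) * H ^ (e (σ - 2 * δs))) * Real.log T) +
        C * (B * Real.log T * clu3 ε h₀ τ η B T (σ - 2 * δs) (U - A * B) (U + H + A * B)) := by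
  classical
  obtain ⟨Δ, hΔ, N, T1, hT1, hdich⟩ := dichotomy3 hε hε1 hh₀ hτ hη hδs hδs1
  obtain ⟨κ, hκ'⟩ : ∃ κ : ℝ, κ = ε / 10 := ⟨_, rfl⟩
  have hκ : 0 < κ := by rw [hκ']; positivity
  rw [← hκ'] at hblk ⊢
  obtain ⟨A1, hA1'⟩ : ∃ A1 : ℝ, A1 = 4 * N + 12 := ⟨_, rfl⟩
  have hN0' : (0 : ℝ) ≤ N := Nat.cast_nonneg _
  have hA1 : 1 ≤ A1 := by rw [hA1']; linarith
  set C0 : ℝ := 2 * A1 + 4 with hC0'
  have hC0 : 0 < C0 := by positivity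
  have hdc : ∀ δ ∈ Δ, ∃ C : ℝ, 0 < C ∧ ∃ T0 : ℝ, 1 ≤ T0 ∧ ∀ T : ℝ, T0 ≤ T → ∀ H : ℝ, 1 ≤ H →
      H ≤ T → ∀ σ ∈ J, ∀ M0 N0 : ℕ, (N0 : ℝ) ≤ C0 * H →
      ∀ S : Finset ℕ, S ⊆ Finset.Ico M0 (M0 + N0) →
      (∀ n ∈ S, ∃ y : ℝ, (n : ℝ) ≤ y ∧ y ≤ n + 1 ∧ 3 ≤ y ∧ ∃ r : ℝ, 0 < r ∧ r ≤ 2 - σ ∧ ∃ ρ : ℂ,
        riemannZeta ρ = 0 ∧ ‖ρ - ⟨2, y⟩‖ ≤ r ∧
        ∀ z ∈ closedBall (⟨2, y⟩ : ℂ) (r + δ), ‖riemannZeta z‖ ≤ T ^ (κ / 200 * δ)) →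
      (S.card : ℝ) ≤ C * (T ^ (7 * κ) * H ^ (e σ)) :=
    fun δ hδ => det_count2 hκ (by linarith) (hΔ δ hδ).1 (hΔ δ hδ).2 hJ
      (hblk δ C0 (hΔ δ hδ).1 hC0)
  choose! Cd hCd Td hTd hdet using hdc
  obtain ⟨T2, hT2⟩ := Finset.exists_le (Δ.image Td)
  obtain ⟨Ct, hCt⟩ : ∃ Ct : ℝ, Ct = ∑ δ ∈ Δ, Cd δ := ⟨_, rfl⟩
  have hCt0 : 0 ≤ Ct := by rw [hCt]; exact Finset.sum_nonneg fun δ hδ => (hCd δ hδ).le
  obtain ⟨C3, hC3, hwin⟩ := DH31.windows_to_count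
  refine ⟨2 * A1 + 4, C3 + A1 * C3 + (2 * A1 + 1) * (Ct + 1) * C3,
    max (max T1 T2) 3, by positivity, by positivity, ?_⟩
  intro T hT B hB1 hBT U H hU hH1 hUH σ hσ1 hσJ
  have hTT1 : T1 ≤ T := (le_max_left _ _).trans ((le_max_left _ _).trans hT)
  have hTT2 : T2 ≤ T := (le_max_right _ _).trans ((le_max_left _ _).trans hT)
  have hT3 : 3 ≤ T := (le_max_right _ _).trans hT
  have hTpos : 0 < T := by linarith
  have hH0 : 0 < H := by linarith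
  have hHT : H ≤ T := by linarith
  have hB0 : 0 < B := by linarith
  obtain ⟨A0, hA0⟩ : ∃ A0 : ℝ, A0 = N * (B + 3) + 10 := ⟨_, rfl⟩
  have hA0pos : 0 < A0 := by rw [hA0]; positivity
  obtain ⟨a, ha⟩ : ∃ a : ℕ, a = ⌈A0⌉₊ + 1 := ⟨_, rfl⟩
  have haA : A0 + 1 ≤ a := by
    rw [ha]; push_cast
    have := Nat.le_ceil A0
    linarith
  have haA1 : (a : ℝ) ≤ A1 * B := by
    have h1 : (a : ℝ) ≤ A0 + 2 := by
      rw [ha]; push_cast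
      have := (Nat.ceil_lt_add_one hA0pos.le).le
      linarith
    rw [hA0] at h1
    rw [hA1']
    nlinarith
  set AA : Set ℂ := {ρ : ℂ | riemannZeta ρ = 0 ∧ σ ≤ ρ.re ∧ U < ρ.im ∧ ρ.im ≤ U + H} with hAA
  have hAsub : AA ⊆ DH31.zeros (1 / 2) T := by
    rintro ρ ⟨a1, a2, a3, a4⟩
    exact ⟨a1, hσ1.trans a2, by linarith, by linarith⟩
  set P : ℕ → Prop := fun n => ∃ ρ ∈ AA, 3 < ρ.im ∧ (n : ℝ) < ρ.im ∧ ρ.im ≤ n + 1 with hP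
  set S : Finset ℕ := (Finset.range (⌊T⌋₊ + 1)).filter P with hS
  have hSP : ∀ n ∈ S, P n := fun n hn => (Finset.mem_filter.1 hn).2
  have hcnt := hwin T hT3 AA hAsub S (by
    intro w hw hw3
    set n : ℕ := ⌈w.im⌉₊ - 1 with hn
    have hceil : 1 ≤ ⌈w.im⌉₊ := Nat.one_le_iff_ne_zero.2 (by
      intro h; rw [Nat.ceil_eq_zero] at h; linarith)
    have hn1 : ((n : ℕ) : ℝ) + 1 = (⌈w.im⌉₊ : ℝ) := by
      rw [hn]
      have : ((⌈w.im⌉₊ - 1 : ℕ) : ℝ) = (⌈w.im⌉₊ : ℝ) - 1 := by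
        push_cast [Nat.cast_sub hceil]; ring
      rw [this]; ring
    have h10 : (n : ℝ) < w.im := by
      have := Nat.ceil_lt_add_one (show 0 ≤ w.im by linarith)
      linarith
    have h11 : w.im ≤ n + 1 := by rw [hn1]; exact Nat.le_ceil _
    refine ⟨n, ?_, h10, h11⟩
    rw [hS, Finset.mem_filter, Finset.mem_range]
    refine ⟨?_, w, hw, hw3, h10, h11⟩
    have h12 : (n : ℝ) ≤ T := h10.le.trans ((hw.2.2.2).trans hUH)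
    have := Nat.le_floor h12
    omega)
  have hSW : ∀ n ∈ S, ⌊U⌋₊ ≤ n ∧ n ≤ ⌊U⌋₊ + ⌊H⌋₊ + 1 := by
    intro n hn
    obtain ⟨ρ, ⟨a1, a2, a3, a4⟩, h3, h4, h5⟩ := hSP n hn
    have f1 : (⌊U⌋₊ : ℝ) ≤ U := Nat.floor_le hU
    have f2 : U < ⌊U⌋₊ + 1 := Nat.lt_floor_add_one U
    have f3 : H < ⌊H⌋₊ + 1 := Nat.lt_floor_add_one H
    constructor
    · have : (⌊U⌋₊ : ℝ) < n + 1 := by linarith
      have h6 : ⌊U⌋₊ < n + 1 := by exact_mod_cast this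
      omega
    · have : (n : ℝ) < ⌊U⌋₊ + ⌊H⌋₊ + 2 := by linarith
      have h6 : n < ⌊U⌋₊ + ⌊H⌋₊ + 2 := by exact_mod_cast this
      omega
  obtain ⟨σ', hσ'⟩ : ∃ σ' : ℝ, σ' = σ - 2 * δs := ⟨_, rfl⟩
  rw [← hσ'] at hσJ ⊢
  have hσ'1 := hJ hσJ
  obtain ⟨he0, he1⟩ := he σ' hσJ
  set cl : ℝ := ((clu3 ε h₀ τ η B T σ' (U - (2 * A1 + 4) * B) (U + H + (2 * A1 + 4) * B) : ℕ) : ℝ)
    with hcl
  have hcl0 : 0 ≤ cl := by rw [hcl]; positivity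
  have hlog1 : 1 ≤ Real.log T := by
    rw [Real.le_log_iff_exp_le hTpos]
    have := Real.exp_one_lt_d9
    linarith
  set M0 : ℕ := ⌊U⌋₊ - a with hM0
  set N0 : ℕ := ⌊H⌋₊ + 2 * a + 3 with hN0
  obtain ⟨H2, hH2⟩ : ∃ H2 : ℝ, H2 = max H B := ⟨_, rfl⟩
  have hH2H : H ≤ H2 := by rw [hH2]; exact le_max_left _ _
  have hH2B : B ≤ H2 := by rw [hH2]; exact le_max_right _ _
  have hH2T : H2 ≤ T := by rw [hH2]; exact max_le hHT hBT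
  have hH2HB : H2 ≤ H * B := by
    rw [hH2]
    apply max_le
    · nlinarith
    · nlinarith
  have hN0H : (N0 : ℝ) ≤ C0 * H2 := by
    rw [hN0, hC0']
    push_cast
    have h5 : (⌊H⌋₊ : ℝ) ≤ H := Nat.floor_le hH0.le
    have h6 : A1 * B ≤ A1 * H2 := by gcongr
    have h7 : 1 ≤ H2 := hH1.trans hH2H
    nlinarith
  set W : Finset ℕ := Finset.Ico M0 (M0 + N0) with hW
  let D : ℝ → Finset ℕ := fun δ => W.filter fun n => ∃ y : ℝ, (n : ℝ) ≤ y ∧ y ≤ n + 1 ∧ 3 ≤ y ∧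
    ∃ r : ℝ, 0 < r ∧ r ≤ 2 - σ' ∧ ∃ ρ : ℂ, riemannZeta ρ = 0 ∧ ‖ρ - ⟨2, y⟩‖ ≤ r ∧
      ∀ z ∈ closedBall (⟨2, y⟩ : ℂ) (r + δ), ‖riemannZeta z‖ ≤ T ^ (κ / 200 * δ)
  let Cl : Finset ℕ := W.filter fun n => ∃ w : ℂ, σ' ≤ w.re ∧ (n : ℝ) ≤ w.im ∧
    w.im ≤ n + 1 ∧ Ext3 ε h₀ τ η B T w
  have hcov : ∀ n ∈ S, n < a ∨ ∃ n' ∈ Δ.biUnion D ∪ Cl, n ≤ n' + a ∧ n' ≤ n + a := by
    intro n hn
    rcases lt_or_ge n a with hna | hna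
    · exact Or.inl hna
    right
    have hnar : (a : ℝ) ≤ n := by exact_mod_cast hna
    obtain ⟨ρ, ⟨a1, a2, a3, a4⟩, h3, h4, h5⟩ := hSP n hn
    obtain ⟨hn1, hn2⟩ := hSW n hn
    obtain ⟨y, hy, hor⟩ := hdich T hTT1 B hB1 ρ a1 (by linarith) (by linarith) (by linarith)
    rw [abs_le] at hy
    have hy0 : 0 ≤ y := by linarith [hy.1]
    set n' : ℕ := ⌊y⌋₊ with hn'
    have g1 : (n' : ℝ) ≤ y := Nat.floor_le hy0
    have g2 : y < n' + 1 := Nat.lt_floor_add_one y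
    have g3 : n ≤ n' + a := by
      have : (n : ℝ) < n' + a := by linarith [hy.1]
      exact_mod_cast this.le
    have g4 : n' ≤ n + a := by
      have : (n' : ℝ) < n + a := by linarith [hy.2]
      exact_mod_cast this.le
    have g5 : n' ∈ W := by
      rw [hW, Finset.mem_Ico]
      omega
    refine ⟨n', ?_, g3, g4⟩
    rw [Finset.mem_union]
    rcases hor with ⟨δ, hδ, r, hr0, hr, ρ', b1, b2, b3⟩ | ⟨w, b1, b2, b3⟩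
    · left
      rw [Finset.mem_biUnion]
      refine ⟨δ, hδ, Finset.mem_filter.2 ⟨g5, y, g1, g2.le, by linarith [hy.1], r, hr0,
        by linarith, ρ', b1, b2, ?_⟩⟩
      intro z hz
      have e0 : κ / 200 * δ = ε / 2000 * δ := by rw [hκ']; ring
      rw [e0]
      exact b3 z hz
    · right
      refine Finset.mem_filter.2 ⟨g5, w, by linarith, ?_, ?_, b3⟩
      · rw [b1]; exact g1
      · rw [b1]; exact g2.le
  have hScard := card_cover hcov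
  obtain ⟨Z, hZ⟩ : ∃ Z : ℝ, Z = T ^ (7 * κ) * H ^ (e σ') := ⟨_, rfl⟩
  have hZ1 : 1 ≤ Z := by
    rw [hZ]
    have h1 : 1 ≤ T ^ (7 * κ) := Real.one_le_rpow (by linarith) (by positivity)
    have h2 : 1 ≤ H ^ (e σ') := Real.one_le_rpow hH1 he0
    nlinarith
  have hDcard : ∀ δ ∈ Δ, ((D δ).card : ℝ) ≤ Cd δ * (Z * B) := by
    intro δ hδ
    have hTd' : Td δ ≤ T := (hT2 _ (Finset.mem_image_of_mem _ hδ)).trans hTT2
    refine (hdet δ hδ T hTd' H2 (hH1.trans hH2H) hH2T σ' hσJ M0 N0 hN0H (D δ)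
      (Finset.filter_subset _ _) (fun n hn => (Finset.mem_filter.1 hn).2)).trans ?_
    have h1 : H2 ^ (e σ') ≤ H ^ (e σ') * B := by
      calc H2 ^ (e σ') ≤ (H * B) ^ (e σ') := Real.rpow_le_rpow (by linarith) hH2HB he0
        _ = H ^ (e σ') * B ^ (e σ') := Real.mul_rpow hH0.le hB0.le
        _ ≤ H ^ (e σ') * B ^ (1 : ℝ) := by
            have := Real.rpow_le_rpow_of_exponent_le hB1 he1
            gcongr
        _ = _ := by rw [Real.rpow_one]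
    have h2 : T ^ (7 * κ) * H2 ^ (e σ') ≤ Z * B := by
      rw [hZ, mul_assoc]
      gcongr
    exact mul_le_mul_of_nonneg_left h2 (hCd δ hδ).le
  have hClcard : (Cl.card : ℝ) ≤ cl := by
    have h1 : (Cl : Set ℕ) ⊆ {n : ℕ | U - (2 * A1 + 4) * B ≤ n ∧
        (n : ℝ) ≤ U + H + (2 * A1 + 4) * B ∧
        ∃ w : ℂ, σ' ≤ w.re ∧ (n : ℝ) ≤ w.im ∧ w.im ≤ n + 1 ∧ Ext3 ε h₀ τ η B T w} := by
      intro n hn
      have hn' := Finset.mem_filter.1 (Finset.mem_coe.1 hn)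
      obtain ⟨hnW, hw⟩ := hn'
      rw [hW, Finset.mem_Ico] at hnW
      have f1 : (⌊U⌋₊ : ℝ) ≤ U := Nat.floor_le hU
      have f2 : U < ⌊U⌋₊ + 1 := Nat.lt_floor_add_one U
      have f3 : (⌊H⌋₊ : ℝ) ≤ H := Nat.floor_le hH0.le
      have f4 : (2 * A1 + 4) * B = 2 * (A1 * B) + 4 * B := by ring
      refine ⟨?_, ?_, hw⟩
      · have h5 : ⌊U⌋₊ ≤ n + a := by omega
        have h6 : (⌊U⌋₊ : ℝ) ≤ n + a := by exact_mod_cast h5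
        have f5 : 0 ≤ A1 * B := by positivity
        linarith
      · have h5 : n ≤ ⌊U⌋₊ + ⌊H⌋₊ + 2 * a + 3 := by omega
        have h6 : (n : ℝ) ≤ ⌊U⌋₊ + ⌊H⌋₊ + 2 * a + 3 := by exact_mod_cast h5
        linarith
    have h2 := Set.ncard_le_ncard h1 (clu3_finite _ _ _ _ _ _ _ _ _)
    rw [Set.ncard_coe_finset] at h2
    rw [hcl]
    unfold clu3
    exact_mod_cast h2
  have hsum : (((Δ.biUnion D ∪ Cl).card : ℕ) : ℝ) ≤ Ct * (Z * B) + cl := by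
    have h1 : (Δ.biUnion D ∪ Cl).card ≤ ∑ δ ∈ Δ, (D δ).card + Cl.card :=
      (Finset.card_union_le _ _).trans (Nat.add_le_add_right Finset.card_biUnion_le _)
    have h2 : (((Δ.biUnion D ∪ Cl).card : ℕ) : ℝ) ≤ ∑ δ ∈ Δ, ((D δ).card : ℝ) + (Cl.card : ℝ) := by
      exact_mod_cast h1
    refine h2.trans (add_le_add ?_ hClcard)
    rw [hCt, Finset.sum_mul]
    exact Finset.sum_le_sum hDcard
  have hScard' : (S.card : ℝ) ≤ a + (2 * a + 1) * (Ct * (Z * B) + cl) := by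
    have h1 : (S.card : ℝ) ≤ a + (2 * a + 1) * (((Δ.biUnion D ∪ Cl).card : ℕ) : ℝ) := by
      exact_mod_cast hScard
    refine h1.trans ?_
    gcongr
  rw [← hZ]
  exact hcnt.trans (fin_sum hC3.le hlog1 hB1 haA1 (Nat.cast_nonneg _) hA1 hCt0 hZ1 hcl0 rfl hScard')

end Pool.Agent.K9h52.DX
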