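import Pool.Agent.K9h52.DX.Loc
import Pool.Agent.K9h52.DX.Light
import Pool.Agent.H31R2.DH.Assemble

/-!
One scale: if the discs of radius `2h` at the edge contain few zeros, zeta is small slightly beyond
the edge.
-/

open Complex Metric Set Filter Topology

namespace Pool.Agent.K9h52.DX

open H370 H370.Loc DH31

/-- the zeros in a closed disc -/
def Zd (c : ℂ) (R : ℝ) : Set ℂ := {s : ℂ | riemannZeta s = 0 ∧ ‖s - c‖ ≤ R}

lemma Zd_finite (c : ℂ) (R : ℝ) : (Zd c R).Finite := by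
  refine (finite_zeros_compact (isCompact_closedBall c R)).subset ?_
  rintro s ⟨h1, h2⟩
  refine ⟨?_, h1⟩
  rw [mem_closedBall, dist_eq_norm]
  exact h2

lemma Zd_sum_le {c : ℂ} {R : ℝ} {S : Finset ℂ}
    (hS : ∀ z ∈ S, z ∈ closedBall c R ∧ riemannZeta z = 0) :
    ∑ z ∈ S, (mult riemannZeta z : ℝ) ≤ cnt (Zd c R) := by
  have h5 : ∑ s ∈ S, analyticOrderNatAt riemannZeta s ≤ cnt (Zd c R) := by
    refine sum_le_cnt (Zd_finite c R) S fun z hz => ?_
    obtain ⟨h6, h7⟩ := hS z hz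
    rw [mem_closedBall, dist_eq_norm] at h6
    exact ⟨h7, h6⟩
  unfold mult
  exact_mod_cast h5

lemma mult_factor_le {f g : ℂ → ℂ} {s : Multiset ℂ} {z : ℂ}
    (hne : analyticOrderAt f z ≠ ⊤) (hg : AnalyticAt ℂ g z) (h : ∀ z, f z = Pf s z * g z) :
    mult g z ≤ mult f z := by
  have hP : AnalyticAt ℂ (Pf s) z := (Pf_diff s).analyticAt z
  have h1 : f = Pf s * g := by
    ext w
    rw [h w]
    rfl
  have h2 : analyticOrderAt f z = analyticOrderAt (Pf s) z + analyticOrderAt g z := by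
    rw [h1]
    exact analyticOrderAt_mul hP hg
  unfold mult
  rw [analyticOrderNatAt, analyticOrderNatAt, h2]
  exact ENat.toNat_le_toNat le_add_self (by rwa [h2] at hne)

lemma fin_ineq {L ν m gap X1 X2 X3 X4 E : ℝ} (h2 : E ≤ X4 * L + 18)
    (h3 : 21 * (ν * L) + X2 * L ≤ gap / 4 * L) (h5 : X3 + 18 ≤ gap / 4 * L) (h0 : 0 ≤ ν * L)
    (hg : 0 ≤ gap * L) :
    2 * (ν * L) + (2 * (m * L) + ν * L + (X1 * L + X2 * L + X3) + E) ≤
      gap * L + (2 * m + X1 + X4) * L := by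
  have h6 : (2 * m + X1 + X4) * L = 2 * (m * L) + X1 * L + X4 * L := by ring
  have h7 : gap / 4 * L = gap * L / 4 := by ring
  rw [h6]
  rw [h7] at h3 h5
  linarith

set_option maxHeartbeats 1000000 in
theorem scale_step {h θ m κ₁ : ℝ} {K : ℕ} (hh : 0 < h) (hh1 : h ≤ 1 / 20) (hθ : 0 < θ)
    (hθ1 : θ ≤ 1 / 16) (hm : 0 ≤ m) (hκ : 0 < κ₁)
    (hstar : 2 * m + m * Real.log (1 / θ) / θ * (K * Real.exp (12 * θ * K)) +
      18 * (5 + 3 * m) * (2 / 3) ^ K < κ₁ * (θ * h / 2)) :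
    ∃ η : ℝ, 0 < η ∧ ∃ T0 : ℝ, 1 ≤ T0 ∧ ∀ T : ℝ, T0 ≤ T → ∀ y : ℝ, 5 ≤ y → y ≤ 2 * T →
      ∀ R : ℝ, 1 ≤ R → R ≤ 8 / 5 → ∀ τ : ℝ, 0 ≤ τ → τ ≤ θ * h / 4 →
      (∀ y' : ℝ, |y' - y| ≤ 2 → (cnt (Zd ⟨2, y'⟩ (R - τ)) : ℝ) ≤ η * Real.log T) →
      (∀ b' : ℝ, |b' - y| ≤ Real.sqrt h / 2 → (cnt (Zd ⟨2 - R, b'⟩ (2 * h)) : ℝ) ≤ m * Real.log T) →
      ∀ z ∈ closedBall (⟨2, y⟩ : ℂ) (R + θ * h / 2), ‖riemannZeta z‖ ≤ T ^ (κ₁ * (θ * h / 2)) := by
  set Q : ℝ := K * Real.exp (12 * θ * K) with hQ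
  have hQ0 : 0 ≤ Q := by positivity
  set gap : ℝ := κ₁ * (θ * h / 2) - (2 * m + m * Real.log (1 / θ) / θ * Q +
      18 * (5 + 3 * m) * (2 / 3) ^ K) with hgap
  have hgap0 : 0 < gap := by rw [hgap]; linarith
  have hlogθ : 0 ≤ Real.log (1 / θ) := Real.log_nonneg (by rw [le_div_iff₀ hθ]; linarith)
  set ν : ℝ := min 1 (gap / 4 / (21 + 2 * Q / θ)) with hν
  have hden : 0 < 21 + 2 * Q / θ := by positivity
  have hν0 : 0 < ν := lt_min one_pos (by positivity)
  have hν1 : ν ≤ 1 := min_le_left _ _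
  have hν2 : ν * (21 + 2 * Q / θ) ≤ gap / 4 := by
    have : ν ≤ gap / 4 / (21 + 2 * Q / θ) := min_le_right _ _
    rwa [le_div_iff₀ hden] at this
  have hθh : 0 < θ * h := by positivity
  have hθh1 : θ * h ≤ 1 / 16 * (1 / 20) := by gcongr
  have hθh2 : θ * h ≤ 1 / 16 * h := by gcongr
  have hν3 : ν ≤ κ₁ * (θ * h / 2) / 3 := by
    have h1 : ν * 21 ≤ ν * (21 + 2 * Q / θ) := by
      have : 0 ≤ 2 * Q / θ := by positivity
      nlinarith
    have h2 : gap ≤ κ₁ * (θ * h / 2) := by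
      have h3 : 0 ≤ 2 * m + m * Real.log (1 / θ) / θ * Q + 18 * (5 + 3 * m) * (2 / 3) ^ K := by
        positivity
      rw [hgap]; linarith
    linarith
  obtain ⟨η, hη, T1, hT1, hlight⟩ := light_zeta (δ := θ * h / 4) (ν := ν) (by positivity)
    (by linarith) hν0
  obtain ⟨A, hA1, hA⟩ := zeta_bounds (a := 3 / 2) (by norm_num)
  have hlogA : 0 ≤ Real.log A := Real.log_nonneg hA1
  refine ⟨η, hη, max T1 (max (Real.exp ((Q / θ + 18) / (gap / 4)))
    (Real.exp (Real.log A / (κ₁ * (θ * h / 2))))), hT1.trans (le_max_left _ _), ?_⟩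
  intro T hT y hy5 hyT R hR1 hR2 τ hτ0 hτ hlt hfew z0 hz0
  have hTT1 : T1 ≤ T := (le_max_left _ _).trans hT
  have hT1' : 1 ≤ T := hT1.trans hTT1
  have hTpos : 0 < T := by linarith
  set L : ℝ := Real.log T with hL
  have hL0 : 0 ≤ L := Real.log_nonneg hT1'
  have hLQ : (Q / θ + 18) ≤ gap / 4 * L := by
    have h1 : Real.exp ((Q / θ + 18) / (gap / 4)) ≤ T :=
      (le_max_left _ _).trans ((le_max_right _ _).trans hT)
    rw [← Real.le_log_iff_exp_le hTpos, div_le_iff₀ (by positivity)] at h1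
    linarith
  have hLA : Real.log A ≤ κ₁ * (θ * h / 2) * L := by
    have h1 : Real.exp (Real.log A / (κ₁ * (θ * h / 2))) ≤ T :=
      (le_max_right _ _).trans ((le_max_right _ _).trans hT)
    rw [← Real.le_log_iff_exp_le hTpos, div_le_iff₀ (by positivity)] at h1
    linarith
  have hTexp : T ^ (κ₁ * (θ * h / 2)) = Real.exp (κ₁ * (θ * h / 2) * L) := by
    rw [Real.rpow_def_of_pos hTpos, mul_comm]
  rw [hTexp]
  -- trivial case
  rcases le_or_gt (3 / 2) z0.re with hre | hre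
  · refine ((hA z0 hre).1).trans ?_
    rw [← Real.exp_log (show 0 < A by linarith)]
    exact Real.exp_le_exp.2 hLA
  have hz0' : ‖z0 - ⟨2, y⟩‖ ≤ R + θ * h / 2 := by
    rwa [mem_closedBall, dist_eq_norm] at hz0
  set y0 : ℝ := z0.im with hy0
  have hreim := ball_re_im hz0
  have hyy := abs_le.1 hreim.2
  obtain ⟨s, g, g1, g2, g3, g4, g5, g6, g7⟩ := hlight T hTT1 y0 (by linarith) (by linarith)
    (R - τ) (R + h) (by linarith) (by linarith) (by linarith)
    (fun S hS => (Zd_sum_le hS).trans (hlt y0 (by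
      rw [abs_le]; constructor <;> linarith)))
  -- distance to the centre
  have hdist : ‖z0 - ⟨2, y0⟩‖ = 2 - z0.re := by
    have h1 : z0 - ⟨2, y0⟩ = ((-(2 - z0.re) : ℝ) : ℂ) := by
      apply Complex.ext <;> simp [hy0]
    rw [h1, Complex.norm_real, Real.norm_eq_abs, abs_neg, abs_of_nonneg (by linarith)]
  have hPf : ‖Pf s z0‖ ≤ Real.exp (2 * (ν * L)) := by
    have h1 : ‖Pf s z0‖ ≤ 4 ^ (Multiset.card s) := by
      refine Pf_norm_le fun ρ hρ => ?_
      have h2 := g1 ρ hρ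
      rw [mem_closedBall, dist_eq_norm] at h2
      calc ‖z0 - ρ‖ = ‖(z0 - ⟨2, y0⟩) - (ρ - ⟨2, y0⟩)‖ := by congr 1; ring
        _ ≤ ‖z0 - ⟨2, y0⟩‖ + ‖ρ - ⟨2, y0⟩‖ := norm_sub_le _ _
        _ ≤ 4 := by rw [hdist]; linarith
    have h4 : Real.log 4 ≤ 2 := by
      have h : Real.log 4 = 2 * Real.log 2 := by
        rw [show (4 : ℝ) = 2 ^ 2 by norm_num, Real.log_pow]; norm_num
      rw [h]
      have := Real.log_two_lt_d9
      linarith
    refine h1.trans ((pow_le_exp_mul (by norm_num) h4 g2).trans (le_of_eq ?_))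
    congr 1
    ring
  have hexp1 : ∀ x : ℝ, ‖g z0‖ ≤ Real.exp x → ‖riemannZeta z0‖ ≤ Real.exp (2 * (ν * L) + x) := by
    intro x hx
    rw [g4 z0, norm_mul, Real.exp_add]
    gcongr
  have hνL : 0 ≤ ν * L := by positivity
  rcases le_or_gt (2 - z0.re) (R - τ - θ * h / 4) with hcase | hcase
  · -- light region
    have h1 : z0 ∈ closedBall (⟨2, y0⟩ : ℂ) (R - τ - θ * h / 4) := by
      rw [mem_closedBall, dist_eq_norm, hdist]
      exact hcase
    refine (hexp1 _ (g7 z0 h1).2).trans (Real.exp_le_exp.2 ?_)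
    have h2 : ν * L ≤ κ₁ * (θ * h / 2) / 3 * L := by gcongr
    linarith
  · -- the edge
    have hlow : 2 - z0.re ≤ R + θ * h / 2 := by linarith [hreim.1]
    have hcap : |y0 - y| ≤ Real.sqrt h / 2 := by
      have h1 : (2 - z0.re) ^ 2 + (y0 - y) ^ 2 ≤ (R + θ * h / 2) ^ 2 := by
        have h2 : ‖z0 - ⟨2, y⟩‖ ^ 2 = (z0.re - 2) ^ 2 + (z0.im - y) ^ 2 := by
          rw [← Complex.normSq_eq_norm_sq, Complex.normSq_apply]
          simp only [Complex.sub_re, Complex.sub_im]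
          ring
        have h3 : ‖z0 - ⟨2, y⟩‖ ^ 2 ≤ (R + θ * h / 2) ^ 2 := by gcongr
        rw [h2] at h3
        rw [hy0]
        nlinarith
      have h4 : (R - θ * h / 2) ^ 2 ≤ (2 - z0.re) ^ 2 := by
        have : R - θ * h / 2 ≤ 2 - z0.re := by linarith
        have h5 : 0 ≤ R - θ * h / 2 := by linarith
        gcongr
      have h6 : (y0 - y) ^ 2 ≤ h / 4 := by
        have h7 : (R + θ * h / 2) ^ 2 - (R - θ * h / 2) ^ 2 = 2 * R * (θ * h) := by ring
        have h8 : 2 * R * (θ * h) ≤ 2 * (8 / 5) * (1 / 16 * h) := by gcongr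
        nlinarith
      have h9 : (Real.sqrt h / 2) ^ 2 = h / 4 := by
        rw [div_pow, Real.sq_sqrt hh.le]; norm_num
      rw [← h9] at h6
      exact abs_le_of_sq_le_sq h6 (by positivity)
    set b : ℂ := z0 + ((h / 2 : ℝ) : ℂ) with hb
    have hbc : ‖b - ⟨2, y0⟩‖ = 2 - z0.re - h / 2 := by
      have h1 : b - ⟨2, y0⟩ = ((-(2 - z0.re - h / 2) : ℝ) : ℂ) := by
        apply Complex.ext
        · simp [hb]; ring
        · simp [hb, hy0]
      rw [h1, Complex.norm_real, Real.norm_eq_abs, abs_neg, abs_of_nonneg (by linarith)]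
    have hbw : ‖b - ⟨2 - R, y0⟩‖ ≤ h := by
      have h1 : b - ⟨2 - R, y0⟩ = ((R - (2 - z0.re) + h / 2 : ℝ) : ℂ) := by
        apply Complex.ext
        · simp [hb]; ring
        · simp [hb, hy0]
      rw [h1, Complex.norm_real, Real.norm_eq_abs, abs_le]
      constructor <;> linarith
    have hsub : ∀ r : ℝ, ∀ w ∈ closedBall b r, ‖w - ⟨2, y0⟩‖ ≤ r + (2 - z0.re - h / 2) := by
      intro r w hw
      rw [mem_closedBall, dist_eq_norm] at hw
      calc ‖w - ⟨2, y0⟩‖ = ‖(w - b) + (b - ⟨2, y0⟩)‖ := by congr 1; ring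
        _ ≤ ‖w - b‖ + ‖b - ⟨2, y0⟩‖ := norm_add_le _ _
        _ ≤ _ := by rw [hbc]; gcongr
    have hsubR : closedBall b (9 / 8 * h) ⊆ closedBall (⟨2, y0⟩ : ℂ) (R + h) := by
      intro w hw
      have := hsub _ w hw
      rw [mem_closedBall, dist_eq_norm]
      linarith
    have hsubr : closedBall b (h / 2 - θ * h) ⊆ closedBall (⟨2, y0⟩ : ℂ) (R - τ - θ * h / 4) := by
      intro w hw
      have := hsub _ w hw
      rw [mem_closedBall, dist_eq_norm]
      linarith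
    -- finite order
    have hord : ∀ w ∈ closedBall b h, analyticOrderAt riemannZeta w ≠ ⊤ := by
      intro w hw
      have hw' : w ∈ closedBall (⟨2, y0⟩ : ℂ) (R + h) :=
        hsubR (closedBall_subset_closedBall (by linarith) hw)
      have hKp : IsPreconnected (closedBall (⟨2, y0⟩ : ℂ) (R + h)) :=
        (convex_closedBall _ _).isPreconnected
      refine order_ne_top hKp (fun v hv => zeta_analyticAt ?_)
        (mem_closedBall_self (by linarith : 0 ≤ R + h)) ?_ hw'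
      · have := abs_le.1 (ball_re_im hv).2
        linarith
      · exact riemannZeta_ne_zero_of_one_le_re (by simp)
    have key := loc_abs (g := g) (b := b) (h := h) (θ := θ) (P := 3 * L) (p := ν * L)
      (n := m * L) hh hθ hθ1 (by positivity) hνL (by positivity)
      (fun w hw => g3 w (hsubR hw)) (fun w hw => g6 w (hsubR hw))
      (fun w hw => (g7 w (hsubr hw)).2)
      (g7 b (hsubr (mem_closedBall_self (by linarith)))).1
      (by
        intro w hw hw0
        have h1 : w ∉ closedBall (⟨2, y0⟩ : ℂ) (R - τ) := fun hcon => g5 w hcon hw0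
        rw [mem_closedBall, dist_eq_norm] at h1
        push Not at h1
        have h2 : ‖w - ⟨2, y0⟩‖ ≤ ‖w - b‖ + ‖b - ⟨2, y0⟩‖ := by
          calc ‖w - ⟨2, y0⟩‖ = ‖(w - b) + (b - ⟨2, y0⟩)‖ := by congr 1; ring
            _ ≤ ‖w - b‖ + ‖b - ⟨2, y0⟩‖ := norm_add_le _ _
        rw [hbc] at h2
        linarith)
      (by
        intro S hS
        refine le_trans ?_ (hfew y0 hcap)
        refine le_trans ?_ (Zd_sum_le (S := S) ?_)
        · refine Finset.sum_le_sum fun w hw => ?_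
          have hw' := hS w hw
          exact_mod_cast mult_factor_le (hord w hw'.1)
            (g3 w (hsubR (closedBall_subset_closedBall (by linarith) hw'.1))) g4
        · intro w hw
          have hw' := hS w hw
          refine ⟨?_, ?_⟩
          · have h1 := hw'.1
            rw [mem_closedBall, dist_eq_norm] at h1 ⊢
            calc ‖w - ⟨2 - R, y0⟩‖ = ‖(w - b) + (b - ⟨2 - R, y0⟩)‖ := by congr 1; ring
              _ ≤ ‖w - b‖ + ‖b - ⟨2 - R, y0⟩‖ := norm_add_le _ _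
              _ ≤ 2 * h := by linarith
          · rw [g4 w, hw'.2, mul_zero])
      K (z := z0) (by
        rw [mem_closedBall, dist_eq_norm, hb]
        have : z0 - (z0 + ((h / 2 : ℝ) : ℂ)) = ((-(h / 2) : ℝ) : ℂ) := by push_cast; ring
        rw [this, Complex.norm_real, Real.norm_eq_abs, abs_neg, abs_of_nonneg (by positivity)])
    refine (hexp1 _ key).trans (Real.exp_le_exp.2 ?_)
    rw [← hQ]
    have hpK : (2 / 3 : ℝ) ^ K ≤ 1 := pow_le_one₀ (by norm_num) (by norm_num)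
    have hpK0 : (0 : ℝ) ≤ (2 / 3) ^ K := by positivity
    have e1 : (2 * (ν * L) + m * L * Real.log (1 / θ) + 1) / θ * Q =
        m * Real.log (1 / θ) / θ * Q * L + ν * (2 * Q / θ) * L + Q / θ := by
      field_simp
      ring
    have e2 : 18 * (3 * L + ν * L + 3 * (m * L) + 1) * (2 / 3) ^ K ≤
        18 * (5 + 3 * m) * (2 / 3) ^ K * L + 18 := by
      have h1 : 3 * L + ν * L + 3 * (m * L) ≤ (5 + 3 * m) * L := by
        have : ν * L ≤ 1 * L := by gcongr
        nlinarith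
      have h2 : 18 * (3 * L + ν * L + 3 * (m * L)) * (2 / 3) ^ K ≤
          18 * ((5 + 3 * m) * L) * (2 / 3) ^ K := by gcongr
      nlinarith
    rw [e1]
    have e3 : ν * (21 + 2 * Q / θ) * L ≤ gap / 4 * L := mul_le_mul_of_nonneg_right hν2 hL0
    have e4 : κ₁ * (θ * h / 2) * L = gap * L + (2 * m + m * Real.log (1 / θ) / θ * Q +
      18 * (5 + 3 * m) * (2 / 3) ^ K) * L := by rw [hgap]; ring
    rw [e4]
    have e5 : 0 ≤ gap * L := by positivity
    have e6 : ν * (21 + 2 * Q / θ) * L = 21 * (ν * L) + ν * (2 * Q / θ) * L := by ring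
    rw [e6] at e3
    exact fin_ineq e2 e3 hLQ hνL e5

end Pool.Agent.K9h52.DX
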